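import Pool.Agent.P8H23.PM.Main

set_option autoImplicit false
set_option linter.unusedVariables false

open MeasureTheory Filter Topology Set
open scoped ContDiff ENNReal Manifold
open Pool.Agent.Helper985.VR

namespace Pool.Agent.P8H23.PM

theorem finiteCone_open (z a : E3) (ρ α : ℝ) : IsOpen (finiteCone z a ρ α) :=
  Metric.isOpen_ball.inter isOpen_interior

theorem finiteCone_shift (x a : E3) (ρ α : ℝ) :
    finiteCone x a ρ α = (fun y => y - x) ⁻¹' finiteCone 0 a ρ α := by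
  unfold finiteCone
  rw [preimage_inter]
  congr 1
  · ext y
    simp [dist_eq_norm]
  · have h := (Homeomorph.subRight x).preimage_interior
      {y : E3 | ‖y - 0‖ * Real.cos (Real.pi * α / 2) ≤ inner ℝ (y - 0) a}
    have e : (Homeomorph.subRight x : E3 → E3) = fun y => y - x := rfl
    rw [e] at h
    rw [h]
    congr 1
    ext y
    simp

theorem grad_cont_off {k : ℝ} {G : E3 → ℂ} (hG : SingularSolution k G) (i : Fin 3) :
    ContinuousOn (grad G i) {0}ᶜ := by
  have h1 : ContinuousOn (fderiv ℝ G) {0}ᶜ :=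
    hG.smooth.continuousOn_fderiv_of_isOpen isOpen_compl_singleton (by norm_num)
  exact h1.clm_apply continuousOn_const

theorem shift_contOn {F : E3 → ℂ} (hF : ContinuousOn F {0}ᶜ) {x : E3} {K : Set E3} (hK : x ∉ K) :
    ContinuousOn (fun y => F (y - x)) K := by
  refine hF.comp (continuous_sub_right x).continuousOn ?_
  intro y hy
  simp only [mem_compl_iff, mem_singleton_iff, sub_eq_zero]
  rintro rfl
  exact hK hy

theorem parts_sum {A : Set E3} {f : E3 → ℂ} (hf : SI A f) :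
    ∫ y in A, ‖f y‖ ^ 2 = ∑ c, ∫ y in A, pt c (f y) ^ 2 := by
  rw [← integral_finsetSum _ fun c _ => (hf.part c).2]
  congr 1; ext y
  exact (pt_sq_add _).symm

theorem part_le {A : Set E3} {f : E3 → ℂ} (hf : SI A f) (c : Bool) :
    ∫ y in A, pt c (f y) ^ 2 ≤ ∫ y in A, ‖f y‖ ^ 2 := by
  rw [parts_sum hf]
  exact Finset.single_le_sum (f := fun c => ∫ y in A, pt c (f y) ^ 2)
    (fun i _ => integral_nonneg fun y => sq_nonneg _) (Finset.mem_univ c)

/-- bounded energy in a cone at the tip of the needle is impossible -/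
theorem no_bounded_cone {Ω : Set E3} {k : ℝ} {G : E3 → ℂ} (hG : SingularSolution k G) {x : E3}
    {σ : ℝ → E3} (hS : IsCompact (σ '' Icc 0 1)) (hS0 : volume (σ '' Icc 0 1) = 0)
    (hxS : x ∈ σ '' Icc 0 1) {v : ℕ → E3 → ℂ} {g : ℕ → Fin 3 → E3 → ℂ}
    (hv : NeedleSequence Ω k G x σ v g) {a : E3} {ρ α : ℝ} (ha : ‖a‖ = 1) (hρ : 0 < ρ)
    (hα : 0 < α) (hα1 : α < 1) (hV : finiteCone x a ρ α ⊆ Ω) {φ : ℕ → ℕ}
    (hφ : Tendsto φ atTop atTop) {M : ℝ}
    (hM : ∀ n i, ∫ y in finiteCone x a ρ α, ‖g (φ n) i y‖ ^ 2 ≤ M) : False := by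
  have hop := finiteCone_open x a ρ α
  have hb : Bornology.IsBounded (finiteCone x a ρ α) := Metric.isBounded_ball.subset inter_subset_left
  have key : ∀ i, ∫⁻ y in finiteCone x a ρ α, ‖grad G i (y - x)‖ₑ ^ 2 ≤ ENNReal.ofReal (2 * M) := by
    intro i
    refine lemmaF hop hb hS hS0 (a := fun n => g (φ n) i) (fun n => ((hv.inH1 _).sig i).mono hV)
      (fun n => hM n i) ?_ ?_
    · intro K hK hKV
      exact shift_contOn (grad_cont_off hG i) fun hxK => (hKV hxK).2 hxS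
    · intro K hK hKV
      exact (hv.conv_grad K hK (hKV.trans (sdiff_subset_sdiff_left hV)) i).comp hφ
  have hmeas : ∀ i, Measurable fun y : E3 => ‖grad G i y‖ₑ ^ 2 := fun i =>
    ((measurable_fderiv_apply_const ℝ G (ee i)).enorm).pow_const 2
  have h1 := hG.cone a ρ α ha hρ hα hα1
  have h2 : ∫⁻ y in finiteCone x a ρ α, ∑ i, ‖grad G i (y - x)‖ₑ ^ 2 = ⊤ := by
    rw [← h1, finiteCone_shift x a ρ α]
    exact (measurePreserving_sub_right volume x).setLIntegral_comp_preimage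
      (finiteCone_open 0 a ρ α).measurableSet (Finset.measurable_fun_sum _ fun i _ => hmeas i)
  have hmeas' : ∀ i, Measurable fun y : E3 => ‖grad G i (y - x)‖ₑ ^ 2 := fun i =>
    (hmeas i).comp (measurable_sub_const x)
  rw [lintegral_finsetSum _ fun i _ => hmeas' i] at h2
  have h3 : ∑ i : Fin 3, ∫⁻ y in finiteCone x a ρ α, ‖grad G i (y - x)‖ₑ ^ 2 ≤
      ∑ i : Fin 3, ENNReal.ofReal (2 * M) := Finset.sum_le_sum fun i _ => key i
  have h4 : ∑ i : Fin 3, ENNReal.ofReal (2 * M) < ⊤ := by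
    rw [ENNReal.sum_lt_top]
    exact fun _ _ => ENNReal.ofReal_lt_top
  exact absurd h2 (h3.trans_lt h4).ne

/-- the total energy -/
noncomputable def tot (Ω D : Set E3) (v : E3 → ℂ) (g : Fin 3 → E3 → ℂ) (u : E3 → ℂ)
    (gu : Fin 3 → E3 → ℂ) : ℝ :=
  ∑ c, (en (closure D) (fun y => pt c (v y)) (fun i y => pt c (g i y)) +
    en (Ω \ closure D) (fun y => pt c (u y) - pt c (v y)) (fun i y => pt c (gu i y) - pt c (g i y)))

theorem en_le_tot (Ω D : Set E3) (v : E3 → ℂ) (g : Fin 3 → E3 → ℂ) (u : E3 → ℂ)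
    (gu : Fin 3 → E3 → ℂ) (c : Bool) :
    en (closure D) (fun y => pt c (v y)) (fun i y => pt c (g i y)) +
    en (Ω \ closure D) (fun y => pt c (u y) - pt c (v y)) (fun i y => pt c (gu i y) - pt c (g i y))
      ≤ tot Ω D v g u gu :=
  Finset.single_le_sum (f := fun c => en (closure D) (fun y => pt c (v y))
    (fun i y => pt c (g i y)) + en (Ω \ closure D) (fun y => pt c (u y) - pt c (v y))
      (fun i y => pt c (gu i y) - pt c (g i y)))
    (fun c _ => add_nonneg (en_nonneg _ _ _) (en_nonneg _ _ _)) (Finset.mem_univ c)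

/-- bounds for `L²` norms away from the needle -/
theorem bdd_off {Ω : Set E3} {k : ℝ} {G : E3 → ℂ} (hG : SingularSolution k G) {x : E3}
    {σ : ℝ → E3} (hxS : x ∈ σ '' Icc 0 1) {v : ℕ → E3 → ℂ} {g : ℕ → Fin 3 → E3 → ℂ}
    (hv : NeedleSequence Ω k G x σ v g) {K : Set E3} (hK : IsCompact K)
    (hKs : K ⊆ Ω \ (σ '' Icc 0 1)) :
    ∃ M, (∀ n, ∫ y in K, ‖v n y‖ ^ 2 ≤ M) ∧ ∀ n i, ∫ y in K, ‖g n i y‖ ^ 2 ≤ M := by
  have gen : ∀ {f : ℕ → E3 → ℂ} {F : E3 → ℂ}, (∀ n, SI K (f n)) → ContinuousOn F K →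
      Tendsto (fun n => ∫ y in K, ‖f n y - F y‖ ^ 2) atTop (𝓝 0) →
      ∃ M, ∀ n, ∫ y in K, ‖f n y‖ ^ 2 ≤ M := by
    intro f F hf hF hlim
    have hKm : MeasurableSet K := hK.isClosed.measurableSet
    have ib : IntegrableOn (fun y => ‖F y‖ ^ 2) K := (hF.norm.pow 2).integrableOn_compact hK
    have iab : ∀ n, IntegrableOn (fun y => ‖f n y - F y‖ ^ 2) K := by
      intro n
      refine Integrable.mono' (((hf n).2.const_mul 2).add (ib.const_mul 2)) ?_ ?_
      · exact ((hf n).1.aestronglyMeasurable.restrict.sub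
          (hF.aestronglyMeasurable hKm)).norm.pow 2
      · filter_upwards with y
        simp only [Pi.add_apply]
        rw [Real.norm_eq_abs, abs_of_nonneg (sq_nonneg _)]
        have := norm_sub_le (f n y) (F y)
        nlinarith [sq_nonneg (‖f n y‖ - ‖F y‖), norm_nonneg (f n y), norm_nonneg (F y),
          norm_nonneg (f n y - F y)]
    obtain ⟨B, hB⟩ := hlim.bddAbove_range
    refine ⟨2 * B + 2 * ∫ y in K, ‖F y‖ ^ 2, fun n => ?_⟩
    have hBn : ∫ y in K, ‖f n y - F y‖ ^ 2 ≤ B := hB (mem_range_self n)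
    have h2 : ∫ y in K, ‖f n y‖ ^ 2 ≤ ∫ y in K, (2 * ‖f n y - F y‖ ^ 2 + 2 * ‖F y‖ ^ 2) := by
      refine setIntegral_mono_on (hf n).2 (((iab n).const_mul 2).add (ib.const_mul 2)) hKm ?_
      intro y _
      have : ‖f n y‖ ≤ ‖f n y - F y‖ + ‖F y‖ := by
        calc ‖f n y‖ = ‖(f n y - F y) + F y‖ := by congr 1; ring
          _ ≤ _ := norm_add_le _ _
      nlinarith [sq_nonneg (‖f n y - F y‖ - ‖F y‖), norm_nonneg (f n y), norm_nonneg (F y),
        norm_nonneg (f n y - F y)]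
    rw [integral_add ((iab n).const_mul 2) (ib.const_mul 2), integral_const_mul,
      integral_const_mul] at h2
    linarith
  have hxK : x ∉ K := fun h => (hKs h).2 hxS
  obtain ⟨M0, hM0⟩ := gen (fun n => ((hv.inH1 n).si.mono (hKs.trans sdiff_subset)))
    (shift_contOn hG.smooth.continuousOn hxK) (hv.conv K hK hKs)
  have hg : ∀ i, ∃ M, ∀ n, ∫ y in K, ‖g n i y‖ ^ 2 ≤ M := fun i =>
    gen (fun n => (((hv.inH1 n).sig i).mono (hKs.trans sdiff_subset)))
      (shift_contOn (grad_cont_off hG i) hxK) (hv.conv_grad K hK hKs i)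
  choose M1 hM1 using hg
  refine ⟨max M0 (∑ i, |M1 i|), fun n => (hM0 n).trans (le_max_left _ _), fun n i => ?_⟩
  refine (hM1 i n).trans (le_trans ?_ (le_max_right _ _))
  exact (le_abs_self _).trans (Finset.single_le_sum (f := fun i => |M1 i|)
    (fun i _ => abs_nonneg _) (Finset.mem_univ i))

/-- **Blow-up of the energy.** -/
theorem tot_tendsto {Ω D : Set E3} (hΩ : IsOpen Ω) (hD : IsOpen D) (hDs : SmoothBoundary D)
    (hDΩ : closure D ⊆ Ω) {k : ℝ} {G : E3 → ℂ} (hG : SingularSolution k G) {x : E3} (hx : x ∈ Ω)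
    {σ : ℝ → E3} (hσ : Needle Ω x σ)
    (hcase : x ∈ closure D ∨ (σ '' Icc 0 1 ∩ D).Nonempty)
    {v : ℕ → E3 → ℂ} {g : ℕ → Fin 3 → E3 → ℂ} (hv : NeedleSequence Ω k G x σ v g)
    (u : ℕ → E3 → ℂ) (gu : ℕ → Fin 3 → E3 → ℂ) :
    Tendsto (fun n => tot Ω D (v n) (g n) (u n) (gu n)) atTop atTop := by
  have hS : IsCompact (σ '' Icc 0 1) := isCompact_Icc.image_of_continuousOn hσ.continuousOn
  have hS0 := hσ.null
  have hxS : x ∈ σ '' Icc 0 1 := ⟨1, by simp, hσ.finish⟩
  by_contra hcon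
  rw [tendsto_atTop] at hcon
  push Not at hcon
  obtain ⟨M, hM⟩ := hcon
  obtain ⟨φ, hφ, hφM⟩ := extraction_of_frequently_atTop hM
  have hM0 : ∀ n c, en (closure D) (fun y => pt c (v (φ n) y)) (fun i y => pt c (g (φ n) i y)) ≤ M := by
    intro n c
    have h1 := en_le_tot Ω D (v (φ n)) (g (φ n)) (u (φ n)) (gu (φ n)) c
    have h2 := en_nonneg (Ω \ closure D) (fun y => pt c (u (φ n) y) - pt c (v (φ n) y))
      (fun i y => pt c (gu (φ n) i y) - pt c (g (φ n) i y))
    have h3 := hφM n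
    linarith
  have hgD : ∀ n i, ∫ y in closure D, ‖g (φ n) i y‖ ^ 2 ≤ 2 * M := by
    intro n i
    rw [parts_sum (((hv.inH1 _).sig i).mono hDΩ)]
    have h1 : ∀ c, ∫ y in closure D, pt c (g (φ n) i y) ^ 2 ≤ M := fun c =>
      (le_en_grad (closure D) (fun y => pt c (v (φ n) y)) (fun i y => pt c (g (φ n) i y)) i).trans
        (hM0 n c)
    rw [Fintype.sum_bool]
    linarith [h1 true, h1 false]
  by_cases hxD : x ∈ closure D
  · obtain ⟨a, ρ, α, ha, hρ, hα, hα1, hsub⟩ := exists_finiteCone hD hDs hxD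
    refine no_bounded_cone hG hS hS0 hxS hv ha hρ hα hα1 (hsub.trans hDΩ) hφ.tendsto_atTop
      (M := 2 * M) fun n i => ?_
    refine le_trans ?_ (hgD n i)
    exact setIntegral_mono_set (((hv.inH1 _).sig i).mono hDΩ).2
      (by filter_upwards with y using sq_nonneg _) hsub.eventuallyLE
  · have hne : (σ '' Icc 0 1 ∩ D).Nonempty := hcase.resolve_left hxD
    have h0Ω : σ 0 ∉ Ω := by
      have := hσ.start
      rw [hΩ.frontier_eq] at this
      exact this.2
    obtain ⟨r, hr, B, hB, R, hRc, hRs, hrΩ, hT⟩ := lemmaT (k := k) hΩ hD hDΩ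
      (fun χ hχ f g hf hs => cacc hΩ hf hs hχ) hσ.inj hσ.continuousOn hσ.finish hx hσ.inside h0Ω
      hσ.null_sub hne
    obtain ⟨M', hM', -⟩ := bdd_off hG hxS hv hRc hRs
    have hsub : finiteCone x (ee 0) r (1/2) ⊆ Metric.ball x r := inter_subset_left
    refine no_bounded_cone hG hS hS0 hxS hv (a := ee 0) (ρ := r) (α := 1/2) (by simp [ee]) hr
      (by norm_num) (by norm_num) (hsub.trans hrΩ) hφ.tendsto_atTop
      (M := 2 * (B * (M + M'))) fun n i => ?_
    have h1 : ∀ c, ∫ y in Metric.ball x r, pt c (g (φ n) i y) ^ 2 ≤ B * (M + M') := by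
      intro c
      have h2 := hT _ _ ((hv.inH1 (φ n)).part c) (Solves.part (hv.inH1 (φ n)).si
        (hv.inH1 (φ n)).sig (hv.solves (φ n)) c) i
      refine h2.trans (mul_le_mul_of_nonneg_left (add_le_add ?_ ?_) hB)
      · exact (le_en_fun (closure D) (fun y => pt c (v (φ n) y))
          (fun i y => pt c (g (φ n) i y))).trans (hM0 n c)
      · exact (part_le ((hv.inH1 (φ n)).si.mono (hRs.trans sdiff_subset)) c).trans (hM' _)
    have h2 : ∫ y in Metric.ball x r, ‖g (φ n) i y‖ ^ 2 ≤ 2 * (B * (M + M')) := by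
      rw [parts_sum (((hv.inH1 _).sig i).mono hrΩ), Fintype.sum_bool]
      linarith [h1 true, h1 false]
    refine le_trans ?_ h2
    exact setIntegral_mono_set (((hv.inH1 _).sig i).mono hrΩ).2
      (by filter_upwards with y using sq_nonneg _) hsub.eventuallyLE

end Pool.Agent.P8H23.PM
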