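import Pool.Agent.P8H23.PM.Stmt

set_option autoImplicit false

open MeasureTheory Filter Topology Set
open scoped ContDiff ComplexConjugate ENNReal

namespace Pool.Agent.P8H23.PM

/-- real (`false`) or imaginary (`true`) part -/
noncomputable def pt (c : Bool) : ℂ →L[ℝ] ℝ := if c then Complex.imCLM else Complex.reCLM

@[simp] theorem pt_false (z : ℂ) : pt false z = z.re := by simp [pt]
@[simp] theorem pt_true (z : ℂ) : pt true z = z.im := by simp [pt]

theorem pt_meas (c : Bool) : Measurable fun z : ℂ => pt c z := (pt c).continuous.measurable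

theorem pt_sq_le (c : Bool) (z : ℂ) : pt c z ^ 2 ≤ ‖z‖ ^ 2 := by
  rw [← Complex.normSq_eq_norm_sq, Complex.normSq_apply]
  cases c
  · simp; nlinarith [sq_nonneg z.im]
  · simp; nlinarith [sq_nonneg z.re]

theorem pt_sq_add (z : ℂ) : ∑ c, pt c z ^ 2 = ‖z‖ ^ 2 := by
  rw [← Complex.normSq_eq_norm_sq, Complex.normSq_apply]
  simp; ring

/-- square integrable functions on `U` -/
def SI (U : Set E3) (f : E3 → ℂ) : Prop := Measurable f ∧ IntegrableOn (fun y => ‖f y‖ ^ 2) U

/-- real square integrable functions on `U` -/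
def SR (U : Set E3) (f : E3 → ℝ) : Prop := Measurable f ∧ IntegrableOn (fun y => f y ^ 2) U

theorem SR.mul {U : Set E3} {f g : E3 → ℝ} (hf : SR U f) (hg : SR U g) :
    IntegrableOn (fun y => f y * g y) U := by
  refine Integrable.mono' (hf.2.add hg.2) (hf.1.mul hg.1).aestronglyMeasurable ?_
  filter_upwards with x
  simp only [Pi.add_apply, Real.norm_eq_abs, abs_mul]
  nlinarith [sq_nonneg (|f x| - |g x|), sq_abs (f x), sq_abs (g x), abs_nonneg (f x),
    abs_nonneg (g x)]

theorem SI.mul {U : Set E3} {f g : E3 → ℂ} (hf : SI U f) (hg : SI U g) :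
    IntegrableOn (fun y => f y * g y) U := by
  refine Integrable.mono' (hf.2.add hg.2) (hf.1.mul hg.1).aestronglyMeasurable ?_
  filter_upwards with x
  simp only [Pi.add_apply, norm_mul]
  nlinarith [sq_nonneg (‖f x‖ - ‖g x‖), norm_nonneg (f x), norm_nonneg (g x)]

theorem SI.part {U : Set E3} {f : E3 → ℂ} (hf : SI U f) (c : Bool) :
    SR U (fun y => pt c (f y)) := by
  refine ⟨(pt_meas c).comp hf.1, Integrable.mono' hf.2
    (((pt_meas c).comp hf.1).pow_const 2).aestronglyMeasurable ?_⟩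
  filter_upwards with y
  rw [Real.norm_eq_abs, abs_of_nonneg (sq_nonneg _)]
  exact pt_sq_le c _

theorem SI.conj {U : Set E3} {f : E3 → ℂ} (hf : SI U f) : SI U (fun y => conj (f y)) :=
  ⟨Complex.continuous_conj.measurable.comp hf.1, by simpa using hf.2⟩

theorem SI.mono {U V : Set E3} (h : V ⊆ U) {f : E3 → ℂ} (hf : SI U f) : SI V f :=
  ⟨hf.1, hf.2.mono_set h⟩

theorem SR.mono {U V : Set E3} (h : V ⊆ U) {f : E3 → ℝ} (hf : SR U f) : SR V f :=
  ⟨hf.1, hf.2.mono_set h⟩

theorem SR.add {U : Set E3} {f g : E3 → ℝ} (hf : SR U f) (hg : SR U g) :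
    SR U (fun y => f y + g y) := by
  refine ⟨hf.1.add hg.1, ?_⟩
  refine ((hf.2.add hg.2).add ((hf.mul hg).const_mul 2)).congr ?_
  filter_upwards with x
  simp only [Pi.add_apply]; ring

theorem SR.const_mul {U : Set E3} {f : E3 → ℝ} (hf : SR U f) (c : ℝ) :
    SR U (fun y => c * f y) := by
  refine ⟨hf.1.const_mul c, ?_⟩
  refine (hf.2.const_mul (c ^ 2)).congr ?_
  filter_upwards with x
  ring

theorem SR.sub {U : Set E3} {f g : E3 → ℝ} (hf : SR U f) (hg : SR U g) :
    SR U (fun y => f y - g y) := by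
  have := hf.add (hg.const_mul (-1))
  refine ⟨hf.1.sub hg.1, this.2.congr ?_⟩
  filter_upwards with x
  ring

theorem SR.of_cc {U : Set E3} {φ : E3 → ℝ} (hφ : Continuous φ) (hc : HasCompactSupport φ) :
    SR U φ := by
  refine ⟨hφ.measurable, Integrable.integrableOn ?_⟩
  have : Continuous fun x => φ x ^ 2 := hφ.pow 2
  exact this.integrable_of_hasCompactSupport (hc.comp_left (g := fun t : ℝ => t ^ 2) (by norm_num))

theorem SI.of_cc {U : Set E3} {φ : E3 → ℂ} (hφ : Continuous φ) (hc : HasCompactSupport φ) :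
    SI U φ := by
  refine ⟨hφ.measurable, Integrable.integrableOn ?_⟩
  have : Continuous fun x => ‖φ x‖ ^ 2 := hφ.norm.pow 2
  exact this.integrable_of_hasCompactSupport (hc.comp_left (g := fun t : ℂ => ‖t‖ ^ 2) (by simp))

theorem grad_cont {φ : E3 → ℂ} (h : ContDiff ℝ ∞ φ) (i : Fin 3) : Continuous (grad φ i) :=
  (h.continuous_fderiv (by norm_num)).clm_apply continuous_const

theorem grad_cc {φ : E3 → ℂ} (h : HasCompactSupport φ) (i : Fin 3) :
    HasCompactSupport (grad φ i) := h.fderiv_apply (𝕜 := ℝ) (ee i)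

theorem rgrad_cont {φ : E3 → ℝ} (h : ContDiff ℝ ∞ φ) (i : Fin 3) : Continuous (rgrad φ i) :=
  (h.continuous_fderiv (by norm_num)).clm_apply continuous_const

theorem rgrad_cc {φ : E3 → ℝ} (h : HasCompactSupport φ) (i : Fin 3) :
    HasCompactSupport (rgrad φ i) := h.fderiv_apply (𝕜 := ℝ) (ee i)

theorem RTest.si {U V : Set E3} {φ : E3 → ℝ} (h : RTest U φ) : SR V φ :=
  SR.of_cc h.smooth.continuous h.cpt

theorem RTest.sig {U V : Set E3} {φ : E3 → ℝ} (h : RTest U φ) (i : Fin 3) : SR V (rgrad φ i) :=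
  SR.of_cc (rgrad_cont h.smooth i) (rgrad_cc h.cpt i)

theorem IsTest.si {U V : Set E3} {φ : E3 → ℂ} (h : IsTest U φ) : SI V φ :=
  SI.of_cc h.smooth.continuous h.cpt

theorem IsTest.sig {U V : Set E3} {φ : E3 → ℂ} (h : IsTest U φ) (i : Fin 3) : SI V (grad φ i) :=
  SI.of_cc (grad_cont h.smooth i) (grad_cc h.cpt i)

/-- parts of a complex test function -/
theorem IsTest.part {U : Set E3} {φ : E3 → ℂ} (h : IsTest U φ) (c : Bool) :
    RTest U (fun y => pt c (φ y)) :=
  ⟨(pt c).contDiff.comp h.smooth, h.cpt.comp_left (map_zero _),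
    (closure_mono (fun y hy => by
      simp only [Function.mem_support] at hy ⊢
      intro h0
      exact hy (by rw [h0, map_zero]))).trans h.sub⟩

theorem rgrad_part {φ : E3 → ℂ} (h : ContDiff ℝ ∞ φ) (c : Bool) (i : Fin 3) (y : E3) :
    rgrad (fun y => pt c (φ y)) i y = pt c (grad φ i y) := by
  have h1 : HasFDerivAt φ (fderiv ℝ φ y) y := (h.differentiable (by norm_num) y).hasFDerivAt
  have h2 : HasFDerivAt (fun y => pt c (φ y)) ((pt c).comp (fderiv ℝ φ y)) y :=
    (pt c).hasFDerivAt.comp y h1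
  unfold rgrad grad
  rw [h2.fderiv]
  rfl

/-- real test functions as complex ones -/
theorem RTest.cx {U : Set E3} {φ : E3 → ℝ} (h : RTest U φ) : IsTest U (fun y => (φ y : ℂ)) :=
  ⟨(Complex.ofRealCLM.contDiff (n := ∞)).comp h.smooth,
    h.cpt.comp_left (g := fun t : ℝ => (t : ℂ)) Complex.ofReal_zero,
    (closure_mono (fun y hy => by
      rw [Function.mem_support] at hy ⊢
      intro h0
      exact hy (by rw [h0, Complex.ofReal_zero]))).trans h.sub⟩

theorem grad_cx {φ : E3 → ℝ} (h : ContDiff ℝ ∞ φ) (i : Fin 3) (y : E3) :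
    grad (fun y => (φ y : ℂ)) i y = (rgrad φ i y : ℂ) := by
  have h1 : HasFDerivAt φ (fderiv ℝ φ y) y := (h.differentiable (by norm_num) y).hasFDerivAt
  have h2 : HasFDerivAt (fun y => (φ y : ℂ)) (Complex.ofRealCLM.comp (fderiv ℝ φ y)) y :=
    Complex.ofRealCLM.hasFDerivAt.comp y h1
  unfold rgrad grad
  rw [h2.fderiv]
  rfl

theorem pt_integral {U : Set E3} {f : E3 → ℂ} (hf : IntegrableOn f U) (c : Bool) :
    ∫ y in U, pt c (f y) = pt c (∫ y in U, f y) :=
  (pt c).integral_comp_comm hf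

theorem pt_mul_real (c : Bool) (z : ℂ) (r : ℝ) : pt c (z * r) = pt c z * r := by
  cases c <;> simp

theorem InH1.si {U : Set E3} {v : E3 → ℂ} {g : Fin 3 → E3 → ℂ} (h : InH1 U v g) : SI U v :=
  ⟨h.meas, h.sq⟩

theorem InH1.sig {U : Set E3} {v : E3 → ℂ} {g : Fin 3 → E3 → ℂ} (h : InH1 U v g) (i : Fin 3) :
    SI U (g i) := ⟨h.meas_grad i, h.sq_grad i⟩

theorem RH.si {U : Set E3} {v : E3 → ℝ} {g : Fin 3 → E3 → ℝ} (h : RH U v g) : SR U v :=
  ⟨h.meas, h.sq⟩

theorem RH.sig {U : Set E3} {v : E3 → ℝ} {g : Fin 3 → E3 → ℝ} (h : RH U v g) (i : Fin 3) :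
    SR U (g i) := ⟨h.meas_grad i, h.sq_grad i⟩

/-- parts of an `H¹` function -/
theorem InH1.part {U : Set E3} {v : E3 → ℂ} {g : Fin 3 → E3 → ℂ} (h : InH1 U v g) (c : Bool) :
    RH U (fun y => pt c (v y)) (fun i y => pt c (g i y)) := by
  refine ⟨(h.si.part c).1, fun i => ((h.sig i).part c).1, (h.si.part c).2,
    fun i => ((h.sig i).part c).2, ?_⟩
  intro i φ hφ
  have h1 := h.weak i _ hφ.cx
  have h2 : ∫ y in U, pt c (v y * grad (fun y => (φ y : ℂ)) i y) =
      - ∫ y in U, pt c (g i y * (φ y : ℂ)) := by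
    rw [pt_integral (h.si.mul (hφ.cx.sig i)), h1, map_neg, pt_integral ((h.sig i).mul hφ.cx.si)]
  simp only [grad_cx hφ.smooth, pt_mul_real] at h2
  exact h2

theorem form_real {U : Set E3} {k : ℝ} {v : E3 → ℂ} {g : Fin 3 → E3 → ℂ} {φ : E3 → ℝ}
    {h : Fin 3 → E3 → ℝ} (hv : SI U v) (hg : ∀ i, SI U (g i)) (hφ : SR U φ) (hh : ∀ i, SR U (h i))
    (c : Bool) :
    pt c (form U k v g (fun y => (φ y : ℂ)) (fun i y => (h i y : ℂ))) =
      rform U k (fun y => pt c (v y)) (fun i y => pt c (g i y)) φ h := by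
  have cx : ∀ {f : E3 → ℝ}, SR U f → SI U (fun y => (f y : ℂ)) := fun {f} hf =>
    ⟨Complex.measurable_ofReal.comp hf.1, by simpa using hf.2⟩
  have hint : IntegrableOn (fun y => ((∑ i, g i y * conj ((h i y : ℝ) : ℂ)) -
      (k : ℂ) ^ 2 * (v y * conj ((φ y : ℝ) : ℂ)))) U := by
    refine Integrable.sub (integrable_finsetSum _ fun i _ => (hg i).mul (cx (hh i)).conj) ?_
    exact (hv.mul (cx hφ).conj).const_mul _
  unfold form rform
  rw [← pt_integral hint]
  congr 1
  ext y
  simp only [Complex.conj_ofReal]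
  rw [map_sub, map_sum]
  congr 1
  · exact Finset.sum_congr rfl fun i _ => pt_mul_real c _ _
  · have : (k : ℂ) ^ 2 * (v y * (φ y : ℂ)) = v y * ((k ^ 2 * φ y : ℝ) : ℂ) := by push_cast; ring
    rw [this, pt_mul_real]
    ring

/-- parts of a solution -/
theorem Solves.part {U V : Set E3} {k : ℝ} {v : E3 → ℂ} {g : Fin 3 → E3 → ℂ} (hv : SI V v)
    (hg : ∀ i, SI V (g i)) (h : ∀ φ, IsTest U φ → form V k v g φ (grad φ) = 0) (c : Bool) :
    ∀ φ, RTest U φ → rform V k (fun y => pt c (v y)) (fun i y => pt c (g i y)) φ (rgrad φ) = 0 := by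
  intro φ hφ
  rw [← form_real hv hg hφ.si (fun i => hφ.sig i)]
  have h1 := h _ hφ.cx
  have h2 : (fun i y => ((rgrad φ i y : ℝ) : ℂ)) = grad (fun y => (φ y : ℂ)) := by
    ext i y
    exact (grad_cx hφ.smooth i y).symm
  rw [h2, h1, map_zero]

/-- parts of a function vanishing on the outer boundary -/
theorem VanishesOuter.part {Ω D : Set E3} {w : E3 → ℂ} {h : Fin 3 → E3 → ℂ}
    (hw : SI (Ω \ closure D) w) (hh : ∀ i, SI (Ω \ closure D) (h i))
    (H : VanishesOuter Ω D w h) (c : Bool) :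
    RVan Ω D (fun y => pt c (w y)) (fun i y => pt c (h i y)) := by
  obtain ⟨φ, hφ, h0, h1⟩ := H
  have si_sub : ∀ {f g : E3 → ℂ}, SI (Ω \ closure D) f → SI (Ω \ closure D) g →
      SI (Ω \ closure D) (fun y => f y - g y) := by
    intro f g hf hg
    refine ⟨hf.1.sub hg.1, Integrable.mono' ((hf.2.const_mul 2).add (hg.2.const_mul 2))
      ((hf.1.sub hg.1).norm.pow_const 2).aestronglyMeasurable ?_⟩
    filter_upwards with y
    simp only [Pi.add_apply]
    rw [Real.norm_eq_abs, abs_of_nonneg (sq_nonneg _)]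
    have := norm_sub_le (f y) (g y)
    nlinarith [sq_nonneg (‖f y‖ - ‖g y‖), norm_nonneg (f y), norm_nonneg (g y),
      norm_nonneg (f y - g y)]
  have key : ∀ {f g : E3 → ℂ}, SI (Ω \ closure D) f → SI (Ω \ closure D) g →
      ∫ y in Ω \ closure D, (pt c (f y) - pt c (g y)) ^ 2 ≤
        ∫ y in Ω \ closure D, ‖f y - g y‖ ^ 2 := by
    intro f g hf hg
    refine integral_mono_of_nonneg (by filter_upwards with y using sq_nonneg _)
      (si_sub hf hg).2 (by
        filter_upwards with y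
        rw [← map_sub]
        exact pt_sq_le c _)
  refine ⟨fun n y => pt c (φ n y), fun n => (hφ n).part c, ?_, ?_⟩
  · refine squeeze_zero (fun n => integral_nonneg fun y => sq_nonneg _) (fun n => ?_) h0
    exact key (hφ n).si hw
  · intro i
    refine squeeze_zero (fun n => integral_nonneg fun y => sq_nonneg _) (fun n => ?_) (h1 i)
    have e : ∀ y, rgrad (fun y => pt c (φ n y)) i y = pt c (grad (φ n) i y) := fun y =>
      rgrad_part (hφ n).smooth c i y
    have h2 := key ((hφ n).sig (V := Ω \ closure D) i) (hh i)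
    simpa only [e] using h2

/-- real `H¹` functions as complex ones -/
theorem RH.cx {U : Set E3} {w : E3 → ℝ} {h : Fin 3 → E3 → ℝ} (H : RH U w h) :
    InH1 U (fun y => (w y : ℂ)) (fun i y => (h i y : ℂ)) := by
  refine ⟨Complex.measurable_ofReal.comp H.meas, fun i => Complex.measurable_ofReal.comp
    (H.meas_grad i), by simpa using H.sq, fun i => by simpa using H.sq_grad i, ?_⟩
  have cx : ∀ {f : E3 → ℝ}, SR U f → SI U (fun y => (f y : ℂ)) := fun {f} hf =>
    ⟨Complex.measurable_ofReal.comp hf.1, by simpa using hf.2⟩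
  intro i φ hφ
  have key : ∀ c, pt c (∫ y in U, (w y : ℂ) * grad φ i y) =
      pt c (- ∫ y in U, (h i y : ℂ) * φ y) := by
    intro c
    have h1 := H.weak i _ (hφ.part c)
    rw [map_neg, ← pt_integral ((cx H.si).mul (hφ.sig i)), ← pt_integral ((cx (H.sig i)).mul hφ.si)]
    have e : ∀ y, fderiv ℝ (fun y => pt c (φ y)) y (ee i) = pt c (grad φ i y) := fun y =>
      rgrad_part hφ.smooth c i y
    simp only [e] at h1
    have e2 : ∀ (r : ℝ) (z : ℂ), pt c ((r : ℂ) * z) = r * pt c z := by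
      intro r z; rw [mul_comm, pt_mul_real, mul_comm]
    simp only [e2]
    exact h1
  apply Complex.ext
  · simpa using key false
  · simpa using key true

/-- the real form of the eigenvalue hypothesis -/
theorem NotEigenvalue.real {Ω D : Set E3} {k : ℝ} (H : NotEigenvalue Ω D k) : RNotEig Ω D k := by
  intro w h hw hv hn
  have cx : ∀ {f : E3 → ℝ}, SR (Ω \ closure D) f → SI (Ω \ closure D) (fun y => (f y : ℂ)) :=
    fun {f} hf => ⟨Complex.measurable_ofReal.comp hf.1, by simpa using hf.2⟩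
  have h1 := H _ _ hw.cx ?_ ?_
  · filter_upwards [h1] with y hy
    simpa using hy
  · obtain ⟨φ, hφ, h0, h1⟩ := hv
    refine ⟨fun n y => (φ n y : ℂ), fun n => (hφ n).cx, ?_, fun i => ?_⟩
    · refine h0.congr fun n => ?_
      congr 1; ext y
      rw [← Complex.ofReal_sub, Complex.norm_real, Real.norm_eq_abs, sq_abs]
    · refine (h1 i).congr fun n => ?_
      congr 1; ext y
      have e := grad_cx (hφ n).smooth i y
      rw [e, ← Complex.ofReal_sub, Complex.norm_real, Real.norm_eq_abs, sq_abs]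
  · intro φ hφ
    have key : ∀ c, (∫ y in Ω \ closure D, ((∑ i, h i y * pt c (grad φ i y)) -
        k ^ 2 * (w y * pt c (φ y)))) = 0 := by
      intro c
      have h2 := hn _ (hφ.part c)
      unfold rform at h2
      have e : ∀ i y, rgrad (fun y => pt c (φ y)) i y = pt c (grad φ i y) := fun i y =>
        rgrad_part hφ.smooth c i y
      simpa only [e] using h2
    have hint : IntegrableOn (fun y => ((∑ i, (h i y : ℂ) * conj (grad φ i y)) -
        (k : ℂ) ^ 2 * ((w y : ℂ) * conj (φ y)))) (Ω \ closure D) := by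
      refine Integrable.sub (integrable_finsetSum _ fun i _ =>
        (cx (hw.sig i)).mul (hφ.sig i).conj) ?_
      exact ((cx hw.si).mul (hφ.si).conj).const_mul _
    unfold form
    apply Complex.ext
    · have h3 := pt_integral hint false
      simp only [pt_false] at h3
      rw [← h3, Complex.zero_re, ← key false]
      congr 1; ext y
      simp [← Complex.ofReal_pow]
    · have h3 := pt_integral hint true
      simp only [pt_true] at h3
      rw [← h3, Complex.zero_im, ← neg_zero, ← key true, ← integral_neg]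
      congr 1; ext y
      simp [← Complex.ofReal_pow, Finset.sum_neg_distrib]
      ring

end Pool.Agent.P8H23.PM
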