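import Mathlib

/-!
# The probe method for the Helmholtz equation: definitions
-/

set_option autoImplicit false

open MeasureTheory Filter Topology Set
open scoped ContDiff ComplexConjugate ENNReal

namespace Pool.Agent.P8H23.PM

/-- three-dimensional Euclidean space -/
abbrev E3 := EuclideanSpace ℝ (Fin 3)

/-- the standard unit vectors -/
noncomputable def ee (i : Fin 3) : E3 := EuclideanSpace.single i 1

/-- `D` has smooth boundary (`D` open): near every boundary point `D` is `{ρ < 0}` with `ρ` smooth,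
`dρ ≠ 0` -/
def SmoothBoundary (D : Set E3) : Prop :=
  ∀ z ∈ frontier D, ∃ r > 0, ∃ ρ : E3 → ℝ, ContDiff ℝ ∞ ρ ∧ fderiv ℝ ρ z ≠ 0 ∧
    ∀ y ∈ Metric.ball z r, (y ∈ D ↔ ρ y < 0)

/-- the finite cone with vertex `z`, axis `a`, radius `ρ` and opening `π α` -/
def finiteCone (z a : E3) (ρ α : ℝ) : Set E3 :=
  Metric.ball z ρ ∩ interior {y | ‖y - z‖ * Real.cos (Real.pi * α / 2) ≤ inner ℝ (y - z) a}

/-- needles: injective piecewise linear curves in `Ω` from a boundary point to `x` -/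
structure Needle (Ω : Set E3) (x : E3) (σ : ℝ → E3) : Prop where
  inj : InjOn σ (Icc 0 1)
  piecewiseLinear : ∃ (m : ℕ) (t : ℕ → ℝ), t 0 = 0 ∧ t m = 1 ∧ ∀ j < m, t j ≤ t (j + 1) ∧
    ∃ a b : E3, ∀ s ∈ Icc (t j) (t (j + 1)), σ s = a + s • b
  start : σ 0 ∈ frontier Ω
  finish : σ 1 = x
  inside : ∀ s ∈ Ioo (0:ℝ) 1, σ s ∈ Ω

/-! ### Real-valued versions, used in the proof -/

/-- real test functions -/
structure RTest (U : Set E3) (φ : E3 → ℝ) : Prop where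
  smooth : ContDiff ℝ ∞ φ
  cpt : HasCompactSupport φ
  sub : tsupport φ ⊆ U

/-- `f ∈ H¹(U)` with weak gradient `g` -/
structure RH (U : Set E3) (f : E3 → ℝ) (g : Fin 3 → E3 → ℝ) : Prop where
  meas : Measurable f
  meas_grad : ∀ i, Measurable (g i)
  sq : IntegrableOn (fun y => f y ^ 2) U
  sq_grad : ∀ i, IntegrableOn (fun y => g i y ^ 2) U
  weak : ∀ i φ, RTest U φ → ∫ y in U, f y * fderiv ℝ φ y (ee i) = - ∫ y in U, g i y * φ y

/-- `∫_U ∇v·∇u − k² v u` -/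
noncomputable def rform (U : Set E3) (k : ℝ) (v : E3 → ℝ) (g : Fin 3 → E3 → ℝ) (u : E3 → ℝ)
    (h : Fin 3 → E3 → ℝ) : ℝ :=
  ∫ y in U, ((∑ i, g i y * h i y) - k ^ 2 * (v y * u y))

/-- the gradient of a smooth function -/
noncomputable def rgrad (φ : E3 → ℝ) (i : Fin 3) (y : E3) : ℝ := fderiv ℝ φ y (ee i)

/-- weak solution of the Helmholtz equation in `U` -/
def RSolves (U : Set E3) (k : ℝ) (v : E3 → ℝ) (g : Fin 3 → E3 → ℝ) : Prop :=
  ∀ φ, RTest U φ → rform U k v g φ (rgrad φ) = 0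

/-- `w ∈ H¹(Ω ∖ D̄)` vanishes on `∂Ω` -/
def RVan (Ω D : Set E3) (w : E3 → ℝ) (h : Fin 3 → E3 → ℝ) : Prop :=
  ∃ φ : ℕ → E3 → ℝ, (∀ n, RTest Ω (φ n)) ∧
    Tendsto (fun n => ∫ y in Ω \ closure D, (φ n y - w y) ^ 2) atTop (𝓝 0) ∧
    ∀ i, Tendsto (fun n => ∫ y in Ω \ closure D, (rgrad (φ n) i y - h i y) ^ 2) atTop (𝓝 0)

/-- weak solution of the homogeneous Helmholtz equation in `Ω ∖ D̄` with Neumann condition on `∂D` -/
def RNeumann (Ω D : Set E3) (k : ℝ) (u : E3 → ℝ) (gu : Fin 3 → E3 → ℝ) : Prop :=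
  ∀ φ, RTest Ω φ → rform (Ω \ closure D) k u gu φ (rgrad φ) = 0

/-- `k²` is not a mixed eigenvalue -/
def RNotEig (Ω D : Set E3) (k : ℝ) : Prop :=
  ∀ (w : E3 → ℝ) (h : Fin 3 → E3 → ℝ), RH (Ω \ closure D) w h → RVan Ω D w h →
    RNeumann Ω D k w h → ∀ᵐ y ∂(volume.restrict (Ω \ closure D)), w y = 0

/-- sets of admissible shifts: starlike and of positive measure in every ball around the origin -/
structure Shifts (C : Set E3) : Prop where
  scale : ∀ h ∈ C, ∀ s : ℝ, 0 < s → s ≤ 1 → s • h ∈ C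
  pos : ∀ ε > 0, 0 < volume (C ∩ Metric.ball 0 ε)

end Pool.Agent.P8H23.PM
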