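import Pool.Agent.P8H23.PM.Loc

set_option autoImplicit false

open MeasureTheory Filter Topology Set
open scoped ContDiff ENNReal Manifold
open Pool.Agent.Helper985.VR

namespace Pool.Agent.P8H23.PM

theorem enorm_sq (z : ℂ) : ‖z‖ₑ ^ 2 = ENNReal.ofReal (‖z‖ ^ 2) := by
  rw [← ofReal_norm, ENNReal.ofReal_pow (norm_nonneg _)]

/-- energy bounds pass to limits away from a compact null set -/
theorem lemmaF {V S : Set E3} (hV : IsOpen V) (hVb : Bornology.IsBounded V) (hS : IsCompact S)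
    (hS0 : volume S = 0) {a : ℕ → E3 → ℂ} {b : E3 → ℂ} {M : ℝ} (ha : ∀ n, SI V (a n))
    (hM : ∀ n, ∫ y in V, ‖a n y‖ ^ 2 ≤ M)
    (hb : ∀ K, IsCompact K → K ⊆ V \ S → ContinuousOn b K)
    (hconv : ∀ K, IsCompact K → K ⊆ V \ S →
      Tendsto (fun n => ∫ y in K, ‖a n y - b y‖ ^ 2) atTop (𝓝 0)) :
    ∫⁻ y in V, ‖b y‖ₑ ^ 2 ≤ ENNReal.ofReal (2 * M) := by
  have key : ∀ K, IsCompact K → K ⊆ V \ S → ∫⁻ y in K, ‖b y‖ₑ ^ 2 ≤ ENNReal.ofReal (2 * M) := by
    intro K hK hKV
    have hKm : MeasurableSet K := hK.isClosed.measurableSet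
    have hbK : ContinuousOn b K := hb K hK hKV
    have ib : IntegrableOn (fun y => ‖b y‖ ^ 2) K :=
      (hbK.norm.pow 2).integrableOn_compact hK
    have ia : ∀ n, IntegrableOn (fun y => ‖a n y‖ ^ 2) K := fun n =>
      (ha n).2.mono_set (hKV.trans sdiff_subset)
    have iab : ∀ n, IntegrableOn (fun y => ‖a n y - b y‖ ^ 2) K := by
      intro n
      refine Integrable.mono' (((ia n).const_mul 2).add (ib.const_mul 2)) ?_ ?_
      · exact ((ha n).1.aestronglyMeasurable.restrict.sub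
          (hbK.aestronglyMeasurable hKm)).norm.pow 2
      · filter_upwards with y
        simp only [Pi.add_apply]
        rw [Real.norm_eq_abs, abs_of_nonneg (sq_nonneg _)]
        have := norm_sub_le (a n y) (b y)
        nlinarith [sq_nonneg (‖a n y‖ - ‖b y‖), norm_nonneg (a n y), norm_nonneg (b y),
          norm_nonneg (a n y - b y)]
    have h1 : ∀ n, ∫ y in K, ‖b y‖ ^ 2 ≤ 2 * M + 2 * ∫ y in K, ‖a n y - b y‖ ^ 2 := by
      intro n
      have h2 : ∫ y in K, ‖b y‖ ^ 2 ≤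
          ∫ y in K, (2 * ‖a n y‖ ^ 2 + 2 * ‖a n y - b y‖ ^ 2) := by
        refine setIntegral_mono_on ib (((ia n).const_mul 2).add ((iab n).const_mul 2)) hKm ?_
        intro y _
        have : ‖b y‖ ≤ ‖a n y‖ + ‖a n y - b y‖ := by
          calc ‖b y‖ = ‖a n y - (a n y - b y)‖ := by congr 1; ring
            _ ≤ _ := norm_sub_le _ _
        nlinarith [sq_nonneg (‖a n y‖ - ‖a n y - b y‖), norm_nonneg (a n y), norm_nonneg (b y),
          norm_nonneg (a n y - b y)]
      rw [integral_add ((ia n).const_mul 2) ((iab n).const_mul 2), integral_const_mul,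
        integral_const_mul] at h2
      have h3 : ∫ y in K, ‖a n y‖ ^ 2 ≤ ∫ y in V, ‖a n y‖ ^ 2 :=
        setIntegral_mono_set (ha n).2 (by filter_upwards with y using sq_nonneg _)
          (hKV.trans sdiff_subset).eventuallyLE
      linarith [hM n]
    have h4 : ∫ y in K, ‖b y‖ ^ 2 ≤ 2 * M := by
      have := ((hconv K hK hKV).const_mul 2).const_add (2 * M)
      rw [mul_zero, add_zero] at this
      exact ge_of_tendsto' this h1
    simp_rw [enorm_sq]
    rw [← ofReal_integral_eq_lintegral_ofReal ib (by filter_upwards with y using sq_nonneg _)]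
    exact ENNReal.ofReal_le_ofReal h4
  have hop : IsOpen (V \ S) := hV.sdiff hS.isClosed
  obtain ⟨F, hF, hFsub, hFun, hFmono⟩ := hop.exists_iUnion_isClosed
  have h1 : ∫⁻ y in V, ‖b y‖ₑ ^ 2 = ∫⁻ y in V \ S, ‖b y‖ₑ ^ 2 :=
    setLIntegral_congr (sdiff_null_ae_eq_self hS0).symm
  rw [h1, ← hFun, setLIntegral_iUnion_of_directed _ hFmono.directed_le]
  refine iSup_le fun n => key _ ?_ (hFsub n)
  exact Metric.isCompact_of_isClosed_isBounded (hF n)
    (hVb.subset ((hFsub n).trans sdiff_subset))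

end Pool.Agent.P8H23.PM
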