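import Pool.Agent.P8H23.PM.Blow

set_option autoImplicit false
set_option linter.unusedVariables false

open MeasureTheory Filter Topology Set
open scoped ContDiff ENNReal Manifold
open Pool.Agent.Helper985.VR

namespace Pool.Agent.P8H23.PM

/-- compactness of the mixed problem -/
def MixedCompact (Ω D : Set E3) (k : ℝ) : Prop :=
  ∀ (w : ℕ → E3 → ℝ) (h : ℕ → Fin 3 → E3 → ℝ), (∀ n, RH (Ω \ closure D) (w n) (h n)) →
    (∀ n, RVan Ω D (w n) (h n)) → (∀ n, ∫ y in Ω \ closure D, w n y ^ 2 ≤ 1) →
    (∀ n i, ∫ y in Ω \ closure D, h n i y ^ 2 ≤ 1) →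
    (∀ φ, RTest Ω φ →
      Tendsto (fun n => rform (Ω \ closure D) k (w n) (h n) φ (rgrad φ)) atTop (𝓝 0)) →
    Tendsto (fun n => ∫ y in Ω \ closure D, w n y ^ 2) atTop (𝓝 0)

theorem RH.mono {U V : Set E3} (hV : MeasurableSet V) (hU : MeasurableSet U) (h : V ⊆ U)
    {f : E3 → ℝ} {g : Fin 3 → E3 → ℝ} (hf : RH U f g) : RH V f g := by
  refine ⟨hf.meas, hf.meas_grad, hf.sq.mono_set h, fun i => (hf.sq_grad i).mono_set h, ?_⟩
  intro i φ hφ
  have h1 := hf.weak i φ ⟨hφ.smooth, hφ.cpt, hφ.sub.trans h⟩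
  have z0 : ∀ y, y ∉ V → φ y = 0 := fun y hy =>
    image_eq_zero_of_notMem_tsupport fun h => hy (hφ.sub h)
  have z1 : ∀ y, y ∉ V → fderiv ℝ φ y (ee i) = 0 := fun y hy =>
    rgrad_eq_zero (fun h => hy (hφ.sub h)) i
  rw [setIntegral_eq_of_subset_of_forall_sdiff_eq_zero hU h (fun y hy => by
    rw [z1 y hy.2, mul_zero]), setIntegral_eq_of_subset_of_forall_sdiff_eq_zero hU h (fun y hy => by
    rw [z0 y hy.2, mul_zero])] at h1
  exact h1

theorem RH.sub {U : Set E3} {f f' : E3 → ℝ} {g g' : Fin 3 → E3 → ℝ} (hf : RH U f g)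
    (hf' : RH U f' g') : RH U (fun y => f y - f' y) (fun i y => g i y - g' i y) := by
  refine ⟨hf.meas.sub hf'.meas, fun i => (hf.meas_grad i).sub (hf'.meas_grad i),
    (hf.si.sub hf'.si).2, fun i => ((hf.sig i).sub (hf'.sig i)).2, fun i φ hφ => ?_⟩
  have h1 := hf.weak i φ hφ
  have h2 := hf'.weak i φ hφ
  have s1 : SR U (fun y => fderiv ℝ φ y (ee i)) := hφ.sig i
  simp only [sub_mul]
  rw [integral_sub (hf.si.mul s1) (hf'.si.mul s1), integral_sub ((hf.sig i).mul hφ.si)
    ((hf'.sig i).mul hφ.si), h1, h2]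
  ring

/-- the normalised components -/
theorem ratio_tendsto {Ω D : Set E3} (hΩ : IsOpen Ω) (hD : IsOpen D) (hDs : SmoothBoundary D)
    (hDΩ : closure D ⊆ Ω) (hDc : IsCompact (closure D)) {k : ℝ} (hmix : MixedCompact Ω D k)
    {S : Set E3} (hS : IsCompact S) (hS0 : volume S = 0)
    (hSS : volume {y : E3 | ∃ p ∈ S, ∃ q ∈ S, y = p - q} = 0)
    {v u : ℕ → E3 → ℝ} {g gu : ℕ → Fin 3 → E3 → ℝ} (hv : ∀ n, RH Ω (v n) (g n))
    (hsol : ∀ n, RSolves Ω k (v n) (g n)) (hu : ∀ n, RH (Ω \ closure D) (u n) (gu n))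
    (hV : ∀ n, RVan Ω D (fun y => u n y - v n y) (fun i y => gu n i y - g n i y))
    (hN : ∀ n, RNeumann Ω D k (u n) (gu n)) {a : ℕ → ℝ} (ha : Tendsto a atTop atTop)
    (hle : ∀ n, en (closure D) (v n) (g n) +
      en (Ω \ closure D) (fun y => u n y - v n y) (fun i y => gu n i y - g n i y) ≤ a n)
    (off : ∀ K, IsCompact K → K ⊆ Ω \ S → ∃ M, (∀ n, ∫ y in K, v n y ^ 2 ≤ M) ∧
      ∀ n i, ∫ y in K, g n i y ^ 2 ≤ M) :
    Tendsto (fun n => (∫ y in closure D, v n y ^ 2) / a n) atTop (𝓝 0) ∧
    Tendsto (fun n => (∫ y in Ω \ closure D, (u n y - v n y) ^ 2) / a n) atTop (𝓝 0) := by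
  set U := Ω \ closure D with hU
  have hcl : MeasurableSet (closure D) := isClosed_closure.measurableSet
  have hUm : MeasurableSet U := hΩ.measurableSet.diff hcl
  -- the factors
  set c : ℕ → ℝ := fun n => (√(a n))⁻¹ with hc
  have ha0 : ∀ n, 0 ≤ a n := fun n =>
    (add_nonneg (en_nonneg _ _ _) (en_nonneg _ _ _)).trans (hle n)
  have hc2 : ∀ n, c n ^ 2 = (a n)⁻¹ := fun n => by
    rw [hc]; simp only [inv_pow]; rw [Real.sq_sqrt (ha0 n)]
  have hclim : Tendsto (fun n => (a n)⁻¹) atTop (𝓝 0) := tendsto_inv_atTop_zero.comp ha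
  have scale : ∀ (A : Set E3) (f : E3 → ℝ) n, ∫ y in A, (c n * f y) ^ 2 =
      (∫ y in A, f y ^ 2) / a n := by
    intro A f n
    rw [div_eq_inv_mul, ← hc2, ← integral_const_mul]
    congr 1; ext y; ring
  have small : ∀ n {t : ℝ}, t ≤ a n → t / a n ≤ 1 := by
    intro n t ht
    rcases (ha0 n).eq_or_lt with h0 | h0
    · rw [← h0, div_zero]; norm_num
    · rw [div_le_one h0]; exact ht
  have bdd0 : ∀ {q : ℕ → ℝ} {M : ℝ}, (∀ n, 0 ≤ q n) → (∀ n, q n ≤ M) →
      Tendsto (fun n => q n / a n) atTop (𝓝 0) := by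
    intro q M h0 hM
    have h1 : Tendsto (fun n => M * (a n)⁻¹) atTop (𝓝 0) := by
      have := hclim.const_mul M
      rwa [mul_zero] at this
    refine squeeze_zero (fun n => div_nonneg (h0 n) (ha0 n)) (fun n => ?_) h1
    rw [div_eq_mul_inv]
    exact mul_le_mul_of_nonneg_right (hM n) (inv_nonneg.2 (ha0 n))
  have hvD : ∀ n, ∫ y in closure D, v n y ^ 2 ≤ a n := fun n => by
    have := le_en_fun (closure D) (v n) (g n)
    have h2 := en_nonneg U (fun y => u n y - v n y) (fun i y => gu n i y - g n i y)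
    have h3 := hle n
    linarith
  have hgD : ∀ n i, ∫ y in closure D, g n i y ^ 2 ≤ a n := fun n i => by
    have := le_en_grad (closure D) (v n) (g n) i
    have h2 := en_nonneg U (fun y => u n y - v n y) (fun i y => gu n i y - g n i y)
    have h3 := hle n
    linarith
  have hwU : ∀ n, ∫ y in U, (u n y - v n y) ^ 2 ≤ a n := fun n => by
    have := le_en_fun U (fun y => u n y - v n y) (fun i y => gu n i y - g n i y)
    have h2 := en_nonneg (closure D) (v n) (g n)
    have h3 := hle n
    linarith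
  have hhU : ∀ n i, ∫ y in U, (gu n i y - g n i y) ^ 2 ≤ a n := fun n i => by
    have := le_en_grad U (fun y => u n y - v n y) (fun i y => gu n i y - g n i y) i
    have h2 := en_nonneg (closure D) (v n) (g n)
    have h3 := hle n
    linarith
  -- first claim
  have A1 : Tendsto (fun n => ∫ y in closure D, (c n * v n y) ^ 2) atTop (𝓝 0) := by
    refine lemmaA hΩ hDΩ hDc ?_ hS hSS (fun n => (hv n).smul (c n)) ?_ ?_
    · intro z hz
      obtain ⟨r, hr, C, hC, h⟩ := int_cone hD hDs hz
      exact ⟨r, hr, C, hC, fun y hy h' hh' => subset_closure (h y hy h' hh')⟩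
    · intro n i
      rw [scale]
      exact small n (hgD n i)
    · intro K hK hKs
      obtain ⟨M, hM, -⟩ := off K hK hKs
      simp_rw [scale]
      exact bdd0 (fun n => integral_nonneg fun y => sq_nonneg _) hM
  have A2 : ∀ i (ψ : E3 → ℝ), Continuous ψ →
      Tendsto (fun n => ∫ y in closure D, (c n * g n i y) * ψ y) atTop (𝓝 0) := by
    intro i ψ hψ
    refine weak_zero_off hDc hS hS0 (fun n => ?_) (fun n => ?_) ?_ hψ
    · exact (((hv n).sig i).mono hDΩ).const_mul _
    · rw [scale]; exact small n (hgD n i)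
    · intro K hK hKs
      obtain ⟨M, -, hM⟩ := off K hK (hKs.trans (sdiff_subset_sdiff_left hDΩ))
      simp_rw [scale]
      exact bdd0 (fun n => integral_nonneg fun y => sq_nonneg _) (fun n => hM n i)
  have A3 : ∀ (ψ : E3 → ℝ), Continuous ψ →
      Tendsto (fun n => ∫ y in closure D, (c n * v n y) * ψ y) atTop (𝓝 0) := by
    intro ψ hψ
    refine weak_zero_off hDc hS hS0 (fun n => ?_) (fun n => ?_) ?_ hψ
    · exact ((hv n).si.mono hDΩ).const_mul _
    · rw [scale]; exact small n (hvD n)
    · intro K hK hKs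
      obtain ⟨M, hM, -⟩ := off K hK (hKs.trans (sdiff_subset_sdiff_left hDΩ))
      simp_rw [scale]
      exact bdd0 (fun n => integral_nonneg fun y => sq_nonneg _) hM
  -- second claim
  have hvU : ∀ n, RH U (v n) (g n) := fun n => (hv n).mono hUm hΩ.measurableSet sdiff_subset
  have B1 : Tendsto (fun n => ∫ y in U, (c n * (u n y - v n y)) ^ 2) atTop (𝓝 0) := by
    refine hmix (fun n y => c n * (u n y - v n y)) (fun n i y => c n * (gu n i y - g n i y))
      (fun n => ((hu n).sub (hvU n)).smul (c n)) (fun n => (hV n).smul (c n)) (fun n => ?_)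
      (fun n i => ?_) ?_
    · rw [scale]; exact small n (hwU n)
    · rw [scale]; exact small n (hhU n i)
    · intro φ hφ
      have e : ∀ n, rform U k (fun y => c n * (u n y - v n y))
          (fun i y => c n * (gu n i y - g n i y)) φ (rgrad φ) =
          (∑ i, ∫ y in closure D, (c n * g n i y) * rgrad φ i y) -
            k ^ 2 * ∫ y in closure D, (c n * v n y) * φ y := by
        intro n
        have sv := hv n
        have s1 : rform U k (fun y => u n y - v n y) (fun i y => gu n i y - g n i y) φ (rgrad φ) =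
            rform (closure D) k (v n) (g n) φ (rgrad φ) := by
          have e1 : rform U k (fun y => u n y - v n y) (fun i y => gu n i y - g n i y) φ (rgrad φ) =
              rform U k (u n) (gu n) φ (rgrad φ) - rform U k (v n) (g n) φ (rgrad φ) := by
            rw [rform_comm, rform_sub_right hφ.si (fun i => hφ.sig i) (hu n).si (hu n).sig
              (hvU n).si (hvU n).sig, rform_comm, rform_comm (v := φ) (u := v n)]
          have e2 := hN n φ hφ
          have e3 := hsol n φ hφ
          have e4 : rform Ω k (v n) (g n) φ (rgrad φ) =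
              rform (closure D) k (v n) (g n) φ (rgrad φ) +
                rform U k (v n) (g n) φ (rgrad φ) := by
            unfold rform
            have hint : IntegrableOn (fun y => ((∑ i, g n i y * rgrad φ i y) -
                k ^ 2 * (v n y * φ y))) Ω :=
              (integrable_finsetSum _ fun i _ => (sv.sig i).mul (hφ.sig i)).sub
                ((sv.si.mul hφ.si).const_mul _)
            have hun : Ω = closure D ∪ U := by rw [hU, union_sdiff_cancel hDΩ]
            conv_lhs => rw [hun]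
            exact setIntegral_union disjoint_sdiff_right hUm (hint.mono_set hDΩ)
              (hint.mono_set sdiff_subset)
          rw [e1, e2]
          linarith
        have s2 : rform U k (fun y => c n * (u n y - v n y))
            (fun i y => c n * (gu n i y - g n i y)) φ (rgrad φ) =
            c n * rform U k (fun y => u n y - v n y) (fun i y => gu n i y - g n i y) φ (rgrad φ) := by
          unfold rform
          rw [← integral_const_mul]
          congr 1; ext y
          rw [mul_sub, Finset.mul_sum]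
          congr 1
          · exact Finset.sum_congr rfl fun i _ => by ring
          · ring
        rw [s2, s1, rform_expand (sv.si.mono hDΩ) (fun i => (sv.sig i).mono hDΩ) hφ.si
          (fun i => hφ.sig i), mul_sub, Finset.mul_sum]
        congr 1
        · refine Finset.sum_congr rfl fun i _ => ?_
          rw [← integral_const_mul]
          congr 1; ext y; ring
        · rw [← mul_assoc, mul_comm (c n) (k ^ 2), mul_assoc, ← integral_const_mul]
          congr 2; ext y; ring
      refine Tendsto.congr (fun n => (e n).symm) ?_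
      have t1 : Tendsto (fun n => ∑ i, ∫ y in closure D, (c n * g n i y) * rgrad φ i y) atTop
          (𝓝 (∑ _i : Fin 3, (0:ℝ))) :=
        tendsto_finsetSum _ fun i _ => A2 i _ (rgrad_cont hφ.smooth i)
      have t2 := (A3 φ hφ.smooth.continuous).const_mul (k ^ 2)
      have := t1.sub t2
      simpa using this
  constructor
  · refine A1.congr fun n => ?_
    exact scale (closure D) (v n) n
  · refine B1.congr fun n => ?_
    exact scale U (fun y => u n y - v n y) n

/-- **Blow-up of the indicator.** -/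
theorem blowup {Ω D : Set E3} (hΩ : IsOpen Ω) (hΩb : Bornology.IsBounded Ω) (hD : IsOpen D)
    (hDs : SmoothBoundary D) (hDΩ : closure D ⊆ Ω) {k : ℝ} (hmix : MixedCompact Ω D k)
    {G : E3 → ℂ} (hG : SingularSolution k G) {x : E3} (hx : x ∈ Ω)
    {σ : ℝ → E3} (hσ : Needle Ω x σ)
    (hcase : x ∈ closure D ∨ (σ '' Icc 0 1 ∩ D).Nonempty)
    {v : ℕ → E3 → ℂ} {g : ℕ → Fin 3 → E3 → ℂ} (hv : NeedleSequence Ω k G x σ v g)
    {u : ℕ → E3 → ℂ} {gu : ℕ → Fin 3 → E3 → ℂ}
    (hu : ∀ n, Reflected Ω D k (v n) (g n) (u n) (gu n)) :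
    (∀ n, (indicatorValue Ω D k (v n) (g n) (u n) (gu n)).im = 0) ∧
    Tendsto (fun n => (indicatorValue Ω D k (v n) (g n) (u n) (gu n)).re) atTop atTop := by
  have hDc : IsCompact (closure D) :=
    Metric.isCompact_of_isClosed_isBounded isClosed_closure (hΩb.subset hDΩ)
  have hS : IsCompact (σ '' Icc 0 1) := isCompact_Icc.image_of_continuousOn hσ.continuousOn
  have hxS : x ∈ σ '' Icc 0 1 := ⟨1, by simp, hσ.finish⟩
  set U := Ω \ closure D with hU
  have hspl := fun n => indicator_split hDΩ hΩ.measurableSet (hv.inH1 n) (hu n)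
  refine ⟨fun n => (hspl n).1, ?_⟩
  simp_rw [fun n => (hspl n).2]
  set a : ℕ → ℝ := fun n => tot Ω D (v n) (g n) (u n) (gu n) with ha
  have hat : Tendsto a atTop atTop := tot_tendsto hΩ hD hDs hDΩ hG hx hσ hcase hv u gu
  have si_sub : ∀ {f g : E3 → ℂ}, SI U f → SI U g → SI U (fun y => f y - g y) := by
    intro f g hf hg
    refine ⟨hf.1.sub hg.1, Integrable.mono' ((hf.2.const_mul 2).add (hg.2.const_mul 2))
      ((hf.1.sub hg.1).norm.pow_const 2).aestronglyMeasurable ?_⟩
    filter_upwards with y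
    simp only [Pi.add_apply]
    rw [Real.norm_eq_abs, abs_of_nonneg (sq_nonneg _)]
    have := norm_sub_le (f y) (g y)
    nlinarith [sq_nonneg (‖f y‖ - ‖g y‖), norm_nonneg (f y), norm_nonneg (g y),
      norm_nonneg (f y - g y)]
  have hrat : ∀ c, _ := fun c => ratio_tendsto (k := k) hΩ hD hDs hDΩ hDc hmix hS hσ.null
    hσ.null_sub (v := fun n y => pt c (v n y)) (u := fun n y => pt c (u n y))
    (g := fun n i y => pt c (g n i y)) (gu := fun n i y => pt c (gu n i y))
    (fun n => (hv.inH1 n).part c)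
    (fun n => Solves.part (hv.inH1 n).si (hv.inH1 n).sig (hv.solves n) c)
    (fun n => (hu n).inH1.part c)
    (fun n => by
      have hvU : SI U (v n) := (hv.inH1 n).si.mono sdiff_subset
      have hgU : ∀ i, SI U (g n i) := fun i => ((hv.inH1 n).sig i).mono sdiff_subset
      have := VanishesOuter.part (si_sub (hu n).inH1.si hvU)
        (fun i => si_sub ((hu n).inH1.sig i) (hgU i)) (hu n).boundary c
      simpa only [map_sub] using this)
    (fun n => Solves.part (hu n).inH1.si (hu n).inH1.sig (hu n).solves c) hat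
    (fun n => en_le_tot Ω D (v n) (g n) (u n) (gu n) c)
    (fun K hK hKs => by
      obtain ⟨M, h1, h2⟩ := bdd_off hG hxS hv hK hKs
      exact ⟨M, fun n => (part_le ((hv.inH1 n).si.mono (hKs.trans sdiff_subset)) c).trans (h1 n),
        fun n i => (part_le (((hv.inH1 n).sig i).mono (hKs.trans sdiff_subset)) c).trans (h2 n i)⟩)
  -- the energy expression
  set b : ℕ → ℝ := fun n => ∑ c, ((∫ y in closure D, pt c (v n y) ^ 2) / a n +
    (∫ y in U, (pt c (u n y) - pt c (v n y)) ^ 2) / a n) with hb
  have hb0 : Tendsto b atTop (𝓝 0) := by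
    have := tendsto_finsetSum (Finset.univ : Finset Bool) fun c _ =>
      ((hrat c).1.add (hrat c).2)
    rw [show (∑ _c : Bool, ((0:ℝ) + 0)) = 0 by simp] at this
    exact this
  have hlim : Tendsto (fun n => a n * (1 - (k ^ 2 + 1) * b n)) atTop atTop := by
    have h1 : Tendsto (fun n => 1 - (k ^ 2 + 1) * b n) atTop (𝓝 1) := by
      have := (hb0.const_mul (k ^ 2 + 1)).const_sub 1
      simpa using this
    exact hat.atTop_mul_pos one_pos h1
  refine hlim.congr' ?_
  filter_upwards [hat.eventually_gt_atTop 0] with n hn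
  have hvU : ∀ c, SR U (fun y => pt c (v n y)) := fun c =>
    ((hv.inH1 n).si.mono sdiff_subset).part c
  have hgU : ∀ c i, SR U (fun y => pt c (g n i y)) := fun c i =>
    (((hv.inH1 n).sig i).mono sdiff_subset).part c
  have e1 : ∀ c, rI Ω D k (fun y => pt c (v n y)) (fun i y => pt c (g n i y))
      (fun y => pt c (u n y)) (fun i y => pt c (gu n i y)) =
      (en (closure D) (fun y => pt c (v n y)) (fun i y => pt c (g n i y)) +
        en U (fun y => pt c (u n y) - pt c (v n y)) (fun i y => pt c (gu n i y) - pt c (g n i y))) -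
      (k ^ 2 + 1) * ((∫ y in closure D, pt c (v n y) ^ 2) +
        ∫ y in U, (pt c (u n y) - pt c (v n y)) ^ 2) := by
    intro c
    unfold rI
    rw [rform_self (((hv.inH1 n).si.mono hDΩ).part c)
      (fun i => (((hv.inH1 n).sig i).mono hDΩ).part c),
      rform_self (((hu n).inH1.si.part c).sub (hvU c))
      (fun i => (((hu n).inH1.sig i).part c).sub (hgU c i))]
    ring
  simp_rw [e1]
  rw [Finset.sum_sub_distrib, ← Finset.mul_sum]
  have e2 : ∑ c, (en (closure D) (fun y => pt c (v n y)) (fun i y => pt c (g n i y)) +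
        en U (fun y => pt c (u n y) - pt c (v n y))
          (fun i y => pt c (gu n i y) - pt c (g n i y))) = a n := rfl
  rw [e2]
  have e3 : a n * b n = ∑ c, ((∫ y in closure D, pt c (v n y) ^ 2) +
        ∫ y in U, (pt c (u n y) - pt c (v n y)) ^ 2) := by
    rw [hb]
    simp only
    rw [Finset.mul_sum]
    refine Finset.sum_congr rfl fun c _ => ?_
    rw [← add_div, mul_div_cancel₀ _ hn.ne']
  rw [← e3]
  ring

end Pool.Agent.P8H23.PM
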