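import Pool.Agent.P8H23.PM.Defs

set_option autoImplicit false

open MeasureTheory Filter Topology Set
open scoped ContDiff ENNReal

namespace Pool.Agent.P8H23.PM

/-- an open cone around the axis `e` -/
def coneSet (e : E3) (c t0 : ℝ) : Set E3 := {h | ∃ t, 0 < t ∧ t < t0 ∧ ‖h - t • e‖ < c * t}

theorem coneSet_norm {e : E3} {c t0 : ℝ} {h : E3} {t : ℝ} (ht : 0 < t) (hh : ‖h - t • e‖ < c * t) :
    ‖h‖ ≤ t * (‖e‖ + c) := by
  calc ‖h‖ = ‖(h - t • e) + t • e‖ := by rw [sub_add_cancel]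
    _ ≤ ‖h - t • e‖ + ‖t • e‖ := norm_add_le _ _
    _ ≤ c * t + t * ‖e‖ := by
      rw [norm_smul, Real.norm_eq_abs, abs_of_pos ht]
      linarith
    _ = _ := by ring

theorem coneSet_shifts {e : E3} {c t0 : ℝ} (hc : 0 < c) (ht0 : 0 < t0) :
    Shifts (coneSet e c t0) := by
  refine ⟨?_, ?_⟩
  · rintro h ⟨t, ht, ht2, hh⟩ s hs hs1
    refine ⟨s * t, mul_pos hs ht, ?_, ?_⟩
    · calc s * t ≤ 1 * t := mul_le_mul_of_nonneg_right hs1 ht.le
        _ < t0 := by rwa [one_mul]
    · rw [mul_smul, ← smul_sub, norm_smul, Real.norm_eq_abs, abs_of_pos hs]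
      nlinarith
  · intro ε hε
    set N := ‖e‖ + c with hN
    have hN0 : 0 < N := by positivity
    set t := min (t0 / 2) (ε / (2 * N)) with ht
    have ht1 : 0 < t := by positivity
    have ht2 : t < t0 := (min_le_left _ _).trans_lt (by linarith)
    have ht3 : t * N < ε := by
      have h1 : t ≤ ε / (2 * N) := min_le_right _ _
      have h2 : t * (2 * N) ≤ ε := by rwa [le_div_iff₀ (by positivity)] at h1
      nlinarith
    refine lt_of_lt_of_le (Metric.measure_ball_pos volume (t • e) (show 0 < c * t by positivity))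
      (measure_mono ?_)
    intro h hh
    rw [Metric.mem_ball, dist_eq_norm] at hh
    refine ⟨⟨t, ht1, ht2, hh⟩, ?_⟩
    rw [mem_ball_zero_iff]
    exact (coneSet_norm (t0 := t0) ht1 hh).trans_lt ht3

theorem slope {D : Set E3} (hs : SmoothBoundary D) {z : E3} (hz : z ∈ frontier D) :
    ∃ R > 0, ∃ ρ : E3 → ℝ, Continuous ρ ∧ (∀ y ∈ Metric.ball z R, (y ∈ D ↔ ρ y < 0)) ∧
      ∃ (e : E3) (c t0 : ℝ), e ≠ 0 ∧ 0 < c ∧ 0 < t0 ∧ (∀ h ∈ coneSet e c t0, ‖h‖ < R / 2) ∧
        ∀ a ∈ Metric.ball z R, ∀ h ∈ coneSet e c t0, a + h ∈ Metric.ball z R → ρ (a + h) < ρ a := by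
  obtain ⟨r0, hr0, ρ, hρ, hne, hD⟩ := hs z hz
  set L := fderiv ℝ ρ z with hL
  obtain ⟨e, he⟩ : ∃ e, L e = -1 := by
    obtain ⟨u, hu⟩ : ∃ u, L u ≠ 0 := by
      by_contra h
      push Not at h
      exact hne (ContinuousLinearMap.ext h)
    refine ⟨(-(L u)⁻¹) • u, ?_⟩
    rw [map_smul, smul_eq_mul]
    field_simp
  have he0 : e ≠ 0 := by
    rintro rfl
    rw [map_zero] at he
    norm_num at he
  set c := 1 / (4 * (‖L‖ + 1)) with hc
  have hc0 : 0 < c := by positivity
  have hLc : ‖L‖ * c ≤ 1 / 4 := by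
    rw [hc, mul_one_div, div_le_div_iff₀ (by positivity) (by norm_num)]
    nlinarith [norm_nonneg L]
  set N := ‖e‖ + c with hN
  have hN0 : 0 < N := by positivity
  set ε := 1 / (4 * N) with hε
  have hε0 : 0 < ε := by positivity
  have hεN : ε * N = 1 / 4 := by rw [hε]; field_simp
  have hcont : Continuous (fderiv ℝ ρ) := hρ.continuous_fderiv (by norm_num)
  obtain ⟨r1, hr1, hr1'⟩ := Metric.continuousAt_iff.1 (hcont.continuousAt (x := z)) ε hε0
  set R := min r0 r1 with hR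
  have hR0 : 0 < R := lt_min hr0 hr1
  set t0 := R / (2 * N) with ht0
  have ht00 : 0 < t0 := by positivity
  have hsm : ∀ h ∈ coneSet e c t0, ‖h‖ < R / 2 := by
    rintro h ⟨t, ht, ht2, hh⟩
    refine (coneSet_norm (t0 := t0) ht hh).trans_lt ?_
    have : t * N < t0 * N := mul_lt_mul_of_pos_right ht2 hN0
    have h2 : t0 * N = R / 2 := by rw [ht0]; field_simp
    linarith
  refine ⟨R, hR0, ρ, hρ.continuous, fun y hy => hD y
    (Metric.ball_subset_ball (min_le_left _ _) hy), e, c, t0, he0, hc0, ht00, hsm, ?_⟩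
  rintro a ha h ⟨t, ht, ht2, hh⟩ hah
  have hmv := (convex_ball z R).norm_image_sub_le_of_norm_fderiv_le' (𝕜 := ℝ) (f := ρ)
    (φ := L) (C := ε) (fun y _ => (hρ.differentiable (by norm_num) y)) (fun y hy => by
      have := hr1' (show dist y z < r1 from (Metric.mem_ball.1 hy).trans_le (min_le_right _ _))
      rw [dist_eq_norm] at this
      exact this.le) ha hah
  rw [add_sub_cancel_left] at hmv
  have h1 := (abs_le.1 (by simpa [Real.norm_eq_abs] using hmv)).2
  have h2 : L h ≤ -t + t / 4 := by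
    have e1 : L h = t * L e + L (h - t • e) := by
      rw [map_sub, map_smul, smul_eq_mul]; ring
    rw [e1, he]
    have e2 : L (h - t • e) ≤ ‖L‖ * ‖h - t • e‖ := (le_abs_self _).trans (L.le_opNorm _)
    have e3 : ‖L‖ * ‖h - t • e‖ ≤ ‖L‖ * (c * t) := mul_le_mul_of_nonneg_left hh.le (norm_nonneg _)
    nlinarith
  have h3 : ε * ‖h‖ ≤ t / 4 := by
    have := coneSet_norm (t0 := t0) ht hh
    calc ε * ‖h‖ ≤ ε * (t * N) := mul_le_mul_of_nonneg_left this hε0.le
      _ = t * (ε * N) := by ring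
      _ = t / 4 := by rw [hεN]; ring
  linarith

theorem rho_nonpos {D : Set E3} {z : E3} {R : ℝ} {ρ : E3 → ℝ} (hρ : Continuous ρ)
    (hD : ∀ y ∈ Metric.ball z R, (y ∈ D ↔ ρ y < 0)) {y : E3} (hy : y ∈ Metric.ball z R)
    (hyD : y ∈ closure D) : ρ y ≤ 0 := by
  by_contra h
  push Not at h
  have hop : IsOpen (Metric.ball z R ∩ {w | 0 < ρ w}) :=
    Metric.isOpen_ball.inter (isOpen_lt continuous_const hρ)
  obtain ⟨w, ⟨hw1, hw2⟩, hwD⟩ := mem_closure_iff.1 hyD _ hop ⟨hy, h⟩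
  exact absurd ((hD w hw1).1 hwD) (not_lt.2 (le_of_lt hw2))

theorem ball_shifts {r : ℝ} (hr : 0 < r) : Shifts (Metric.ball (0:E3) r) := by
  refine ⟨?_, ?_⟩
  · intro h hh s hs hs1
    rw [mem_ball_zero_iff] at hh ⊢
    rw [norm_smul, Real.norm_eq_abs, abs_of_pos hs]
    nlinarith [norm_nonneg h]
  · intro ε hε
    have : Metric.ball (0:E3) (min r ε) ⊆ Metric.ball 0 r ∩ Metric.ball 0 ε := fun y hy =>
      ⟨Metric.ball_subset_ball (min_le_left _ _) hy, Metric.ball_subset_ball (min_le_right _ _) hy⟩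
    exact (Metric.measure_ball_pos volume 0 (lt_min hr hε)).trans_le (measure_mono this)

theorem int_cone {D : Set E3} (hD : IsOpen D) (hs : SmoothBoundary D) {z : E3}
    (hz : z ∈ closure D) :
    ∃ r > 0, ∃ C, Shifts C ∧ ∀ y ∈ Metric.ball z r ∩ closure D, ∀ h ∈ C, y + h ∈ D := by
  by_cases hzD : z ∈ D
  · obtain ⟨r, hr, hrD⟩ := Metric.isOpen_iff.1 hD z hzD
    refine ⟨r / 2, by positivity, Metric.ball 0 (r / 2), ball_shifts (by positivity), ?_⟩
    intro y hy h hh
    apply hrD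
    rw [Metric.mem_ball, dist_eq_norm]
    have h1 := hy.1
    rw [Metric.mem_ball, dist_eq_norm] at h1
    rw [mem_ball_zero_iff] at hh
    calc ‖y + h - z‖ = ‖(y - z) + h‖ := by congr 1; abel
      _ ≤ ‖y - z‖ + ‖h‖ := norm_add_le _ _
      _ < r := by linarith
  · have hzf : z ∈ frontier D := ⟨hz, by rwa [hD.interior_eq]⟩
    obtain ⟨R, hR, ρ, hρ, hDρ, e, c, t0, he, hc, ht0, hsm, hsl⟩ := slope hs hzf
    refine ⟨R / 2, by positivity, coneSet e c t0, coneSet_shifts hc ht0, ?_⟩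
    intro y hy h hh
    have hyR : y ∈ Metric.ball z R := Metric.ball_subset_ball (by linarith) hy.1
    have hyh : y + h ∈ Metric.ball z R := by
      rw [Metric.mem_ball, dist_eq_norm]
      have h1 := hy.1
      rw [Metric.mem_ball, dist_eq_norm] at h1
      have h2 := hsm h hh
      calc ‖y + h - z‖ = ‖(y - z) + h‖ := by congr 1; abel
        _ ≤ ‖y - z‖ + ‖h‖ := norm_add_le _ _
        _ < R := by linarith
    exact (hDρ _ hyh).2 ((hsl y hyR h hh hyh).trans_le (rho_nonpos hρ hDρ hyR hy.2))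

theorem ext_cone {D : Set E3} (hs : SmoothBoundary D) {z : E3} (hz : z ∈ frontier D) :
    ∃ r > 0, ∃ C, Shifts C ∧ ∀ y ∈ Metric.ball z r \ D, ∀ h ∈ C, y + h ∉ closure D := by
  obtain ⟨R, hR, ρ, hρ, hDρ, e, c, t0, he, hc, ht0, hsm, hsl⟩ := slope hs hz
  have hS := coneSet_shifts (e := e) hc ht0
  refine ⟨R / 2, by positivity, {h | -h ∈ coneSet e c t0}, ⟨?_, ?_⟩, ?_⟩
  · intro h hh s hs hs1
    have := hS.scale _ hh s hs hs1
    rwa [smul_neg] at this
  · intro ε hε
    have h1 := hS.pos ε hε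
    have h2 : ({h | -h ∈ coneSet e c t0} ∩ Metric.ball (0:E3) ε) =
        (fun h : E3 => -h) ⁻¹' (coneSet e c t0 ∩ Metric.ball 0 ε) := by
      ext h
      simp
    rw [h2]
    have h3 := (Measure.IsNegInvariant.neg_eq_self (μ := (volume : Measure E3)))
    calc 0 < volume (coneSet e c t0 ∩ Metric.ball 0 ε) := h1
      _ = volume ((fun h : E3 => -h) ⁻¹' (coneSet e c t0 ∩ Metric.ball 0 ε)) :=
        (Measure.measure_preimage_neg volume _).symm
  · rintro y ⟨hy, hyD⟩ h hh hcl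
    have hh' : -h ∈ coneSet e c t0 := hh
    have hyR : y ∈ Metric.ball z R := Metric.ball_subset_ball (by linarith) hy
    have ha : y + h ∈ Metric.ball z R := by
      rw [Metric.mem_ball, dist_eq_norm] at hy ⊢
      have h2 := hsm _ hh'
      rw [norm_neg] at h2
      calc ‖y + h - z‖ = ‖(y - z) + h‖ := by congr 1; abel
        _ ≤ ‖y - z‖ + ‖h‖ := norm_add_le _ _
        _ < R := by linarith
    have h1 := hsl (y + h) ha (-h) hh' (by rwa [add_neg_cancel_right])
    rw [add_neg_cancel_right] at h1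
    have h2 : ¬ ρ y < 0 := fun h' => hyD ((hDρ y hyR).2 h')
    have h3 := rho_nonpos hρ hDρ ha hcl
    linarith [not_lt.1 h2]

theorem exists_finiteCone {D : Set E3} (hD : IsOpen D) (hs : SmoothBoundary D) {x : E3}
    (hx : x ∈ closure D) :
    ∃ (a : E3) (ρ α : ℝ), ‖a‖ = 1 ∧ 0 < ρ ∧ 0 < α ∧ α < 1 ∧ finiteCone x a ρ α ⊆ closure D := by
  by_cases hxD : x ∈ D
  · obtain ⟨r, hr, hrD⟩ := Metric.isOpen_iff.1 hD x hxD
    refine ⟨ee 0, r, 1 / 2, by simp [ee], hr, by norm_num, by norm_num, ?_⟩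
    exact inter_subset_left.trans (hrD.trans subset_closure)
  · have hxf : x ∈ frontier D := ⟨hx, by rwa [hD.interior_eq]⟩
    obtain ⟨R, hR, ρ, hρ, hDρ, e, c, t0, he, hc, ht0, hsm, hsl⟩ := slope hs hxf
    have hE : 0 < ‖e‖ := norm_pos_iff.2 he
    set q := c ^ 2 / ‖e‖ ^ 2 with hq
    have hq0 : 0 < q := by positivity
    obtain ⟨α, hα0, hα1, hαq⟩ : ∃ α : ℝ, 0 < α ∧ α < 1 ∧
        1 < (1 + q) * Real.cos (Real.pi * α / 2) ^ 2 := by
      have hcts : Continuous fun α : ℝ => (1 + q) * Real.cos (Real.pi * α / 2) ^ 2 := by fun_prop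
      have h1 : ∀ᶠ α : ℝ in 𝓝 0, 1 < (1 + q) * Real.cos (Real.pi * α / 2) ^ 2 := by
        refine (hcts.tendsto 0).eventually_const_lt ?_
        simp [hq0]
      have h2 : ∀ᶠ α : ℝ in 𝓝[>] 0, 1 < (1 + q) * Real.cos (Real.pi * α / 2) ^ 2 :=
        h1.filter_mono nhdsWithin_le_nhds
      have h3 : ∀ᶠ α : ℝ in 𝓝[>] 0, α ∈ Ioo (0:ℝ) 1 := Ioo_mem_nhdsGT one_pos
      obtain ⟨α, h4, h5⟩ := (h2.and h3).exists
      exact ⟨α, h5.1, h5.2, h4⟩
    set a : E3 := ‖e‖⁻¹ • e with ha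
    have ha1 : ‖a‖ = 1 := by
      rw [ha, norm_smul, norm_inv, norm_norm, inv_mul_cancel₀ hE.ne']
    refine ⟨a, t0 * ‖e‖, α, ha1, by positivity, hα0, hα1, ?_⟩
    rintro y ⟨hy1, hy2⟩
    have hy3 := interior_subset hy2
    simp only [mem_setOf_eq] at hy3
    rw [Metric.mem_ball, dist_eq_norm] at hy1
    set v := y - x with hv
    by_cases hv0 : v = 0
    · have : y = x := by rw [← sub_eq_zero]; exact hv0
      rw [this]; exact hx
    have hvn : 0 < ‖v‖ := norm_pos_iff.2 hv0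
    set C := Real.cos (Real.pi * α / 2) with hC
    have hC0 : 0 < C := by
      apply Real.cos_pos_of_mem_Ioo
      constructor
      · nlinarith [Real.pi_pos]
      · nlinarith [Real.pi_pos]
    set m := inner ℝ v a with hm
    have hm0 : 0 < m := lt_of_lt_of_le (mul_pos hvn hC0) hy3
    have hmv : m ≤ ‖v‖ := by
      have := real_inner_le_norm v a
      rwa [ha1, mul_one] at this
    have hh : v ∈ coneSet e c t0 := by
      refine ⟨m / ‖e‖, by positivity, ?_, ?_⟩
      · rw [div_lt_iff₀ hE]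
        exact hmv.trans_lt hy1
      · have e1 : (m / ‖e‖) • e = m • a := by
          rw [ha, smul_smul]; rfl
        rw [e1]
        have e2 : ‖v - m • a‖ ^ 2 = ‖v‖ ^ 2 - m ^ 2 := by
          rw [norm_sub_sq_real, inner_smul_right, norm_smul, ha1, ← hm]
          rw [Real.norm_eq_abs, mul_one, sq_abs]; ring
        have e3 : ‖v‖ ^ 2 * C ^ 2 ≤ m ^ 2 := by
          rw [← mul_pow]
          exact pow_le_pow_left₀ (by positivity) hy3 2
        have e4 : ‖v‖ ^ 2 < (1 + q) * m ^ 2 := by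
          have e5 : ‖v‖ ^ 2 < ‖v‖ ^ 2 * ((1 + q) * C ^ 2) := by
            have : 0 < ‖v‖ ^ 2 := by positivity
            nlinarith
          nlinarith
        have e6 : (c * (m / ‖e‖)) ^ 2 = q * m ^ 2 := by
          rw [hq]; field_simp
        refine lt_of_pow_lt_pow_left₀ 2 (by positivity) ?_
        rw [e2, e6]
        linarith
    have hxR : x ∈ Metric.ball x R := Metric.mem_ball_self hR
    have hyR : x + v ∈ Metric.ball x R := by
      rw [Metric.mem_ball, dist_eq_norm, add_sub_cancel_left]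
      linarith [hsm v hh]
    have h1 := hsl x hxR v hh hyR
    have h2 := rho_nonpos hρ hDρ hxR hx
    have h3 : x + v ∈ D := (hDρ _ hyR).2 (h1.trans_le h2)
    have h4 : x + v = y := by rw [hv]; abel
    rw [h4] at h3
    exact subset_closure h3

section Needle

variable {Ω : Set E3} {x : E3} {σ : ℝ → E3}

theorem pieces {m : ℕ} {t : ℕ → ℝ} (ht : ∀ j < m, t j ≤ t (j + 1)) :
    ∀ n ≤ m, t 0 ≤ t n := by
  intro n
  induction n with
  | zero => intro _; exact le_rfl
  | succ n ih => intro hn; exact (ih (by omega)).trans (ht n (by omega))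

theorem Needle.continuousOn (h : Needle Ω x σ) : ContinuousOn σ (Icc 0 1) := by
  obtain ⟨m, t, h0, h1, hp⟩ := h.piecewiseLinear
  have key : ∀ n ≤ m, ContinuousOn σ (Icc (t 0) (t n)) := by
    intro n
    induction n with
    | zero => intro _; rw [Icc_self]; exact continuousOn_singleton _ _
    | succ n ih =>
      intro hn
      have hle := (hp n (by omega)).1
      rw [← Icc_union_Icc_eq_Icc (pieces (fun j hj => (hp j hj).1) n (by omega)) hle]
      refine (ih (by omega)).union_of_isClosed ?_ isClosed_Icc isClosed_Icc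
      obtain ⟨a, b, hab⟩ := (hp n (by omega)).2
      have : ContinuousOn (fun s : ℝ => a + s • b) (Icc (t n) (t (n + 1))) := by fun_prop
      exact this.congr hab
  have := key m le_rfl
  rwa [h0, h1] at this

theorem Needle.null_sub (h : Needle Ω x σ) :
    volume {y : E3 | ∃ p ∈ σ '' Icc 0 1, ∃ q ∈ σ '' Icc 0 1, y = p - q} = 0 := by
  obtain ⟨m, t, h0, h1, hp⟩ := h.piecewiseLinear
  choose hle a b hab using hp
  have cov : ∀ n ≤ m, ∀ s ∈ Icc (t 0) (t n), ∃ (j : ℕ) (hj : j < m) , s ∈ Icc (t j) (t (j+1)) ∨ s = t 0 := by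
    intro n
    induction n with
    | zero =>
      intro hn s hs
      rw [Icc_self] at hs
      rcases Nat.eq_zero_or_pos m with h' | h'
      · subst h'
        rw [h0] at h1
        norm_num at h1
      · exact ⟨0, h', Or.inr hs⟩
    | succ n ih =>
      intro hn s hs
      by_cases hsn : s ≤ t n
      · exact ih (by omega) s ⟨hs.1, hsn⟩
      · exact ⟨n, by omega, Or.inl ⟨(not_le.1 hsn).le, hs.2⟩⟩
  have hm : 0 < m := by
    rcases Nat.eq_zero_or_pos m with h' | h'
    · subst h'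
      rw [h0] at h1
      norm_num at h1
    · exact h'
  have cov2 : ∀ s ∈ Icc (0:ℝ) 1, ∃ (j : Fin m) , σ s = a j j.2 + s • b j j.2 := by
    intro s hs
    obtain ⟨j, hj, h2 | h2⟩ := cov m le_rfl s (by rwa [h0, h1])
    · exact ⟨⟨j, hj⟩, hab j hj s h2⟩
    · exact ⟨⟨0, hm⟩, hab 0 hm s ⟨h2.ge, h2.le.trans (hle 0 hm)⟩⟩
  have hsub : {y : E3 | ∃ p ∈ σ '' Icc 0 1, ∃ q ∈ σ '' Icc 0 1, y = p - q} ⊆
      ⋃ (j : Fin m) (l : Fin m), (AffineSubspace.mk' (a j j.2 - a l l.2)
        (Submodule.span ℝ ({b j j.2, b l l.2} : Set E3)) : Set E3) := by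
    rintro y ⟨_, ⟨s, hs, rfl⟩, _, ⟨s', hs', rfl⟩, rfl⟩
    obtain ⟨j, hj⟩ := cov2 s hs
    obtain ⟨l, hl⟩ := cov2 s' hs'
    rw [mem_iUnion]
    refine ⟨j, ?_⟩
    rw [mem_iUnion]
    refine ⟨l, ?_⟩
    rw [SetLike.mem_coe, AffineSubspace.mem_mk', vsub_eq_sub, hj, hl]
    have : a j j.2 + s • b j j.2 - (a l l.2 + s' • b l l.2) - (a j j.2 - a l l.2) =
        s • b j j.2 + (-s') • b l l.2 := by
      rw [neg_smul]; abel
    rw [this]
    exact Submodule.add_mem _ (Submodule.smul_mem _ _ (Submodule.subset_span (by simp)))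
      (Submodule.smul_mem _ _ (Submodule.subset_span (by simp)))
  refine measure_mono_null hsub ?_
  rw [measure_iUnion_null_iff]
  intro j
  rw [measure_iUnion_null_iff]
  intro l
  apply Measure.addHaar_affineSubspace
  intro htop
  have h2 := congrArg AffineSubspace.direction htop
  rw [AffineSubspace.direction_mk', AffineSubspace.direction_top] at h2
  have h3 : Module.finrank ℝ (Submodule.span ℝ ({b j j.2, b l l.2} : Set E3)) ≤ 2 := by
    classical
    refine (finrank_span_le_card _).trans ?_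
    rw [Set.toFinset_card]
    have : Fintype.card ↑({b j j.2, b l l.2} : Set E3) ≤ 2 := by
      rw [← Set.toFinset_card]
      refine (Finset.card_le_card (t := {b j j.2, b l l.2}) ?_).trans Finset.card_le_two
      intro z hz
      simpa using hz
    exact this
  rw [h2, finrank_top] at h3
  simp at h3

theorem Needle.null (h : Needle Ω x σ) : volume (σ '' Icc 0 1) = 0 := by
  have h1 := h.null_sub
  set N := {y : E3 | ∃ p ∈ σ '' Icc 0 1, ∃ q ∈ σ '' Icc 0 1, y = p - q} with hN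
  have h2 : σ '' Icc 0 1 ⊆ (fun y => y - σ 0) ⁻¹' N := by
    intro p hp
    exact ⟨p, hp, σ 0, ⟨0, by simp, rfl⟩, rfl⟩
  refine measure_mono_null h2 ?_
  simp only [sub_eq_add_neg]
  rw [measure_preimage_add_right]
  exact h1

end Needle

end Pool.Agent.P8H23.PM
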