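import Pool.Agent.P8H23.PM.Cx
import Pool.Agent.Helper985.VR.G

set_option autoImplicit false

open MeasureTheory Filter Topology Set
open scoped ContDiff ComplexConjugate ENNReal
open Pool.Agent.Helper985.VR

namespace Pool.Agent.P8H23.PM

theorem SR.l2 {U : Set E3} (hU : MeasurableSet U) {f : E3 → ℝ} (hf : SR U f) :
    L2 (U.indicator f) := by
  refine ⟨hf.1.indicator hU, ?_⟩
  have : (fun x => U.indicator f x ^ 2) = U.indicator fun x => f x ^ 2 := by
    ext x
    by_cases h : x ∈ U <;> simp [h]
  rw [this, integrable_indicator_iff hU]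
  exact hf.2

theorem l2_sr {U : Set E3} {f : E3 → ℝ} (hf : L2 f) : SR U f := ⟨hf.1, hf.2.integrableOn⟩

theorem int_ind_mul {U : Set E3} (hU : MeasurableSet U) (f g : E3 → ℝ) :
    ∫ y, U.indicator f y * U.indicator g y = ∫ y in U, f y * g y := by
  rw [← integral_indicator hU]
  congr 1; ext y
  by_cases h : y ∈ U <;> simp [h]

theorem nsq_ind {U : Set E3} (hU : MeasurableSet U) (f : E3 → ℝ) :
    N2 (U.indicator f) = ∫ y in U, f y ^ 2 := by
  unfold N2
  rw [← integral_indicator hU]
  congr 1; ext y
  by_cases h : y ∈ U <;> simp [h]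

theorem N2_ind_sub {U : Set E3} (hU : MeasurableSet U) (f g : E3 → ℝ) :
    N2 (fun y => U.indicator f y - U.indicator g y) = ∫ y in U, (f y - g y) ^ 2 := by
  rw [← nsq_ind hU]
  congr 1; ext y
  by_cases h : y ∈ U <;> simp [h]

theorem cs_set {U : Set E3} (hU : MeasurableSet U) {f g : E3 → ℝ} (hf : SR U f) (hg : SR U g) :
    (∫ y in U, f y * g y) ^ 2 ≤ (∫ y in U, f y ^ 2) * ∫ y in U, g y ^ 2 := by
  rw [← int_ind_mul hU, ← nsq_ind hU, ← nsq_ind hU]
  exact cs_sq (hf.l2 hU) (hg.l2 hU)

theorem tendsto_setInt {U : Set E3} (hU : MeasurableSet U) {f : ℕ → E3 → ℝ} {F h : E3 → ℝ}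
    (hf : ∀ n, SR U (f n)) (hF : SR U F) (hh : SR U h)
    (hlim : Tendsto (fun n => ∫ y in U, (f n y - F y) ^ 2) atTop (𝓝 0)) :
    Tendsto (fun n => ∫ y in U, h y * f n y) atTop (𝓝 (∫ y in U, h y * F y)) := by
  simp_rw [← N2_ind_sub hU] at hlim
  have := tendsto_pair (fun _ => hh.l2 hU) (fun n => (hf n).l2 hU) (hh.l2 hU) (hF.l2 hU)
    (l := atTop) (by simp [N2]) hlim
  simpa only [int_ind_mul hU] using this

theorem rform_expand {U : Set E3} {k : ℝ} {v : E3 → ℝ} {g : Fin 3 → E3 → ℝ} {u : E3 → ℝ}
    {h : Fin 3 → E3 → ℝ} (hv : SR U v) (hg : ∀ i, SR U (g i)) (hu : SR U u) (hh : ∀ i, SR U (h i)) :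
    rform U k v g u h = (∑ i, ∫ y in U, g i y * h i y) - k ^ 2 * ∫ y in U, v y * u y := by
  unfold rform
  rw [integral_sub (integrable_finsetSum _ fun i _ => (hg i).mul (hh i))
    ((hv.mul hu).const_mul _), integral_finsetSum _ fun i _ => (hg i).mul (hh i),
    integral_const_mul]

theorem rform_comm {U : Set E3} {k : ℝ} {v : E3 → ℝ} {g : Fin 3 → E3 → ℝ} {u : E3 → ℝ}
    {h : Fin 3 → E3 → ℝ} : rform U k v g u h = rform U k u h v g := by
  unfold rform
  congr 1; ext y
  congr 1
  · exact Finset.sum_congr rfl fun i _ => mul_comm _ _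
  · rw [mul_comm (v y)]

theorem rform_sub_right {U : Set E3} {k : ℝ} {v : E3 → ℝ} {g : Fin 3 → E3 → ℝ} {u u' : E3 → ℝ}
    {h h' : Fin 3 → E3 → ℝ} (hv : SR U v) (hg : ∀ i, SR U (g i)) (hu : SR U u)
    (hh : ∀ i, SR U (h i)) (hu' : SR U u') (hh' : ∀ i, SR U (h' i)) :
    rform U k v g (fun y => u y - u' y) (fun i y => h i y - h' i y) =
      rform U k v g u h - rform U k v g u' h' := by
  have i1 : ∀ {u : E3 → ℝ} {h : Fin 3 → E3 → ℝ}, SR U u → (∀ i, SR U (h i)) →
      IntegrableOn (fun y => ((∑ i, g i y * h i y) - k ^ 2 * (v y * u y))) U := fun hu hh =>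
    (integrable_finsetSum _ fun i _ => (hg i).mul (hh i)).sub ((hv.mul hu).const_mul _)
  unfold rform
  rw [← integral_sub (i1 hu hh) (i1 hu' hh')]
  congr 1; ext y
  simp only [mul_sub, Finset.sum_sub_distrib]
  ring

/-- the equation holds for all functions which vanish on the outer boundary -/
theorem RNeumann.test {Ω D : Set E3} (hU : MeasurableSet (Ω \ closure D)) {k : ℝ} {u : E3 → ℝ}
    {gu : Fin 3 → E3 → ℝ} (hu : SR (Ω \ closure D) u) (hgu : ∀ i, SR (Ω \ closure D) (gu i))
    (H : RNeumann Ω D k u gu) {w : E3 → ℝ} {h : Fin 3 → E3 → ℝ} (hw : SR (Ω \ closure D) w)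
    (hh : ∀ i, SR (Ω \ closure D) (h i)) (hv : RVan Ω D w h) :
    rform (Ω \ closure D) k u gu w h = 0 := by
  obtain ⟨φ, hφ, h0, h1⟩ := hv
  have t : Tendsto (fun n => rform (Ω \ closure D) k u gu (φ n) (rgrad (φ n))) atTop
      (𝓝 (rform (Ω \ closure D) k u gu w h)) := by
    rw [rform_expand hu hgu hw hh]
    have e : ∀ n, rform (Ω \ closure D) k u gu (φ n) (rgrad (φ n)) =
        (∑ i, ∫ y in Ω \ closure D, gu i y * rgrad (φ n) i y) -
          k ^ 2 * ∫ y in Ω \ closure D, u y * φ n y := fun n =>
      rform_expand hu hgu (hφ n).si fun i => (hφ n).sig i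
    simp_rw [e]
    refine (tendsto_finsetSum _ fun i _ => ?_).sub (Tendsto.const_mul _ ?_)
    · exact tendsto_setInt hU (fun n => (hφ n).sig i) (hh i) (hgu i) (h1 i)
    · exact tendsto_setInt hU (fun n => (hφ n).si) hw hu h0
  have t2 : Tendsto (fun n => rform (Ω \ closure D) k u gu (φ n) (rgrad (φ n))) atTop (𝓝 0) := by
    simp_rw [fun n => H _ (hφ n)]
    exact tendsto_const_nhds
  exact tendsto_nhds_unique t t2

/-- the energy identity for the indicator -/
theorem energy_identity {Ω D : Set E3} (hD : closure D ⊆ Ω) (hΩ : MeasurableSet Ω) {k : ℝ}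
    {v u : E3 → ℝ} {g gu : Fin 3 → E3 → ℝ} (hv : SR Ω v) (hg : ∀ i, SR Ω (g i))
    (hu : SR (Ω \ closure D) u) (hgu : ∀ i, SR (Ω \ closure D) (gu i))
    (hN : RNeumann Ω D k u gu)
    (hV : RVan Ω D (fun y => u y - v y) (fun i y => gu i y - g i y)) :
    rform Ω k v g v g - rform (Ω \ closure D) k u gu v g =
      rform (closure D) k v g v g +
        rform (Ω \ closure D) k (fun y => u y - v y) (fun i y => gu i y - g i y)
          (fun y => u y - v y) (fun i y => gu i y - g i y) := by
  set U := Ω \ closure D with hUdef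
  have hcl : MeasurableSet (closure D) := isClosed_closure.measurableSet
  have hU : MeasurableSet U := hΩ.diff hcl
  have hvU : SR U v := hv.mono sdiff_subset
  have hgU : ∀ i, SR U (g i) := fun i => (hg i).mono sdiff_subset
  have hw : SR U (fun y => u y - v y) := hu.sub hvU
  have hh : ∀ i, SR U (fun y => gu i y - g i y) := fun i => (hgu i).sub (hgU i)
  have h0 := hN.test hU hu hgu hw hh hV
  have e1 : rform U k u gu (fun y => u y - v y) (fun i y => gu i y - g i y) =
      rform U k u gu u gu - rform U k u gu v g := rform_sub_right hu hgu hu hgu hvU hgU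
  have e2 : rform U k (fun y => u y - v y) (fun i y => gu i y - g i y)
      (fun y => u y - v y) (fun i y => gu i y - g i y) =
      rform U k (fun y => u y - v y) (fun i y => gu i y - g i y) u gu -
      rform U k (fun y => u y - v y) (fun i y => gu i y - g i y) v g :=
    rform_sub_right hw hh hu hgu hvU hgU
  have e3 : rform U k (fun y => u y - v y) (fun i y => gu i y - g i y) v g =
      rform U k u gu v g - rform U k v g v g := by
    rw [rform_comm, rform_sub_right hvU hgU hu hgu hvU hgU, rform_comm]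
  have e4 : rform U k (fun y => u y - v y) (fun i y => gu i y - g i y) u gu = 0 := by
    rw [rform_comm]; exact h0
  have e5 : rform Ω k v g v g = rform (closure D) k v g v g + rform U k v g v g := by
    unfold rform
    have hint : IntegrableOn (fun y => ((∑ i, g i y * g i y) - k ^ 2 * (v y * v y))) Ω :=
      (integrable_finsetSum _ fun i _ => (hg i).mul (hg i)).sub ((hv.mul hv).const_mul _)
    have hun : Ω = closure D ∪ U := by rw [hUdef, union_sdiff_cancel hD]
    conv_lhs => rw [hun]
    exact setIntegral_union disjoint_sdiff_right hU (hint.mono_set hD) (hint.mono_set sdiff_subset)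
  rw [e2, e3, e4, e5]
  ring

theorem form_split {U : Set E3} {k : ℝ} {v u : E3 → ℂ} {g h : Fin 3 → E3 → ℂ} (hv : SI U v)
    (hg : ∀ i, SI U (g i)) (hu : SI U u) (hh : ∀ i, SI U (h i)) :
    (form U k v g u h).re = ∑ c, rform U k (fun y => pt c (v y)) (fun i y => pt c (g i y))
      (fun y => pt c (u y)) (fun i y => pt c (h i y)) ∧
    (form U k v g u h).im =
      rform U k (fun y => pt true (v y)) (fun i y => pt true (g i y))
        (fun y => pt false (u y)) (fun i y => pt false (h i y)) -
      rform U k (fun y => pt false (v y)) (fun i y => pt false (g i y))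
        (fun y => pt true (u y)) (fun i y => pt true (h i y)) := by
  have hint : IntegrableOn (fun y => ((∑ i, g i y * conj (h i y)) -
      (k : ℂ) ^ 2 * (v y * conj (u y)))) U := by
    refine Integrable.sub (integrable_finsetSum _ fun i _ => (hg i).mul (hh i).conj) ?_
    exact (hv.mul hu.conj).const_mul _
  have i1 : ∀ c d : Bool, IntegrableOn (fun y => ((∑ i, pt c (g i y) * pt d (h i y)) -
      k ^ 2 * (pt c (v y) * pt d (u y)))) U := fun c d =>
    (integrable_finsetSum _ fun i _ => ((hg i).part c).mul ((hh i).part d)).sub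
      (((hv.part c).mul (hu.part d)).const_mul _)
  constructor
  · have h3 := pt_integral hint false
    simp only [pt_false] at h3
    unfold form
    rw [← h3, Fintype.sum_bool]
    unfold rform
    rw [← integral_add (i1 true true) (i1 false false)]
    congr 1; ext y
    simp only [pt_false, pt_true, Complex.sub_re, Complex.re_sum, Complex.mul_re, Complex.conj_re,
      Complex.conj_im, ← Complex.ofReal_pow, Complex.ofReal_re, Complex.ofReal_im,
      Finset.sum_sub_distrib, mul_neg, Finset.sum_neg_distrib]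
    ring
  · have h3 := pt_integral hint true
    simp only [pt_true] at h3
    unfold form
    rw [← h3]
    unfold rform
    rw [← integral_sub (i1 true false) (i1 false true)]
    congr 1; ext y
    simp only [pt_false, pt_true, Complex.sub_im, Complex.im_sum, Complex.mul_im, Complex.mul_re,
      Complex.conj_re, Complex.conj_im, ← Complex.ofReal_pow, Complex.ofReal_re, Complex.ofReal_im,
      Finset.sum_add_distrib, mul_neg, Finset.sum_neg_distrib]
    ring

/-- the energy expression -/
noncomputable def rI (Ω D : Set E3) (k : ℝ) (v : E3 → ℝ) (g : Fin 3 → E3 → ℝ) (u : E3 → ℝ)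
    (gu : Fin 3 → E3 → ℝ) : ℝ :=
  rform (closure D) k v g v g +
    rform (Ω \ closure D) k (fun y => u y - v y) (fun i y => gu i y - g i y)
      (fun y => u y - v y) (fun i y => gu i y - g i y)

theorem indicator_split {Ω D : Set E3} (hD : closure D ⊆ Ω) (hΩ : MeasurableSet Ω) {k : ℝ}
    {v u : E3 → ℂ} {g gu : Fin 3 → E3 → ℂ} (hv : InH1 Ω v g) (hu : Reflected Ω D k v g u gu) :
    (indicatorValue Ω D k v g u gu).im = 0 ∧
    (indicatorValue Ω D k v g u gu).re = ∑ c, rI Ω D k (fun y => pt c (v y))
      (fun i y => pt c (g i y)) (fun y => pt c (u y)) (fun i y => pt c (gu i y)) := by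
  set U := Ω \ closure D with hUdef
  have hcl : MeasurableSet (closure D) := isClosed_closure.measurableSet
  have hU : MeasurableSet U := hΩ.diff hcl
  have hvU : SI U v := hv.si.mono sdiff_subset
  have hgU : ∀ i, SI U (g i) := fun i => (hv.sig i).mono sdiff_subset
  have f1 := form_split (k := k) hv.si hv.sig hv.si hv.sig
  have f2 := form_split (k := k) hu.inH1.si hu.inH1.sig hvU hgU
  have si_sub : ∀ {f g : E3 → ℂ}, SI U f → SI U g → SI U (fun y => f y - g y) := by
    intro f g hf hg
    refine ⟨hf.1.sub hg.1, Integrable.mono' ((hf.2.const_mul 2).add (hg.2.const_mul 2))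
      ((hf.1.sub hg.1).norm.pow_const 2).aestronglyMeasurable ?_⟩
    filter_upwards with y
    simp only [Pi.add_apply]
    rw [Real.norm_eq_abs, abs_of_nonneg (sq_nonneg _)]
    have := norm_sub_le (f y) (g y)
    nlinarith [sq_nonneg (‖f y‖ - ‖g y‖), norm_nonneg (f y), norm_nonneg (g y),
      norm_nonneg (f y - g y)]
  have hV : ∀ c, RVan Ω D (fun y => pt c (u y) - pt c (v y)) (fun i y => pt c (gu i y) - pt c (g i y)) := by
    intro c
    have := VanishesOuter.part (si_sub hu.inH1.si hvU) (fun i => si_sub (hu.inH1.sig i) (hgU i))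
      hu.boundary c
    simpa only [map_sub] using this
  have hN : ∀ c, RNeumann Ω D k (fun y => pt c (u y)) (fun i y => pt c (gu i y)) := fun c =>
    Solves.part hu.inH1.si hu.inH1.sig hu.solves c
  have cross : ∀ c d, rform U k (fun y => pt c (u y)) (fun i y => pt c (gu i y))
      (fun y => pt d (v y)) (fun i y => pt d (g i y)) =
      rform U k (fun y => pt c (u y)) (fun i y => pt c (gu i y))
      (fun y => pt d (u y)) (fun i y => pt d (gu i y)) := by
    intro c d
    have h0 := (hN c).test hU (hu.inH1.si.part c) (fun i => (hu.inH1.sig i).part c)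
      (((hu.inH1.si.part d)).sub (hvU.part d))
      (fun i => ((hu.inH1.sig i).part d).sub ((hgU i).part d)) (hV d)
    rw [rform_sub_right (hu.inH1.si.part c) (fun i => (hu.inH1.sig i).part c) (hu.inH1.si.part d)
      (fun i => (hu.inH1.sig i).part d) (hvU.part d) (fun i => (hgU i).part d)] at h0
    linarith
  unfold indicatorValue
  constructor
  · rw [Complex.sub_im, f1.2, f2.2, cross, cross, rform_comm, sub_self]
    rw [rform_comm (v := fun y => pt true (u y))]
    ring
  · rw [Complex.sub_re, f1.1, f2.1, ← Finset.sum_sub_distrib]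
    refine Finset.sum_congr rfl fun c _ => ?_
    exact energy_identity hD hΩ (hv.si.part c) (fun i => (hv.sig i).part c) (hu.inH1.si.part c)
      (fun i => (hu.inH1.sig i).part c) (hN c) (hV c)

end Pool.Agent.P8H23.PM
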