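import Pool.Agent.P8H23.PM.Ind

set_option autoImplicit false

open MeasureTheory Filter Topology Set
open scoped ContDiff ENNReal Manifold
open Pool.Agent.Helper985.VR

namespace Pool.Agent.P8H23.PM

/-- the standard basis -/
noncomputable def bas : Module.Basis (Fin 3) ℝ E3 := (EuclideanSpace.basisFun (Fin 3) ℝ).toBasis

theorem bas_coe : (⇑bas : Fin 3 → E3) = ee := by
  ext i
  simp [bas, ee]

/-- cut-off functions -/
theorem exists_cutoff {K U : Set E3} (hK : IsCompact K) (hU : IsOpen U) (h : K ⊆ U) :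
    ∃ χ : E3 → ℝ, RTest U χ ∧ (∀ᶠ y in 𝓝ˢ K, χ y = 1) ∧ ∀ y, χ y ∈ Icc (0:ℝ) 1 := by
  obtain ⟨V, hV, hKV, hVU, hVc⟩ := exists_open_between_and_isCompact_closure hK hU h
  obtain ⟨f, h0, h1, h2⟩ := exists_contMDiffMap_zero_one_nhds_of_isClosed (n := ⊤)
    (𝓘(ℝ, E3)) (s := Vᶜ) (t := K) hV.isClosed_compl hK.isClosed
    (disjoint_compl_left_iff_subset.2 hKV)
  have hsupp : tsupport (f : E3 → ℝ) ⊆ closure V := by
    refine closure_mono fun y hy => ?_
    by_contra hyV
    exact hy (h0.self_of_nhdsSet y hyV)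
  refine ⟨f, ⟨f.contMDiff.contDiff, hVc.of_isClosed_subset (isClosed_tsupport _) hsupp,
    hsupp.trans hVU⟩, h1, h2⟩

/-- the gradient vanishes off the support -/
theorem rgrad_eq_zero {χ : E3 → ℝ} {y : E3} (hy : y ∉ tsupport χ) (i : Fin 3) :
    rgrad χ i y = 0 := by
  have h : χ =ᶠ[𝓝 y] fun _ => 0 := notMem_tsupport_iff_eventuallyEq.1 hy
  unfold rgrad
  rw [h.fderiv_eq]
  simp

/-- the gradient vanishes where the function is locally constant -/
theorem rgrad_eq_zero_of_one {χ : E3 → ℝ} {K : Set E3} (h : ∀ᶠ y in 𝓝ˢ K, χ y = 1) {y : E3}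
    (hy : y ∈ K) (i : Fin 3) : rgrad χ i y = 0 := by
  have h : χ =ᶠ[𝓝 y] fun _ => 1 := (nhds_le_nhdsSet hy) h
  unfold rgrad
  rw [h.fderiv_eq]
  simp

/-- a smooth cut-off of a local `H¹` function is a global `H¹` function -/
theorem RH.cut {U : Set E3} (hU : MeasurableSet U) {f : E3 → ℝ} {g : Fin 3 → E3 → ℝ}
    (hf : RH U f g) {χ : E3 → ℝ} (hχ : RTest U χ) :
    H1 ee (fun y => χ y * f y) (fun i y => χ y * g i y + rgrad χ i y * f y) := by
  have z0 : ∀ y, y ∉ U → χ y = 0 := fun y hy =>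
    image_eq_zero_of_notMem_tsupport fun h => hy (hχ.sub h)
  have z1 : ∀ i y, y ∉ U → rgrad χ i y = 0 := fun i y hy =>
    rgrad_eq_zero (fun h => hy (hχ.sub h)) i
  have bd : ∀ {a : E3 → ℝ}, Continuous a → HasCompactSupport a → (∀ y, y ∉ U → a y = 0) →
      ∀ {u : E3 → ℝ}, SR U u → L2 (fun y => a y * u y) := by
    intro a ha hc h0 u hu
    obtain ⟨M, hM⟩ := hc.exists_bound_of_continuous ha
    have := (hu.l2 hU).bdd_mul ha.measurable M (fun x => by
      have := hM x; rwa [Real.norm_eq_abs] at this)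
    have e : (fun y => a y * u y) = fun y => a y * U.indicator u y := by
      ext y
      by_cases hy : y ∈ U
      · simp [hy]
      · simp [hy, h0 y hy]
    rw [e]; exact this
  have L0 : ∀ {u : E3 → ℝ}, SR U u → L2 (fun y => χ y * u y) := fun {u} hu =>
    bd hχ.smooth.continuous hχ.cpt z0 hu
  have L1 : ∀ i, ∀ {u : E3 → ℝ}, SR U u → L2 (fun y => rgrad χ i y * u y) := fun i {u} hu =>
    bd (rgrad_cont hχ.smooth i) (rgrad_cc hχ.cpt i) (z1 i) hu
  refine ⟨L0 hf.si, fun i => (L0 (hf.sig i)).add (L1 i hf.si), fun i => ?_⟩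
  intro φ hφ hc
  have hψ : RTest U (fun y => χ y * φ y) := ⟨hχ.smooth.mul hφ, hc.mul_left,
    (tsupport_mul_subset_left).trans hχ.sub⟩
  have h1 := hf.weak i _ hψ
  have hfd : ∀ y, fderiv ℝ (fun y => χ y * φ y) y (ee i) =
      χ y * fderiv ℝ φ y (ee i) + rgrad χ i y * φ y := by
    intro y
    rw [fderiv_fun_mul (hχ.smooth.differentiable (by norm_num) y)
      (hφ.differentiable (by norm_num) y)]
    unfold rgrad
    simp; ring
  simp_rw [hfd] at h1
  rw [setIntegral_eq_integral_of_forall_compl_eq_zero (fun y hy => by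
      rw [z0 y hy, z1 i y hy]; ring), setIntegral_eq_integral_of_forall_compl_eq_zero (fun y hy => by
      rw [z0 y hy]; ring)] at h1
  have hD := fderiv_cc_continuous hφ (ee i)
  have hDs := fderiv_cc_support hc (ee i)
  have i1 := int_mul_cc (L0 hf.si) hD hDs
  have i2 := int_mul_cc (L1 i hf.si) hφ.continuous hc
  have i3 := int_mul_cc (L0 (hf.sig i)) hφ.continuous hc
  have e1 : ∫ y, f y * (χ y * fderiv ℝ φ y (ee i) + rgrad χ i y * φ y) =
      (∫ y, χ y * f y * fderiv ℝ φ y (ee i)) + ∫ y, rgrad χ i y * f y * φ y := by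
    rw [← integral_add i1 i2]; congr 1; ext y; ring
  have e2 : ∫ y, (χ y * g i y + rgrad χ i y * f y) * φ y =
      (∫ y, χ y * g i y * φ y) + ∫ y, rgrad χ i y * f y * φ y := by
    rw [← integral_add i3 i2]; congr 1; ext y; ring
  have e3 : ∫ y, g i y * (χ y * φ y) = ∫ y, χ y * g i y * φ y := by congr 1; ext y; ring
  rw [e2]
  rw [e1, e3] at h1
  linarith

/-- change of variables for a shift -/
theorem shift_int {B : Set E3} (hB : MeasurableSet B) (F : E3 → ℝ) (h : E3) :
    ∫ y in B, F (y + h) = ∫ y in {y | y - h ∈ B}, F y := by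
  have hB' : MeasurableSet {y : E3 | y - h ∈ B} := (measurable_sub_const h) hB
  rw [← integral_indicator hB, ← integral_indicator hB',
    ← integral_add_right_eq_self ({y : E3 | y - h ∈ B}.indicator F) h]
  congr 1; ext y
  by_cases hy : y ∈ B <;> simp [indicator, hy]

theorem setInt_sq_mono {A B : Set E3} (hAB : A ⊆ B) (hB : MeasurableSet B) {f : E3 → ℝ}
    (hf : IntegrableOn (fun y => f y ^ 2) B) : ∫ y in A, f y ^ 2 ≤ ∫ y in B, f y ^ 2 :=
  setIntegral_mono_set hf (by filter_upwards with y using sq_nonneg _) (hAB.eventuallyLE)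

theorem setInt_union_le {A B : Set E3} (hA : MeasurableSet A) (hB : MeasurableSet B) {f : E3 → ℝ}
    (hfA : IntegrableOn (fun y => f y ^ 2) A) (hfB : IntegrableOn (fun y => f y ^ 2) B) :
    ∫ y in A ∪ B, f y ^ 2 ≤ (∫ y in A, f y ^ 2) + ∫ y in B, f y ^ 2 := by
  rw [← union_sdiff_self, setIntegral_union disjoint_sdiff_right (hB.diff hA) hfA
    (hfB.mono_set sdiff_subset)]
  exact add_le_add le_rfl (setInt_sq_mono sdiff_subset hB hfB)

/-- localisation of a convergence statement by compactness -/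
theorem cover_tendsto {K U : Set E3} (hK : IsCompact K) (hU : MeasurableSet U)
    {f : ℕ → E3 → ℝ} (hf : ∀ n, IntegrableOn (fun y => f n y ^ 2) U)
    (loc : ∀ z ∈ K, ∃ r > 0,
      Tendsto (fun n => ∫ y in Metric.ball z r ∩ U, f n y ^ 2) atTop (𝓝 0)) (hUK : U ⊆ K) :
    Tendsto (fun n => ∫ y in U, f n y ^ 2) atTop (𝓝 0) := by
  have key : ∃ V, MeasurableSet V ∧ K ⊆ V ∧
      Tendsto (fun n => ∫ y in V ∩ U, f n y ^ 2) atTop (𝓝 0) := by
    refine hK.induction_on (p := fun s => ∃ V, MeasurableSet V ∧ s ⊆ V ∧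
      Tendsto (fun n => ∫ y in V ∩ U, f n y ^ 2) atTop (𝓝 0)) ?_ ?_ ?_ ?_
    · exact ⟨∅, MeasurableSet.empty, subset_rfl, by simp⟩
    · rintro s t hst ⟨V, hV, htV, hlim⟩
      exact ⟨V, hV, hst.trans htV, hlim⟩
    · rintro s t ⟨V, hV, hsV, hlim⟩ ⟨V', hV', htV, hlim'⟩
      refine ⟨V ∪ V', hV.union hV', union_subset_union hsV htV, ?_⟩
      refine squeeze_zero (fun n => integral_nonneg fun y => sq_nonneg _) (fun n => ?_)
        (by simpa using hlim.add hlim')
      rw [union_inter_distrib_right]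
      exact setInt_union_le (hV.inter hU) (hV'.inter hU) ((hf n).mono_set inter_subset_right)
        ((hf n).mono_set inter_subset_right)
    · intro z hz
      obtain ⟨r, hr, hlim⟩ := loc z hz
      exact ⟨Metric.ball z r, mem_nhdsWithin_of_mem_nhds (Metric.ball_mem_nhds z hr),
        Metric.ball z r, Metric.isOpen_ball.measurableSet, subset_rfl, hlim⟩
  obtain ⟨V, -, hKV, hlim⟩ := key
  rwa [inter_eq_right.2 (hUK.trans hKV)] at hlim

/-- small admissible shifts that avoid a null set -/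
theorem Shifts.exists_small {C : Set E3} (hC : Shifts C) {N : Set E3} (hN : volume N = 0) {ε : ℝ}
    (hε : 0 < ε) : ∃ h ∈ C, ‖h‖ < ε ∧ h ∉ N := by
  have h1 := hC.pos ε hε
  have h2 : (C ∩ Metric.ball 0 ε) \ N ≠ ∅ := by
    intro h0
    have h3 : C ∩ Metric.ball 0 ε ⊆ N := sdiff_eq_empty.1 h0
    exact h1.ne' (measure_mono_null h3 hN)
  obtain ⟨h, ⟨hC, hb⟩, hn⟩ := nonempty_iff_ne_empty.2 h2
  exact ⟨h, hC, by simpa using hb, hn⟩

/-- **Lemma A.** No concentration of `L²` mass on the thin set `S`. -/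
theorem lemmaA {Ω D : Set E3} (hΩ : IsOpen Ω) (hDΩ : closure D ⊆ Ω) (hDb : IsCompact (closure D))
    (int : ∀ z ∈ closure D, ∃ r > 0, ∃ C, Shifts C ∧
      ∀ y ∈ Metric.ball z r ∩ closure D, ∀ h ∈ C, y + h ∈ closure D)
    {S : Set E3} (hS : IsCompact S) (hS0 : volume {y : E3 | ∃ p ∈ S, ∃ q ∈ S, y = p - q} = 0)
    {f : ℕ → E3 → ℝ} {g : ℕ → Fin 3 → E3 → ℝ} (hf : ∀ n, RH Ω (f n) (g n))
    (b1 : ∀ n i, ∫ y in closure D, g n i y ^ 2 ≤ 1)
    (off : ∀ K, IsCompact K → K ⊆ Ω \ S → Tendsto (fun n => ∫ y in K, f n y ^ 2) atTop (𝓝 0)) :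
    Tendsto (fun n => ∫ y in closure D, f n y ^ 2) atTop (𝓝 0) := by
  have hcl : MeasurableSet (closure D) := isClosed_closure.measurableSet
  obtain ⟨χ, hχ, hχ1, -⟩ := exists_cutoff hDb hΩ hDΩ
  have hF : ∀ n, H1 (⇑bas) (fun y => χ y * f n y) (fun i y => χ y * g n i y + rgrad χ i y * f n y) :=
    fun n => by rw [bas_coe]; exact (hf n).cut hΩ.measurableSet hχ
  have one : ∀ y ∈ closure D, χ y = 1 := fun y hy => hχ1.self_of_nhdsSet y hy
  obtain ⟨Cb, hCb, hrep⟩ := exists_repr_bound bas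
  have intf : ∀ n, IntegrableOn (fun y => f n y ^ 2) (closure D) := fun n => (hf n).sq.mono_set hDΩ
  -- local claim
  have loc : ∀ z ∈ closure D, ∃ r > 0,
      Tendsto (fun n => ∫ y in Metric.ball z r ∩ closure D, f n y ^ 2) atTop (𝓝 0) := by
    intro z hz
    obtain ⟨r, hr, C, hC, hint⟩ := int z hz
    refine ⟨r, hr, ?_⟩
    rw [Metric.tendsto_atTop]
    intro ε hε
    -- choose the shift
    obtain ⟨η, hη, hηε⟩ : ∃ η > 0, 6 * Cb * η ^ 2 < ε / 2 := by
      refine ⟨min 1 (ε / (24 * Cb)), by positivity, ?_⟩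
      set m := min 1 (ε / (24 * Cb)) with hm
      have h1 : m ≤ 1 := min_le_left _ _
      have h2 : m ≤ ε / (24 * Cb) := min_le_right _ _
      have h0 : 0 < m := by positivity
      have h3 : m ^ 2 ≤ m := by nlinarith
      have h4 : m * (24 * Cb) ≤ ε := by rwa [le_div_iff₀ (by positivity)] at h2
      have h5 : 6 * Cb * m ^ 2 ≤ 6 * Cb * m := mul_le_mul_of_nonneg_left h3 (by positivity)
      nlinarith
    obtain ⟨h, hhC, hhη, hhS⟩ := hC.exists_small hS0 hη
    -- a thickening of `S` moved off `S`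
    have hS' : IsCompact ((fun p : E3 => p - h) '' S) := hS.image (continuous_sub_right h)
    have hdisj : Disjoint S ((fun p : E3 => p - h) '' S) := by
      rw [Set.disjoint_left]
      rintro q hq ⟨p, hp, hpq⟩
      exact hhS ⟨p, hp, q, hq, by rw [← hpq]; simp⟩
    obtain ⟨δ, hδ, hd⟩ := hdisj.exists_cthickenings hS hS'.isClosed
    set T := Metric.cthickening δ S with hT
    have hTS : ∀ y ∈ T, y + h ∉ S := by
      intro y hy hyS
      refine (Set.disjoint_left.1 hd) hy (Metric.self_subset_cthickening _ ⟨y + h, hyS, by simp⟩)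
    have hTc : IsClosed T := Metric.isClosed_cthickening
    have hTm : MeasurableSet T := hTc.measurableSet
    set K1 := closure D \ Metric.thickening δ S with hK1
    set K2 := closure D ∩ {y | y - h ∈ T} with hK2
    have cK1 : IsCompact K1 := hDb.diff Metric.isOpen_thickening
    have cK2 : IsCompact K2 := hDb.inter_right (hTc.preimage (continuous_sub_right h))
    have sK1 : K1 ⊆ Ω \ S := fun y hy =>
      ⟨hDΩ hy.1, fun hyS => hy.2 (Metric.self_subset_thickening hδ _ hyS)⟩
    have sK2 : K2 ⊆ Ω \ S := fun y hy => ⟨hDΩ hy.1, fun hyS => by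
      have := hTS _ hy.2
      rw [sub_add_cancel] at this
      exact this hyS⟩
    have t1 := off K1 cK1 sK1
    have t2 := off K2 cK2 sK2
    set A := Metric.ball z r ∩ closure D with hA
    have hAm : MeasurableSet A := Metric.isOpen_ball.measurableSet.inter hcl
    have main : ∀ n, ∫ y in A, f n y ^ 2 ≤
        (∫ y in K1, f n y ^ 2) + (2 * (∫ y in K2, f n y ^ 2) + 6 * Cb * η ^ 2) := by
      intro n
      have iA : IntegrableOn (fun y => f n y ^ 2) A := (intf n).mono_set inter_subset_right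
      have s1 : ∫ y in A, f n y ^ 2 = (∫ y in A ∩ T, f n y ^ 2) + ∫ y in A \ T, f n y ^ 2 :=
        (integral_inter_add_sdiff hTm iA).symm
      have s2 : ∫ y in A \ T, f n y ^ 2 ≤ ∫ y in K1, f n y ^ 2 := by
        refine setInt_sq_mono ?_ cK1.isClosed.measurableSet ((intf n).mono_set sdiff_subset)
        rintro y ⟨⟨-, hy⟩, hyT⟩
        exact ⟨hy, fun h' => hyT (Metric.thickening_subset_cthickening _ _ h')⟩
      have hATm : MeasurableSet (A ∩ T) := hAm.inter hTm
      have seg : ∀ x ∈ A ∩ T, ∀ s ∈ Icc (0:ℝ) 1, x + s • h ∈ closure D := by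
        rintro x ⟨hxA, -⟩ s ⟨hs0, hs1⟩
        rcases hs0.eq_or_lt with rfl | hs
        · simpa using hxA.2
        · exact hint x hxA _ (hC.scale h hhC s hs hs1)
      have tl := (hF n).trans_loc h hATm hcl seg
      have g1 : ∀ i, ∫ x in closure D, (χ x * g n i x + rgrad χ i x * f n x) ^ 2 ≤ 1 := by
        intro i
        have : ∫ x in closure D, (χ x * g n i x + rgrad χ i x * f n x) ^ 2 =
            ∫ x in closure D, g n i x ^ 2 := by
          refine setIntegral_congr_fun hcl fun x hx => ?_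
          show (χ x * g n i x + rgrad χ i x * f n x) ^ 2 = g n i x ^ 2
          rw [one x hx, rgrad_eq_zero_of_one hχ1 hx]; ring
        rw [this]; exact b1 n i
      have tl2 : ∫ x in A ∩ T, (χ (x + h) * f n (x + h) - χ x * f n x) ^ 2 ≤ 3 * Cb * η ^ 2 := by
        refine tl.trans ?_
        have a1 : ∑ i, bas.repr h i ^ 2 ≤ Cb * η ^ 2 := by
          refine (hrep h).trans ?_
          gcongr
        have a2 : ∑ i, ∫ x in closure D, (χ x * g n i x + rgrad χ i x * f n x) ^ 2 ≤ 3 := by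
          refine (Finset.sum_le_sum fun i _ => g1 i).trans ?_
          simp
        have a3 : 0 ≤ ∑ i, ∫ x in closure D, (χ x * g n i x + rgrad χ i x * f n x) ^ 2 :=
          Finset.sum_nonneg fun i _ => integral_nonneg fun x => sq_nonneg _
        calc _ ≤ (Cb * η ^ 2) * 3 := mul_le_mul a1 a2 a3 (by positivity)
          _ = _ := by ring
      have L := (hF n).1
      have Lh := L.translate h
      have s3 : ∫ y in A ∩ T, f n y ^ 2 ≤
          ∫ y in A ∩ T, (2 * (χ (y + h) * f n (y + h) - χ y * f n y) ^ 2 +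
            2 * (χ (y + h) * f n (y + h)) ^ 2) := by
        refine setIntegral_mono_on (iA.mono_set inter_subset_left) ?_ hATm ?_
        · exact ((Lh.sub L).2.integrableOn.const_mul 2).add (Lh.2.integrableOn.const_mul 2)
        · intro y hy
          rw [one y hy.1.2, one_mul]
          nlinarith [sq_nonneg (2 * (χ (y + h) * f n (y + h)) - f n y)]
      have s4 : ∫ y in A ∩ T, (2 * (χ (y + h) * f n (y + h) - χ y * f n y) ^ 2 +
            2 * (χ (y + h) * f n (y + h)) ^ 2) =
          2 * (∫ y in A ∩ T, (χ (y + h) * f n (y + h) - χ y * f n y) ^ 2) +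
            2 * ∫ y in A ∩ T, (χ (y + h) * f n (y + h)) ^ 2 := by
        rw [integral_add ((Lh.sub L).2.integrableOn.const_mul 2) (Lh.2.integrableOn.const_mul 2),
          integral_const_mul, integral_const_mul]
      have s5 : ∫ y in A ∩ T, (χ (y + h) * f n (y + h)) ^ 2 ≤ ∫ y in K2, f n y ^ 2 := by
        rw [shift_int hATm (fun y => (χ y * f n y) ^ 2) h]
        have hsub : {y | y - h ∈ A ∩ T} ⊆ K2 := by
          rintro y ⟨hyA, hyT⟩
          refine ⟨?_, hyT⟩
          have := hint (y - h) hyA h hhC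
          rwa [sub_add_cancel] at this
        refine (setInt_sq_mono hsub cK2.isClosed.measurableSet L.2.integrableOn).trans ?_
        refine le_of_eq (setIntegral_congr_fun cK2.isClosed.measurableSet fun y hy => ?_)
        show (χ y * f n y) ^ 2 = f n y ^ 2
        rw [one y hy.1, one_mul]
      linarith
    have lim := t1.add ((t2.const_mul 2).add_const (6 * Cb * η ^ 2))
    simp only [mul_zero, zero_add] at lim
    have ev := lim.eventually_lt_const (show 6 * Cb * η ^ 2 < ε by linarith)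
    obtain ⟨N, hN⟩ := eventually_atTop.1 ev
    refine ⟨N, fun n hn => ?_⟩
    rw [Real.dist_eq, sub_zero, abs_of_nonneg (integral_nonneg fun y => sq_nonneg _)]
    exact (main n).trans_lt (hN n hn)
  exact cover_tendsto hDb hcl intf loc subset_rfl

end Pool.Agent.P8H23.PM
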