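import Pool.Agent.P8H23.PM.Defs
import Pool.Agent.Helper985.VR.G

/-!
# The Caccioppoli identity for weak solutions of the Helmholtz equation
-/

set_option autoImplicit false
set_option linter.unusedSectionVars false

open MeasureTheory Filter Topology Set
open scoped ContDiff

namespace Pool.Agent.P8H23.PM

open Pool.Agent.Helper985.VR

namespace PackC

section ker

variable {X : Type*} [NormedAddCommGroup X] [InnerProductSpace ℝ X] [FiniteDimensional ℝ X]
  [MeasureSpace X] [BorelSpace X] [(volume : Measure X).IsAddHaarMeasure]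

/-- smooth kernels -/
theorem exists_smooth_ker {ε : ℝ} (hε : 0 < ε) :
    ∃ k : X → ℝ, Ker k ε ∧ ContDiff ℝ ∞ k ∧ HasCompactSupport k := by
  let f : ContDiffBump (0 : X) := ⟨ε / 2, ε, half_pos hε, half_lt_self hε⟩
  have hs : ContDiff ℝ ∞ (f.normed volume) := f.contDiff_normed
  have hc : HasCompactSupport (f.normed (volume : Measure X)) := f.hasCompactSupport_normed
  refine ⟨f.normed volume, ⟨hs.continuous.measurable, fun x => f.nonneg_normed x, ?_,
    f.integrable_normed, f.integral_normed, fun x hx => ?_⟩, hs, hc⟩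
  · obtain ⟨C, hC⟩ := hc.exists_bound_of_continuous hs.continuous
    exact ⟨C, fun x => (le_abs_self _).trans (hC x)⟩
  · have h1 : x ∉ Function.support (f.normed (volume : Measure X)) := by
      rw [f.support_normed_eq]
      simp only [Metric.mem_ball, dist_zero_right, not_lt]
      exact hx
    simpa using h1

/-- the mollification is smooth -/
theorem Mol_smooth {k : X → ℝ} (hk : ContDiff ℝ ∞ k) (hc : HasCompactSupport k) {f : X → ℝ}
    (hf : L2 f) : ContDiff ℝ ∞ (Mol k f) := by
  have hk' : ContDiff ℝ ∞ (fun z => k (-z)) := hk.comp contDiff_neg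
  have hc' : HasCompactSupport (fun z => k (-z)) := hc.comp_homeomorph (Homeomorph.neg X)
  have h := hc'.contDiff_convolution_right (μ := (volume : Measure X)) (𝕜 := ℝ)
    (ContinuousLinearMap.mul ℝ ℝ) (f := f) (n := ⊤) hf.loc hk'
  have e : Mol k f = MeasureTheory.convolution f (fun z => k (-z)) (ContinuousLinearMap.mul ℝ ℝ)
      (volume : Measure X) := by
    funext x
    rw [Mol_eq]
    unfold MeasureTheory.convolution
    refine integral_congr_ae (Eventually.of_forall fun y => ?_)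
    simp only [ContinuousLinearMap.mul_apply']
    congr 2
    abel
  rw [e]
  exact h

/-- the derivative of the mollification -/
theorem Mol_fderiv {k : X → ℝ} (hk : ContDiff ℝ ∞ k) (hc : HasCompactSupport k) {f g : X → ℝ}
    (hf : L2 f) {e : X} (h : WD e f g) (x : X) :
    fderiv ℝ (Mol k f) x e = Mol k g x := by
  have hφ : ContDiff ℝ ∞ fun y => k (y - x) := shift_smooth hk x
  have hφc : HasCompactSupport fun y => k (y - x) := shift_cc hc x
  have h1 := pair_hasDerivAt hf hφ hφc e 0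
  have h2 : - ∫ y, f y * fderiv ℝ (fun y => k (y - x)) (y - (0:ℝ) • e) e = Mol k g x := by
    rw [Mol_eq]
    simp only [zero_smul, sub_zero]
    rw [h _ hφ hφc, neg_neg]
  rw [h2] at h1
  have h3 : HasDerivAt (fun s : ℝ => Mol k f (x + s • e)) (fderiv ℝ (Mol k f) x e) 0 := by
    have h4 : HasFDerivAt (Mol k f) (fderiv ℝ (Mol k f) (x + (0:ℝ) • e)) (x + (0:ℝ) • e) :=
      ((Mol_smooth hk hc hf).differentiable (by norm_num) _).hasFDerivAt
    have h5 : HasDerivAt (fun s : ℝ => x + s • e) e 0 := by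
      have := ((hasDerivAt_id (0:ℝ)).smul_const e).const_add x
      simpa using this
    have h6 := h4.comp_hasDerivAt (0:ℝ) h5
    simp only [zero_smul, add_zero] at h6
    exact h6
  have h7 : (fun s : ℝ => Mol k f (x + s • e)) = fun s : ℝ => ∫ y, f y * k (y - s • e - x) := by
    funext s
    rw [Mol_eq]
    refine integral_congr_ae (Eventually.of_forall fun y => ?_)
    simp only
    congr 2
    abel
  rw [h7] at h3
  exact h3.unique h1

/-- simultaneous mollification of finitely many functions -/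
theorem exists_mol {ι : Type*} [Fintype ι] {f : X → ℝ} {g : ι → X → ℝ} (hf : L2 f)
    (hg : ∀ i, L2 (g i)) {δ : ℝ} (hδ : 0 < δ) :
    ∃ (k : X → ℝ) (ε : ℝ), Ker k ε ∧ ContDiff ℝ ∞ k ∧ HasCompactSupport k ∧
      N2 (fun x => Mol k f x - f x) ≤ δ ∧ ∀ i, N2 (fun x => Mol k (g i) x - g i x) ≤ δ := by
  have h1 := (tendsto_translate hf).eventually (gt_mem_nhds hδ)
  have h2 : ∀ᶠ h : X in 𝓝 0, ∀ i, N2 (fun x => g i (x + h) - g i x) < δ :=
    Filter.eventually_all.2 fun i => (tendsto_translate (hg i)).eventually (gt_mem_nhds hδ)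
  obtain ⟨ε, hε, hball⟩ := Metric.eventually_nhds_iff_ball.1 (h1.and h2)
  obtain ⟨k, hk, hs, hc⟩ := exists_smooth_ker (X := X) hε
  refine ⟨k, ε, hk, hs, hc, ?_, fun i => ?_⟩
  · exact Mol_sub_le hk hf δ fun h hh => (hball h (by simpa using hh)).1.le
  · exact Mol_sub_le hk (hg i) δ fun h hh => ((hball h (by simpa using hh)).2 i).le

end ker

/-- a function supported in `U` which is a bounded multiple of a function square integrable on `U` -/
theorem L2_mul {U : Set E3} (hU : IsOpen U) {f : E3 → ℝ} (hf : Measurable f)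
    (hi : IntegrableOn (fun y => f y ^ 2) U) {χ : E3 → ℝ} (hχ : Continuous χ)
    (hc : HasCompactSupport χ) (hs : ∀ y, y ∉ U → χ y = 0) : L2 (fun y => χ y * f y) := by
  obtain ⟨M, hM⟩ := hc.exists_bound_of_continuous hχ
  refine ⟨hχ.measurable.mul hf, ?_⟩
  have h1 : Integrable (U.indicator fun y => M ^ 2 * f y ^ 2) :=
    (integrable_indicator_iff hU.measurableSet).2 (hi.const_mul _)
  refine Integrable.mono' h1 ((hχ.measurable.mul hf).pow_const 2).aestronglyMeasurable ?_
  filter_upwards with y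
  rw [Real.norm_eq_abs, abs_of_nonneg (sq_nonneg _)]
  by_cases hy : y ∈ U
  · rw [indicator_of_mem hy, mul_pow]
    refine mul_le_mul_of_nonneg_right ?_ (sq_nonneg _)
    have := hM y
    rw [Real.norm_eq_abs] at this
    exact sq_le_sq' (by linarith [neg_abs_le (χ y)]) ((le_abs_self _).trans this)
  · rw [indicator_of_notMem hy, hs y hy]
    simp

theorem RTest.eq_zero {U : Set E3} {χ : E3 → ℝ} (hχ : RTest U χ) {y : E3} (hy : y ∉ U) :
    χ y = 0 := image_eq_zero_of_notMem_tsupport fun h => hy (hχ.sub h)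

theorem RTest.grad_zero {U : Set E3} {χ : E3 → ℝ} (hχ : RTest U χ) {y : E3} (hy : y ∉ U)
    (i : Fin 3) : rgrad χ i y = 0 := by
  have h : y ∉ tsupport (fderiv ℝ χ) := fun h => hy (hχ.sub (tsupport_fderiv_subset ℝ h))
  unfold rgrad
  rw [image_eq_zero_of_notMem_tsupport h]
  rfl

theorem grad_cont {χ : E3 → ℝ} (hχ : ContDiff ℝ ∞ χ) (i : Fin 3) : Continuous (rgrad χ i) :=
  fderiv_cc_continuous hχ (ee i)

theorem grad_cc {χ : E3 → ℝ} (hc : HasCompactSupport χ) (i : Fin 3) :
    HasCompactSupport (rgrad χ i) := fderiv_cc_support hc (ee i)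

theorem grad_mul {χ φ : E3 → ℝ} (hχ : ContDiff ℝ ∞ χ) (hφ : ContDiff ℝ ∞ φ) (i : Fin 3) (y : E3) :
    rgrad (fun x => χ x * φ x) i y = χ y * rgrad φ i y + rgrad χ i y * φ y := by
  unfold rgrad
  rw [fderiv_fun_mul (hχ.differentiable (by norm_num) y) (hφ.differentiable (by norm_num) y)]
  simp
  ring

/-- products with smooth functions are test functions -/
theorem RTest.mul {U : Set E3} {χ φ : E3 → ℝ} (hχ : RTest U χ) (hφ : ContDiff ℝ ∞ φ) :
    RTest U (fun y => χ y * φ y) :=
  ⟨hχ.smooth.mul hφ, hχ.cpt.mul_right, (tsupport_mul_subset_left).trans hχ.sub⟩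

end PackC

open PackC

/-- **localisation** -/
theorem local_H1 {U : Set E3} (hU : IsOpen U) {f : E3 → ℝ} {g : Fin 3 → E3 → ℝ} (hf : RH U f g)
    {χ : E3 → ℝ} (hχ : RTest U χ) :
    H1 ee (fun y => χ y * f y) (fun i y => χ y * g i y + rgrad χ i y * f y) := by
  have l0 : L2 (fun y => χ y * f y) := L2_mul hU hf.meas hf.sq hχ.smooth.continuous hχ.cpt
    fun y hy => RTest.eq_zero hχ hy
  have l1 : ∀ i, L2 (fun y => χ y * g i y) := fun i => L2_mul hU (hf.meas_grad i) (hf.sq_grad i)
    hχ.smooth.continuous hχ.cpt fun y hy => RTest.eq_zero hχ hy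
  have l2 : ∀ i, L2 (fun y => rgrad χ i y * f y) := fun i => L2_mul hU hf.meas hf.sq
    (grad_cont hχ.smooth i) (grad_cc hχ.cpt i) fun y hy => RTest.grad_zero hχ hy i
  refine ⟨l0, fun i => (l1 i).add (l2 i), fun i φ hφ hc => ?_⟩
  have hw := hf.weak i _ (RTest.mul hχ hφ)
  have e1 : ∫ y in U, f y * fderiv ℝ (fun x => χ x * φ x) y (ee i) =
      ∫ y, f y * (χ y * rgrad φ i y + rgrad χ i y * φ y) := by
    rw [← integral_indicator hU.measurableSet]
    refine integral_congr_ae (Eventually.of_forall fun y => ?_)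
    simp only
    by_cases hy : y ∈ U
    · rw [indicator_of_mem hy]
      have := grad_mul hχ.smooth hφ i y
      unfold rgrad at this ⊢
      rw [this]
    · rw [indicator_of_notMem hy, RTest.eq_zero hχ hy, RTest.grad_zero hχ hy i]
      ring
  have e2 : ∫ y in U, g i y * (χ y * φ y) = ∫ y, g i y * (χ y * φ y) := by
    rw [← integral_indicator hU.measurableSet]
    refine integral_congr_ae (Eventually.of_forall fun y => ?_)
    simp only
    by_cases hy : y ∈ U
    · rw [indicator_of_mem hy]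
    · rw [indicator_of_notMem hy, RTest.eq_zero hχ hy]
      ring
  have hφL : L2 φ := L2_of_cc hφ.continuous hc
  have hφ'L : L2 (rgrad φ i) := L2_of_cc (grad_cont hφ i) (grad_cc hc i)
  have i1 : Integrable fun y => (χ y * f y) * rgrad φ i y := l0.mul hφ'L
  have i2 : Integrable fun y => (rgrad χ i y * f y) * φ y := (l2 i).mul hφL
  have i3 : Integrable fun y => (χ y * g i y) * φ y := (l1 i).mul hφL
  have e3 : ∫ y, f y * (χ y * rgrad φ i y + rgrad χ i y * φ y) =
      (∫ y, (χ y * f y) * rgrad φ i y) + ∫ y, (rgrad χ i y * f y) * φ y := by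
    rw [← integral_add i1 i2]
    congr 1
    ext y
    ring
  have e4 : ∫ y, g i y * (χ y * φ y) = ∫ y, (χ y * g i y) * φ y := by
    congr 1
    ext y
    ring
  have e5 : ∫ y, (χ y * g i y + rgrad χ i y * f y) * φ y =
      (∫ y, (χ y * g i y) * φ y) + ∫ y, (rgrad χ i y * f y) * φ y := by
    rw [← integral_add i3 i2]
    congr 1
    ext y
    ring
  have e6 : (∫ y, χ y * f y * fderiv ℝ φ y (ee i)) = ∫ y, (χ y * f y) * rgrad φ i y := rfl
  rw [e1, e2, e3, e4] at hw
  rw [e5, e6]
  linarith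

/-- **the Caccioppoli identity** -/
theorem cacc {U : Set E3} (hU : IsOpen U) {k : ℝ} {f : E3 → ℝ} {g : Fin 3 → E3 → ℝ}
    (hf : RH U f g) (hsol : RSolves U k f g) {χ : E3 → ℝ} (hχ : RTest U χ) :
    ∫ y, ∑ i, (χ y * g i y + rgrad χ i y * f y) ^ 2 =
      (∫ y, (∑ i, rgrad χ i y ^ 2) * f y ^ 2) + k ^ 2 * ∫ y, (χ y * f y) ^ 2 := by
  set F : E3 → ℝ := fun y => χ y * f y with hF
  set G : Fin 3 → E3 → ℝ := fun i y => χ y * g i y + rgrad χ i y * f y with hG
  have hH : H1 ee F G := local_H1 hU hf hχ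
  obtain ⟨hFL, hGL, hWD⟩ := hH
  have lq : ∀ i, L2 (fun y => χ y * g i y) := fun i => L2_mul hU (hf.meas_grad i) (hf.sq_grad i)
    hχ.smooth.continuous hχ.cpt fun y hy => RTest.eq_zero hχ hy
  have lp : ∀ i, L2 (fun y => rgrad χ i y * g i y) := fun i => L2_mul hU (hf.meas_grad i)
    (hf.sq_grad i) (grad_cont hχ.smooth i) (grad_cc hχ.cpt i)
    fun y hy => RTest.grad_zero hχ hy i
  have lu : ∀ i, L2 (fun y => rgrad χ i y * f y) := fun i => L2_mul hU hf.meas hf.sq
    (grad_cont hχ.smooth i) (grad_cc hχ.cpt i) fun y hy => RTest.grad_zero hχ hy i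
  -- mollifications
  choose κ ε hκ hκs hκc hκF hκG using fun n : ℕ =>
    exists_mol hFL hGL (by positivity : (0:ℝ) < 1 / ((n:ℝ) + 1))
  have hML : ∀ n, L2 (Mol (κ n) F) := fun n => (Mol_L2 (hκ n) hFL).1
  have hMGL : ∀ n i, L2 (Mol (κ n) (G i)) := fun n i => (Mol_L2 (hκ n) (hGL i)).1
  have hlim : Tendsto (fun n : ℕ => (1:ℝ) / ((n:ℝ) + 1)) atTop (𝓝 0) :=
    tendsto_one_div_add_atTop_nhds_zero_nat
  have tF : Tendsto (fun n => N2 (fun x => Mol (κ n) F x - F x)) atTop (𝓝 0) :=
    squeeze_zero (fun n => N2_nonneg _) hκF hlim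
  have tG : ∀ i, Tendsto (fun n => N2 (fun x => Mol (κ n) (G i) x - G i x)) atTop (𝓝 0) :=
    fun i => squeeze_zero (fun n => N2_nonneg _) (fun n => hκG n i) hlim
  -- the equation tested with `χ * Mol F`
  have heq : ∀ n, (∑ i, ((∫ y, Mol (κ n) (G i) y * (χ y * g i y)) +
      ∫ y, Mol (κ n) F y * (rgrad χ i y * g i y))) = k ^ 2 * ∫ y, Mol (κ n) F y * F y := by
    intro n
    have hsm := Mol_smooth (hκs n) (hκc n) hFL
    have h1 := hsol _ (RTest.mul hχ hsm)
    unfold rform at h1
    rw [← integral_indicator hU.measurableSet] at h1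
    have e1 : (∫ y, U.indicator (fun y => (∑ i, g i y *
        rgrad (fun y => χ y * Mol (κ n) F y) i y) - k ^ 2 * (f y * (χ y * Mol (κ n) F y))) y) =
        ∫ y, ((∑ i, (Mol (κ n) (G i) y * (χ y * g i y) +
          Mol (κ n) F y * (rgrad χ i y * g i y))) - k ^ 2 * (Mol (κ n) F y * F y)) := by
      refine integral_congr_ae (Eventually.of_forall fun y => ?_)
      simp only
      by_cases hy : y ∈ U
      · rw [indicator_of_mem hy]
        congr 1
        · refine Finset.sum_congr rfl fun i _ => ?_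
          rw [grad_mul hχ.smooth hsm i y]
          have : rgrad (Mol (κ n) F) i y = Mol (κ n) (G i) y :=
            Mol_fderiv (hκs n) (hκc n) hFL (hWD i) y
          rw [this]
          ring
        · rw [hF]
          ring
      · rw [indicator_of_notMem hy]
        simp only [hF, RTest.eq_zero hχ hy, RTest.grad_zero hχ hy, zero_mul, mul_zero, add_zero,
          Finset.sum_const_zero, sub_zero]
    rw [e1] at h1
    have i1 : ∀ i, Integrable fun y => Mol (κ n) (G i) y * (χ y * g i y) := fun i =>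
      (hMGL n i).mul (lq i)
    have i2 : ∀ i, Integrable fun y => Mol (κ n) F y * (rgrad χ i y * g i y) := fun i =>
      (hML n).mul (lp i)
    have i3 : Integrable fun y => Mol (κ n) F y * F y := (hML n).mul hFL
    have i5 : ∀ i, Integrable fun y => (Mol (κ n) (G i) y * (χ y * g i y) +
          Mol (κ n) F y * (rgrad χ i y * g i y)) := fun i => (i1 i).add (i2 i)
    have i4 : Integrable fun y => ∑ i, (Mol (κ n) (G i) y * (χ y * g i y) +
          Mol (κ n) F y * (rgrad χ i y * g i y)) :=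
      integrable_finsetSum _ fun i _ => i5 i
    have i6 : Integrable fun y => k ^ 2 * (Mol (κ n) F y * F y) := i3.const_mul _
    rw [integral_sub i4 i6, integral_const_mul,
      integral_finsetSum _ (fun i _ => i5 i)] at h1
    have h7 : (∑ i, ∫ y, (Mol (κ n) (G i) y * (χ y * g i y) +
          Mol (κ n) F y * (rgrad χ i y * g i y))) =
        ∑ i, ((∫ y, Mol (κ n) (G i) y * (χ y * g i y)) +
      ∫ y, Mol (κ n) F y * (rgrad χ i y * g i y)) :=
      Finset.sum_congr rfl fun i _ => integral_add (i1 i) (i2 i)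
    rw [h7] at h1
    linarith
  have hleft : Tendsto (fun n => ∑ i, ((∫ y, Mol (κ n) (G i) y * (χ y * g i y)) +
      ∫ y, Mol (κ n) F y * (rgrad χ i y * g i y))) atTop
      (𝓝 (∑ i, ((∫ y, G i y * (χ y * g i y)) + ∫ y, F y * (rgrad χ i y * g i y)))) :=
    tendsto_finsetSum _ fun i _ =>
      (tendsto_pair_of_N2 (fun n => hMGL n i) (hGL i) (tG i) (lq i)).add
        (tendsto_pair_of_N2 hML hFL tF (lp i))
  have hright : Tendsto (fun n => k ^ 2 * ∫ y, Mol (κ n) F y * F y) atTop
      (𝓝 (k ^ 2 * ∫ y, F y * F y)) :=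
    (tendsto_pair_of_N2 hML hFL tF hFL).const_mul _
  rw [funext heq] at hleft
  have key := tendsto_nhds_unique hleft hright
  -- algebra
  have a1 : ∫ y, ∑ i, G i y ^ 2 = ∑ i, ∫ y, G i y ^ 2 :=
    integral_finsetSum _ fun i _ => (hGL i).2
  have a2 : ∫ y, (∑ i, rgrad χ i y ^ 2) * f y ^ 2 = ∑ i, ∫ y, (rgrad χ i y * f y) ^ 2 := by
    rw [← integral_finsetSum _ fun i _ => (lu i).2]
    congr 1
    ext y
    rw [Finset.sum_mul]
    exact Finset.sum_congr rfl fun i _ => by ring
  have a3 : ∀ i, ∫ y, G i y ^ 2 = (∫ y, G i y * (χ y * g i y)) +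
      ((∫ y, F y * (rgrad χ i y * g i y)) + ∫ y, (rgrad χ i y * f y) ^ 2) := by
    intro i
    have j1 : Integrable fun y => F y * (rgrad χ i y * g i y) := hFL.mul (lp i)
    have j2 : Integrable fun y => (rgrad χ i y * f y) ^ 2 := (lu i).2
    have j3 : Integrable fun y => G i y * (χ y * g i y) := (hGL i).mul (lq i)
    have j4 : Integrable fun y => F y * (rgrad χ i y * g i y) + (rgrad χ i y * f y) ^ 2 :=
      j1.add j2
    rw [← integral_add j1 j2, ← integral_add j3 j4]
    congr 1
    ext y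
    simp only [hF, hG]
    ring
  have a4 : ∫ y, F y * F y = ∫ y, F y ^ 2 := by
    congr 1
    ext y
    ring
  have a5 : (∫ y, ∑ i, (χ y * g i y + rgrad χ i y * f y) ^ 2) = ∫ y, ∑ i, G i y ^ 2 := rfl
  have a6 : ∫ y, (χ y * f y) ^ 2 = ∫ y, F y ^ 2 := rfl
  rw [a5, a1, a2, a6, ← a4, ← key]
  simp_rw [a3]
  simp only [Finset.sum_add_distrib]
  ring

end Pool.Agent.P8H23.PM
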