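import Pool.Agent.P8H23.PM.Tail
import Pool.Agent.P8H23.PM.Geo
import Pool.Agent.P8H23.PM.PackC

set_option autoImplicit false

open MeasureTheory Filter Topology Set
open scoped ContDiff ENNReal Manifold
open Pool.Agent.Helper985.VR

namespace Pool.Agent.P8H23.PM

/-- bounded sequences which tend to zero off a null set tend weakly to zero -/
theorem weak_zero_off {A S : Set E3} (hA : IsCompact A) (hS : IsCompact S) (hS0 : volume S = 0)
    {f : ℕ → E3 → ℝ} (hf : ∀ n, SR A (f n)) (hb : ∀ n, ∫ y in A, f n y ^ 2 ≤ 1)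
    (off : ∀ K, IsCompact K → K ⊆ A \ S → Tendsto (fun n => ∫ y in K, f n y ^ 2) atTop (𝓝 0))
    {ψ : E3 → ℝ} (hψ : Continuous ψ) :
    Tendsto (fun n => ∫ y in A, f n y * ψ y) atTop (𝓝 0) := by
  have hAm : MeasurableSet A := hA.isClosed.measurableSet
  have sψ : ∀ {B : Set E3}, B ⊆ A → SR B ψ := fun {B} hB =>
    ⟨hψ.measurable, ((hψ.pow 2).continuousOn.integrableOn_compact hA).mono_set hB⟩
  suffices h : Tendsto (fun n => (∫ y in A, f n y * ψ y) ^ 2) atTop (𝓝 0) by
    have := h.sqrt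
    simp only [Real.sqrt_sq_eq_abs, Real.sqrt_zero] at this
    exact (tendsto_zero_iff_abs_tendsto_zero _).2 this
  rw [Metric.tendsto_atTop]
  intro ε hε
  -- a bound of `ψ` on `A`
  obtain ⟨B, hB⟩ := hA.exists_bound_of_continuousOn hψ.continuousOn
  set B' := B ^ 2 + 1 with hB'
  have hB'0 : 0 < B' := by positivity
  -- small neighbourhoods
  have hlim := tendsto_measure_cthickening_of_isCompact (μ := (volume : Measure E3)) hS
  rw [hS0] at hlim
  have hev : ∀ᶠ r : ℝ in 𝓝 0, volume (Metric.cthickening r S) < ENNReal.ofReal (ε / (4 * B')) :=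
    hlim.eventually_lt_const (by positivity)
  have hev2 : ∀ᶠ r : ℝ in 𝓝[>] 0, volume (Metric.cthickening r S) <
      ENNReal.ofReal (ε / (4 * B')) := hev.filter_mono nhdsWithin_le_nhds
  obtain ⟨δ, hδv, hδ⟩ := (hev2.and self_mem_nhdsWithin).exists
  have hδ0 : 0 < δ := hδ
  set T := Metric.thickening δ S with hT
  have hTm : MeasurableSet T := Metric.isOpen_thickening.measurableSet
  have hTv : volume T ≤ ENNReal.ofReal (ε / (4 * B')) :=
    (measure_mono (Metric.thickening_subset_cthickening _ _)).trans hδv.le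
  set K := A \ T with hK
  have hKc : IsCompact K := hA.diff Metric.isOpen_thickening
  have hKs : K ⊆ A \ S := fun y hy => ⟨hy.1, fun h => hy.2 (Metric.self_subset_thickening hδ0 _ h)⟩
  have t := (off K hKc hKs).const_mul (2 * ∫ y in A, ψ y ^ 2)
  rw [mul_zero] at t
  obtain ⟨N, hN⟩ := eventually_atTop.1 (t.eventually_lt_const (show 0 < ε / 2 by positivity))
  refine ⟨N, fun n hn => ?_⟩
  rw [Real.dist_eq, sub_zero, abs_of_nonneg (sq_nonneg _)]
  have s1 : ∫ y in A, f n y * ψ y = (∫ y in A ∩ T, f n y * ψ y) + ∫ y in K, f n y * ψ y :=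
    (integral_inter_add_sdiff hTm ((hf n).mul (sψ subset_rfl))).symm
  have c1 := cs_set (hAm.inter hTm) ((hf n).mono inter_subset_left) (sψ inter_subset_left)
  have c2 := cs_set (hAm.diff hTm) ((hf n).mono sdiff_subset) (sψ sdiff_subset)
  have b1 : ∫ y in A ∩ T, f n y ^ 2 ≤ 1 :=
    (setInt_sq_mono inter_subset_left hAm (hf n).2).trans (hb n)
  have b2 : ∫ y in K, ψ y ^ 2 ≤ ∫ y in A, ψ y ^ 2 :=
    setInt_sq_mono sdiff_subset hAm (sψ subset_rfl).2
  have b3 : ∫ y in A ∩ T, ψ y ^ 2 ≤ ε / 4 := by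
    have h1 : ∫ y in A ∩ T, ψ y ^ 2 ≤ ∫ y in A ∩ T, B' := by
      refine setIntegral_mono_on (sψ inter_subset_left).2 ?_ (hAm.inter hTm) ?_
      · exact integrableOn_const ((measure_mono inter_subset_left).trans_lt hA.measure_lt_top).ne
      · intro y hy
        have := hB y hy.1
        rw [Real.norm_eq_abs] at this
        rw [← sq_abs]
        have h0 := abs_nonneg (ψ y)
        nlinarith
    rw [setIntegral_const, smul_eq_mul] at h1
    have h2 : volume.real (A ∩ T) ≤ ε / (4 * B') := by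
      unfold Measure.real
      refine ENNReal.toReal_le_of_le_ofReal (by positivity) ?_
      exact (measure_mono inter_subset_right).trans hTv
    have h3 : volume.real (A ∩ T) * B' ≤ ε / (4 * B') * B' :=
      mul_le_mul_of_nonneg_right h2 hB'0.le
    have h4 : ε / (4 * B') * B' = ε / 4 := by field_simp
    linarith
  have p1 : 0 ≤ ∫ y in A ∩ T, f n y ^ 2 := integral_nonneg fun y => sq_nonneg _
  have p2 : 0 ≤ ∫ y in A ∩ T, ψ y ^ 2 := integral_nonneg fun y => sq_nonneg _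
  have p3 : 0 ≤ ∫ y in K, f n y ^ 2 := integral_nonneg fun y => sq_nonneg _
  have q1 : (∫ y in A ∩ T, f n y * ψ y) ^ 2 ≤ ε / 4 := by
    refine c1.trans ?_
    calc _ ≤ 1 * ∫ y in A ∩ T, ψ y ^ 2 := mul_le_mul_of_nonneg_right b1 p2
      _ ≤ ε / 4 := by rw [one_mul]; exact b3
  have q2 : 2 * (∫ y in K, f n y * ψ y) ^ 2 ≤ 2 * (∫ y in A, ψ y ^ 2) * ∫ y in K, f n y ^ 2 := by
    have : (∫ y in K, f n y ^ 2) * ∫ y in K, ψ y ^ 2 ≤
        (∫ y in K, f n y ^ 2) * ∫ y in A, ψ y ^ 2 := mul_le_mul_of_nonneg_left b2 p3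
    nlinarith
  have q3 := hN n hn
  rw [s1]
  nlinarith [sq_nonneg ((∫ y in A ∩ T, f n y * ψ y) - ∫ y in K, f n y * ψ y)]

/-- squared `H¹` norm over `A` -/
noncomputable def en (A : Set E3) (f : E3 → ℝ) (g : Fin 3 → E3 → ℝ) : ℝ :=
  (∫ y in A, f y ^ 2) + ∑ i, ∫ y in A, g i y ^ 2

theorem en_nonneg (A : Set E3) (f : E3 → ℝ) (g : Fin 3 → E3 → ℝ) : 0 ≤ en A f g :=
  add_nonneg (integral_nonneg fun y => sq_nonneg _)
    (Finset.sum_nonneg fun i _ => integral_nonneg fun y => sq_nonneg _)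

theorem le_en_fun (A : Set E3) (f : E3 → ℝ) (g : Fin 3 → E3 → ℝ) : ∫ y in A, f y ^ 2 ≤ en A f g :=
  le_add_of_nonneg_right (Finset.sum_nonneg fun i _ => integral_nonneg fun y => sq_nonneg _)

theorem le_en_grad (A : Set E3) (f : E3 → ℝ) (g : Fin 3 → E3 → ℝ) (i : Fin 3) :
    ∫ y in A, g i y ^ 2 ≤ en A f g := by
  have h1 : ∫ y in A, g i y ^ 2 ≤ ∑ i, ∫ y in A, g i y ^ 2 :=
    Finset.single_le_sum (f := fun i => ∫ y in A, g i y ^ 2)
      (fun i _ => integral_nonneg fun y => sq_nonneg _) (Finset.mem_univ i)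
  have h2 : 0 ≤ ∫ y in A, f y ^ 2 := integral_nonneg fun y => sq_nonneg _
  unfold en
  linarith

theorem rform_self {A : Set E3} {k : ℝ} {f : E3 → ℝ} {g : Fin 3 → E3 → ℝ} (hf : SR A f)
    (hg : ∀ i, SR A (g i)) :
    rform A k f g f g = en A f g - (k ^ 2 + 1) * ∫ y in A, f y ^ 2 := by
  rw [rform_expand hf hg hf hg]
  unfold en
  have e1 : ∀ i, ∫ y in A, g i y * g i y = ∫ y in A, g i y ^ 2 := fun i => by
    congr 1; ext y; ring
  have e2 : ∫ y in A, f y * f y = ∫ y in A, f y ^ 2 := by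
    congr 1; ext y; ring
  simp_rw [e1]
  rw [e2]
  ring

theorem RH.smul {U : Set E3} {f : E3 → ℝ} {g : Fin 3 → E3 → ℝ} (h : RH U f g) (c : ℝ) :
    RH U (fun y => c * f y) (fun i y => c * g i y) := by
  refine ⟨h.meas.const_mul c, fun i => (h.meas_grad i).const_mul c, (h.si.const_mul c).2,
    fun i => ((h.sig i).const_mul c).2, fun i φ hφ => ?_⟩
  have := h.weak i φ hφ
  simp only [mul_assoc]
  rw [integral_const_mul, integral_const_mul, this]
  ring

theorem RVan.smul {Ω D : Set E3} {w : E3 → ℝ} {h : Fin 3 → E3 → ℝ} (H : RVan Ω D w h) (c : ℝ) :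
    RVan Ω D (fun y => c * w y) (fun i y => c * h i y) := by
  obtain ⟨φ, hφ, h0, h1⟩ := H
  refine ⟨fun n y => c * φ n y, fun n => ⟨contDiff_const.mul (hφ n).smooth,
    (hφ n).cpt.mul_left, (tsupport_mul_subset_right).trans (hφ n).sub⟩, ?_, fun i => ?_⟩
  · have := h0.const_mul (c ^ 2)
    rw [mul_zero] at this
    refine this.congr fun n => ?_
    rw [← integral_const_mul]
    congr 1; ext y; ring
  · have := (h1 i).const_mul (c ^ 2)
    rw [mul_zero] at this
    refine this.congr fun n => ?_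
    rw [← integral_const_mul]
    congr 1; ext y
    have e : rgrad (fun y => c * φ n y) i y = c * rgrad (φ n) i y := by
      unfold rgrad
      rw [fderiv_const_mul ((hφ n).smooth.differentiable (by norm_num) y)]
      simp
    rw [e]; ring

end Pool.Agent.P8H23.PM
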