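import Pool.Agent.P8H23.PM.PackW3

/-!
# Compactness up to the boundary of the obstacle (written by helper43)
-/

set_option autoImplicit false

open MeasureTheory Filter Topology Set
open scoped ContDiff

namespace Pool.Agent.P8H23.PM

open Pool.Agent.Helper985.VR

variable {Ω D : Set E3} {k : ℝ} {w : ℕ → E3 → ℝ} {h : ℕ → Fin 3 → E3 → ℝ}

/-- the estimate on a compact set near the boundary -/
lemma near_compact (S : Std Ω D k w h) {K : Set E3} (hK : IsCompact K) (v : E3)
    (hseg : ∀ y ∈ K, ∀ s ∈ Icc (0:ℝ) 1, y + s • v ∈ Ω \ closure D)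
    {K1 : Set E3} (hK1 : MeasurableSet K1) (hKK1 : ∀ y ∈ K, y + v ∈ K1) (n : ℕ) :
    ∫ y in K, w n y ^ 2 ≤ 2 * (∫ y in K1 ∩ (Ω \ closure D), w n y ^ 2) +
      2 * ((∑ i, bb.repr v i ^ 2) * 3) := by
  have hU : MeasurableSet (Ω \ closure D) := (U_open S.hΩ).measurableSet
  have hDc : IsCompact (closure D) :=
    Metric.isCompact_of_isClosed_isBounded isClosed_closure (S.hΩb.subset S.hDΩ)
  -- the swept set
  set S' : Set E3 := (fun p : E3 × ℝ => p.1 + p.2 • v) '' (K ×ˢ Icc (0:ℝ) 1) with hS'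
  have hS'c : IsCompact S' := (hK.prod isCompact_Icc).image (by fun_prop)
  have hmem : ∀ y ∈ K, ∀ s ∈ Icc (0:ℝ) 1, y + s • v ∈ S' := fun y hy s hs =>
    ⟨(y, s), ⟨hy, hs⟩, rfl⟩
  have hS'U : S' ⊆ Ω \ closure D := by
    rintro _ ⟨⟨y, s⟩, ⟨hy, hs⟩, rfl⟩
    exact hseg y hy s hs
  have hdis : Disjoint (closure D) S' := by
    rw [Set.disjoint_left]
    intro x hx hx2
    exact (hS'U hx2).2 hx
  obtain ⟨η, M, hη⟩ := exists_cut hDc hS'c.isClosed hdis
  have hH := cut_H1 S.hΩ hη (S.hw n) (S.hv n)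
  have hFL := hH.1
  -- the translation estimate
  have hT := hH.trans_loc v hK.measurableSet hS'c.measurableSet hmem
  have hgrad : ∀ i, ∫ x in S', cG (Ω \ closure D) η (w n) (h n) i x ^ 2 ≤ 1 := by
    intro i
    have e1 : ∫ x in S', cG (Ω \ closure D) η (w n) (h n) i x ^ 2 = ∫ x in S', h n i x ^ 2 := by
      refine setIntegral_congr_fun hS'c.measurableSet fun x hx => ?_
      show cG (Ω \ closure D) η (w n) (h n) i x ^ 2 = h n i x ^ 2
      unfold cG
      rw [hη.one.self_of_nhdsSet x hx, fderiv_zero_of_ev hη.one hx, indicator_of_mem (hS'U hx)]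
      simp
    rw [e1]
    refine le_trans ?_ (S.b1 n i)
    exact setIntegral_mono_set ((S.hw n).sq_grad i) (by filter_upwards with x using sq_nonneg _)
      (LE.le.eventuallyLE hS'U)
  have hT2 : ∫ x in K, (cF (Ω \ closure D) η (w n) (x + v) - cF (Ω \ closure D) η (w n) x) ^ 2 ≤
      (∑ i, bb.repr v i ^ 2) * 3 := by
    refine hT.trans ?_
    refine mul_le_mul_of_nonneg_left ?_ (Finset.sum_nonneg fun i _ => sq_nonneg _)
    calc ∑ i, ∫ x in S', cG (Ω \ closure D) η (w n) (h n) i x ^ 2 ≤ ∑ _i : Fin 3, (1:ℝ) :=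
          Finset.sum_le_sum fun i _ => hgrad i
      _ = 3 := by rw [Finset.sum_const, Finset.card_univ, Fintype.card_fin]; norm_num
  -- the values on `K` and `K + v`
  have hval : ∀ x ∈ S', cF (Ω \ closure D) η (w n) x = w n x := by
    intro x hx
    unfold cF
    rw [hη.one.self_of_nhdsSet x hx, one_mul, indicator_of_mem (hS'U hx)]
  have hKS : ∀ x ∈ K, x ∈ S' := fun x hx => by
    have := hmem x hx 0 ⟨le_rfl, zero_le_one⟩
    rwa [zero_smul, add_zero] at this
  have hKS1 : ∀ x ∈ K, x + v ∈ S' := fun x hx => by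
    have := hmem x hx 1 ⟨zero_le_one, le_rfl⟩
    rwa [one_smul] at this
  have hFLv := hFL.translate v
  have h1 : ∫ y in K, w n y ^ 2 ≤ ∫ y in K, (2 * cF (Ω \ closure D) η (w n) (y + v) ^ 2 +
      2 * (cF (Ω \ closure D) η (w n) (y + v) - cF (Ω \ closure D) η (w n) y) ^ 2) := by
    have e1 : ∫ y in K, w n y ^ 2 = ∫ y in K, cF (Ω \ closure D) η (w n) y ^ 2 := by
      refine setIntegral_congr_fun hK.measurableSet fun x hx => ?_
      show w n x ^ 2 = cF (Ω \ closure D) η (w n) x ^ 2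
      rw [hval x (hKS x hx)]
    rw [e1]
    refine setIntegral_mono_on hFL.2.integrableOn
      ((hFLv.2.integrableOn.const_mul 2).add ((hFLv.sub hFL).2.integrableOn.const_mul 2))
      hK.measurableSet fun x _ => ?_
    nlinarith [sq_nonneg (2 * cF (Ω \ closure D) η (w n) (x + v) - cF (Ω \ closure D) η (w n) x)]
  rw [integral_add (hFLv.2.integrableOn.const_mul 2) ((hFLv.sub hFL).2.integrableOn.const_mul 2),
    integral_const_mul, integral_const_mul] at h1
  have h2 : ∫ y in K, cF (Ω \ closure D) η (w n) (y + v) ^ 2 ≤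
      ∫ y in K1 ∩ (Ω \ closure D), w n y ^ 2 := by
    rw [← integral_indicator hK.measurableSet, ← integral_indicator (hK1.inter hU),
      ← integral_add_right_eq_self (fun x => (K1 ∩ (Ω \ closure D)).indicator
        (fun y => w n y ^ 2) x) v]
    refine integral_mono_of_nonneg ?_ ?_ ?_
    · filter_upwards with x
      exact indicator_nonneg (fun _ _ => sq_nonneg _) _
    · have h3 : Integrable ((K1 ∩ (Ω \ closure D)).indicator fun y => w n y ^ 2) := by
        rw [integrable_indicator_iff (hK1.inter hU)]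
        exact (S.hw n).sq.mono_set inter_subset_right
      exact h3.comp_add_right v
    · filter_upwards with x
      by_cases hx : x ∈ K
      · have hm : x + v ∈ K1 ∩ (Ω \ closure D) := mem_inter (hKK1 x hx) (hS'U (hKS1 x hx))
        have e3 : (K1 ∩ (Ω \ closure D)).indicator (fun y => w n y ^ 2) (x + v) =
            w n (x + v) ^ 2 := indicator_of_mem hm _
        rw [indicator_of_mem hx, e3, hval _ (hKS1 x hx)]
      · rw [indicator_of_notMem hx]
        exact indicator_nonneg (fun _ _ => sq_nonneg _) _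
  linarith

/-- the estimate on an open set near the boundary -/
lemma near_open (S : Std Ω D k w h) {A : Set E3} (hA : IsOpen A) (hAb : Bornology.IsBounded A)
    (v : E3) (hseg : ∀ y ∈ A, ∀ s ∈ Icc (0:ℝ) 1, y + s • v ∈ Ω \ closure D)
    {K1 : Set E3} (hK1 : MeasurableSet K1) (hKK1 : ∀ y ∈ A, y + v ∈ K1) (n : ℕ) :
    ∫ y in A, w n y ^ 2 ≤ 2 * (∫ y in K1 ∩ (Ω \ closure D), w n y ^ 2) +
      2 * ((∑ i, bb.repr v i ^ 2) * 3) := by
  obtain ⟨F, hFc, hFA, hFU, hFm⟩ := hA.exists_iUnion_isClosed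
  have hAU : A ⊆ Ω \ closure D := fun x hx => by
    have := hseg x hx 0 ⟨le_rfl, zero_le_one⟩
    rwa [zero_smul, add_zero] at this
  have h1 : Tendsto (fun j => ∫ y in F j, w n y ^ 2) atTop (𝓝 (∫ y in ⋃ j, F j, w n y ^ 2)) := by
    refine tendsto_setIntegral_of_monotone (fun j => (hFc j).measurableSet) hFm ?_
    rw [hFU]
    exact (S.hw n).sq.mono_set hAU
  rw [hFU] at h1
  refine le_of_tendsto' h1 fun j => ?_
  exact near_compact S (Metric.isCompact_of_isClosed_isBounded (hFc j) (hAb.subset (hFA j))) v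
    (fun y hy => hseg y (hFA j hy)) hK1 (fun y hy => hKK1 y (hFA j hy)) n

/-- convergence near a boundary point of the obstacle -/
lemma near_bdry (S : Std Ω D k w h) (hD : IsOpen D) {z : E3} (hz : z ∈ Ω) {r : ℝ} (hr : 0 < r)
    {C : Set E3} (hC : Shifts C)
    (hext : ∀ y ∈ Metric.ball z r \ D, ∀ h ∈ C, y + h ∉ closure D) :
    ∃ ρ > 0, Tendsto (fun n => ∫ y in Metric.ball z ρ ∩ (Ω \ closure D), w n y ^ 2) atTop (𝓝 0) := by
  obtain ⟨r', hr', hsub⟩ := Metric.isOpen_iff.1 S.hΩ z hz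
  set ρ : ℝ := min r r' / 2 with hρ
  have hρ0 : 0 < ρ := by positivity
  have h2ρ : 2 * ρ = min r r' := by rw [hρ]; ring
  have hb1 : Metric.ball z (2 * ρ) ⊆ Ω := by
    rw [h2ρ]
    exact (Metric.ball_subset_ball (min_le_right _ _)).trans hsub
  have hb2 : Metric.ball z (2 * ρ) ⊆ Metric.ball z r := by
    rw [h2ρ]
    exact Metric.ball_subset_ball (min_le_left _ _)
  refine ⟨ρ, hρ0, ?_⟩
  obtain ⟨Cb, hCb, hrep⟩ := exists_repr_bound bb
  rw [Metric.tendsto_atTop]
  intro ε hε
  -- the shift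
  obtain ⟨δ, hδ, hδρ, hδε⟩ : ∃ δ : ℝ, 0 < δ ∧ δ ≤ ρ ∧ 2 * ((Cb * δ ^ 2) * 3) ≤ ε / 2 := by
    refine ⟨min ρ (min 1 (ε / (12 * (Cb + 1)))), by positivity, min_le_left _ _, ?_⟩
    set m := min ρ (min 1 (ε / (12 * (Cb + 1)))) with hm
    have h0 : 0 < m := by positivity
    have h1 : m ≤ 1 := (min_le_right _ _).trans (min_le_left _ _)
    have h2 : m ≤ ε / (12 * (Cb + 1)) := (min_le_right _ _).trans (min_le_right _ _)
    rw [le_div_iff₀ (by positivity)] at h2
    have h3 : m ^ 2 ≤ m := by nlinarith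
    nlinarith [mul_le_mul_of_nonneg_left h3 hCb.le]
  obtain ⟨v, hvC, hvb⟩ : ∃ v ∈ C, v ∈ Metric.ball (0 : E3) δ := by
    have h1 := hC.pos δ hδ
    obtain ⟨v, hv⟩ := MeasureTheory.nonempty_of_measure_ne_zero h1.ne'
    exact ⟨v, hv.1, hv.2⟩
  rw [mem_ball_zero_iff] at hvb
  set A : Set E3 := Metric.ball z ρ ∩ (Ω \ closure D) with hA
  have hAo : IsOpen A := Metric.isOpen_ball.inter (U_open S.hΩ)
  have hAb : Bornology.IsBounded A := Metric.isBounded_ball.subset inter_subset_left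
  have hcl : closure A ⊆ Metric.ball z (2 * ρ) \ D := by
    intro x hx
    constructor
    · have h1 : x ∈ closure (Metric.ball z ρ) := closure_mono inter_subset_left hx
      have h2 := Metric.closure_ball_subset_closedBall h1
      rw [Metric.mem_closedBall] at h2
      rw [Metric.mem_ball]
      linarith
    · intro hxD
      rw [mem_closure_iff] at hx
      obtain ⟨y, hy1, hy2⟩ := hx D hD hxD
      exact hy2.2.2 (subset_closure hy1)
  have hseg : ∀ y ∈ A, ∀ s ∈ Icc (0:ℝ) 1, y + s • v ∈ Ω \ closure D := by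
    intro y hy s hs
    have hnorm : ‖s • v‖ < ρ := by
      rw [norm_smul, Real.norm_eq_abs, abs_of_nonneg hs.1]
      calc s * ‖v‖ ≤ 1 * ‖v‖ := mul_le_mul_of_nonneg_right hs.2 (norm_nonneg _)
        _ < ρ := by linarith
    refine ⟨hb1 ?_, ?_⟩
    · rw [Metric.mem_ball]
      have h1 : dist (y + s • v) y < ρ := by
        rw [dist_eq_norm, add_sub_cancel_left]
        exact hnorm
      have h2 : dist y z < ρ := hy.1
      calc dist (y + s • v) z ≤ dist (y + s • v) y + dist y z := dist_triangle _ _ _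
        _ < 2 * ρ := by linarith
    · rcases eq_or_lt_of_le hs.1 with h0 | h0
      · rw [← h0, zero_smul, add_zero]
        exact hy.2.2
      · have h1 := hcl (subset_closure hy)
        exact hext y ⟨hb2 h1.1, h1.2⟩ _ (hC.scale v hvC s h0 hs.2)
  set K1 : Set E3 := (fun y => y + v) '' closure A with hK1
  have hclc : IsCompact (closure A) := Metric.isCompact_of_isClosed_isBounded isClosed_closure
    (hAb.closure)
  have hK1c : IsCompact K1 := hclc.image (by fun_prop)
  have hdis : Disjoint (closure D) K1 := by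
    rw [Set.disjoint_right]
    rintro _ ⟨y, hy, rfl⟩
    have h1 := hcl hy
    exact hext y ⟨hb2 h1.1, h1.2⟩ v hvC
  have hoff := tendsto_off S hK1c.isClosed hdis
  rw [Metric.tendsto_atTop] at hoff
  obtain ⟨N, hN⟩ := hoff (ε / 4) (by positivity)
  refine ⟨N, fun n hn => ?_⟩
  have h1 := hN n hn
  rw [Real.dist_eq, sub_zero, abs_of_nonneg (integral_nonneg fun _ => sq_nonneg _)] at h1 ⊢
  have h2 := near_open S hAo hAb v hseg hK1c.measurableSet
    (fun y hy => ⟨y, subset_closure hy, rfl⟩) n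
  have h3 : ∑ i, bb.repr v i ^ 2 ≤ Cb * δ ^ 2 := by
    refine (hrep v).trans ?_
    have : ‖v‖ ^ 2 ≤ δ ^ 2 := by
      have := norm_nonneg v
      nlinarith
    exact mul_le_mul_of_nonneg_left this hCb.le
  have h4 : 2 * ((∑ i, bb.repr v i ^ 2) * 3) ≤ ε / 2 := by
    refine le_trans ?_ hδε
    linarith
  linarith

/-- the package -/
theorem lemmaB {Ω D : Set E3} (hΩ : IsOpen Ω) (hΩb : Bornology.IsBounded Ω) (hD : IsOpen D)
    (hDΩ : closure D ⊆ Ω) {k : ℝ} (hne : RNotEig Ω D k)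
    (ext : ∀ z ∈ frontier D, ∃ r > 0, ∃ C, Shifts C ∧
      ∀ y ∈ Metric.ball z r \ D, ∀ h ∈ C, y + h ∉ closure D)
    {w : ℕ → E3 → ℝ} {h : ℕ → Fin 3 → E3 → ℝ} (hw : ∀ n, RH (Ω \ closure D) (w n) (h n))
    (hv : ∀ n, RVan Ω D (w n) (h n))
    (b0 : ∀ n, ∫ y in Ω \ closure D, w n y ^ 2 ≤ 1)
    (b1 : ∀ n i, ∫ y in Ω \ closure D, h n i y ^ 2 ≤ 1)
    (heq : ∀ φ, RTest Ω φ →
      Tendsto (fun n => rform (Ω \ closure D) k (w n) (h n) φ (rgrad φ)) atTop (𝓝 0)) :
    Tendsto (fun n => ∫ y in Ω \ closure D, w n y ^ 2) atTop (𝓝 0) := by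
  have S : Std Ω D k w h := ⟨hΩ, hΩb, hDΩ, hne, hw, hv, b0, b1, heq⟩
  have hU : MeasurableSet (Ω \ closure D) := (U_open S.hΩ).measurableSet
  have hcc : IsCompact (closure Ω) :=
    Metric.isCompact_of_isClosed_isBounded isClosed_closure hΩb.closure
  have key : ∃ t : Set E3, MeasurableSet t ∧ closure Ω ⊆ t ∧
      Tendsto (fun n => ∫ y in t ∩ (Ω \ closure D), w n y ^ 2) atTop (𝓝 0) := by
    refine hcc.induction_on (p := fun s => ∃ t : Set E3, MeasurableSet t ∧ s ⊆ t ∧
      Tendsto (fun n => ∫ y in t ∩ (Ω \ closure D), w n y ^ 2) atTop (𝓝 0)) ?_ ?_ ?_ ?_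
    · refine ⟨∅, MeasurableSet.empty, le_rfl, ?_⟩
      simp
    · rintro s t hst ⟨u, hu, htu, hl⟩
      exact ⟨u, hu, hst.trans htu, hl⟩
    · rintro s t ⟨u, hu, hsu, hl⟩ ⟨u', hu', htu', hl'⟩
      refine ⟨u ∪ u', hu.union hu', union_subset_union hsu htu', ?_⟩
      have hz := hl.add hl'
      rw [add_zero] at hz
      refine squeeze_zero (fun n => integral_nonneg fun _ => sq_nonneg _) (fun n => ?_) hz
      have hi : IntegrableOn (fun y => w n y ^ 2) (Ω \ closure D) := (hw n).sq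
      have e1 : (u ∪ u') ∩ (Ω \ closure D) =
          (u ∩ (Ω \ closure D)) ∪ ((u' ∩ (Ω \ closure D)) \ (u ∩ (Ω \ closure D))) := by
        rw [union_sdiff_self, union_inter_distrib_right]
      rw [e1, setIntegral_union disjoint_sdiff_right ((hu'.inter hU).diff (hu.inter hU))
        (hi.mono_set inter_subset_right) (hi.mono_set (sdiff_subset.trans inter_subset_right))]
      have : ∫ y in (u' ∩ (Ω \ closure D)) \ (u ∩ (Ω \ closure D)), w n y ^ 2 ≤
          ∫ y in u' ∩ (Ω \ closure D), w n y ^ 2 :=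
        setIntegral_mono_set (hi.mono_set inter_subset_right)
          (by filter_upwards with x using sq_nonneg _) (LE.le.eventuallyLE sdiff_subset)
      linarith
    · intro x hx
      by_cases hxD : x ∈ closure D
      · by_cases hxD2 : x ∈ D
        · refine ⟨D, mem_nhdsWithin_of_mem_nhds (hD.mem_nhds hxD2), D, hD.measurableSet, le_rfl, ?_⟩
          have : D ∩ (Ω \ closure D) = ∅ := by
            ext y
            simp only [mem_inter_iff, Set.mem_sdiff, mem_empty_iff_false, iff_false, not_and, not_not]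
            intro hy _
            exact subset_closure hy
          rw [this]
          simp
        · have hxf : x ∈ frontier D := ⟨hxD, by rwa [hD.interior_eq]⟩
          obtain ⟨r, hr, C, hC, hext⟩ := ext x hxf
          obtain ⟨ρ, hρ, hl⟩ := near_bdry S hD (hDΩ hxD) hr hC hext
          exact ⟨Metric.ball x ρ, mem_nhdsWithin_of_mem_nhds (Metric.ball_mem_nhds x hρ),
            Metric.ball x ρ, Metric.isOpen_ball.measurableSet, le_rfl, hl⟩
      · have h1 : (closure D)ᶜ ∈ 𝓝 x := isClosed_closure.isOpen_compl.mem_nhds hxD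
        obtain ⟨ρ, hρ, hsub⟩ := Metric.nhds_basis_closedBall.mem_iff.1 h1
        refine ⟨Metric.closedBall x ρ, mem_nhdsWithin_of_mem_nhds (Metric.closedBall_mem_nhds x hρ),
          Metric.closedBall x ρ, Metric.isClosed_closedBall.measurableSet, le_rfl, ?_⟩
        exact tendsto_off S Metric.isClosed_closedBall
          (Set.disjoint_left.2 fun y hy hy2 => hsub hy2 hy)
  obtain ⟨t, ht, hsub, hl⟩ := key
  have e1 : t ∩ (Ω \ closure D) = Ω \ closure D :=
    inter_eq_right.2 (sdiff_subset.trans (subset_closure.trans hsub))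
  rw [e1] at hl
  exact hl

end Pool.Agent.P8H23.PM
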