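import Pool.Agent.P8H23.PM.Defs
import Pool.Agent.Helper985.VR.G

/-!
# Cutoffs and extension by zero (written by helper43)
-/

set_option autoImplicit false

open MeasureTheory Filter Topology Set
open scoped ContDiff Manifold

namespace Pool.Agent.P8H23.PM

open Pool.Agent.Helper985.VR

/-- the standard basis -/
noncomputable def bb : Module.Basis (Fin 3) ℝ E3 := (EuclideanSpace.basisFun (Fin 3) ℝ).toBasis

lemma bb_apply (i : Fin 3) : bb i = ee i := by
  unfold bb ee
  simp

/-- smooth cutoffs that vanish near a compact set -/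
structure Cut (A K : Set E3) (η : E3 → ℝ) (M : ℝ) : Prop where
  smooth : ContDiff ℝ ∞ η
  zero : ∀ᶠ x in 𝓝ˢ A, η x = 0
  one : ∀ᶠ x in 𝓝ˢ K, η x = 1
  nn : ∀ x, 0 ≤ η x
  le : ∀ x, η x ≤ 1
  dle : ∀ i x, |fderiv ℝ η x (ee i)| ≤ M
  Mpos : 0 ≤ M

lemma exists_cut {A K : Set E3} (hA : IsCompact A) (hK : IsClosed K) (hAK : Disjoint A K) :
    ∃ η M, Cut A K η M := by
  obtain ⟨R, hR⟩ := hA.isBounded.subset_ball (0 : E3)
  have ht : IsClosed (K ∪ (Metric.ball (0 : E3) R)ᶜ) := hK.union Metric.isOpen_ball.isClosed_compl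
  have hd : Disjoint A (K ∪ (Metric.ball (0 : E3) R)ᶜ) := by
    rw [disjoint_union_right]
    exact ⟨hAK, disjoint_compl_right_iff_subset.2 hR⟩
  obtain ⟨f, h0, h1, hf⟩ := exists_contMDiffMap_zero_one_nhds_of_isClosed (𝓘(ℝ, E3)) (n := ⊤)
    hA.isClosed ht hd
  have hs : ContDiff ℝ ∞ (f : E3 → ℝ) := contMDiff_iff_contDiff.1 f.contMDiff
  have hsc : HasCompactSupport fun x => 1 - f x := by
    refine HasCompactSupport.intro (isCompact_closedBall (0 : E3) R) ?_
    intro x hx
    have : x ∈ K ∪ (Metric.ball (0 : E3) R)ᶜ := Or.inr fun hx2 =>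
      hx (Metric.ball_subset_closedBall hx2)
    rw [h1.self_of_nhdsSet x this, sub_self]
  have hs1 : ContDiff ℝ ∞ fun x => 1 - f x := contDiff_const.sub hs
  have h2 : ∀ i : Fin 3, ∃ M', ∀ x, ‖fderiv ℝ (fun x => 1 - f x) x (ee i)‖ ≤ M' := fun i =>
    (fderiv_cc_support hsc (ee i)).exists_bound_of_continuous (fderiv_cc_continuous hs1 (ee i))
  choose M' hM' using h2
  have hM0 : ∀ i, 0 ≤ M' i := fun i => (norm_nonneg _).trans (hM' i 0)
  refine ⟨f, ∑ i, M' i, hs, h0, h1.filter_mono (nhdsSet_mono subset_union_left),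
    fun x => (hf x).1, fun x => (hf x).2, fun i x => ?_, Finset.sum_nonneg fun i _ => hM0 i⟩
  have h3 := hM' i x
  have h4 : fderiv ℝ (fun x => 1 - f x) x = - fderiv ℝ f x := by
    rw [fderiv_const_sub]
  rw [h4, neg_apply, norm_neg, Real.norm_eq_abs] at h3
  exact h3.trans (Finset.single_le_sum (f := M') (fun i _ => hM0 i) (Finset.mem_univ i))

lemma fderiv_zero_of_ev {A : Set E3} {η : E3 → ℝ} {c : ℝ} (h : ∀ᶠ x in 𝓝ˢ A, η x = c) {x : E3}
    (hx : x ∈ A) : fderiv ℝ η x = 0 := by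
  have h1 : η =ᶠ[𝓝 x] fun _ => c := by
    rw [eventually_nhdsSet_iff_forall] at h
    exact h x hx
  rw [h1.fderiv_eq]
  simp

section ind

variable {U : Set E3}

lemma L2_ind (hU : MeasurableSet U) {f : E3 → ℝ} (hm : Measurable f)
    (hi : IntegrableOn (fun y => f y ^ 2) U) : L2 (U.indicator f) := by
  refine ⟨hm.indicator hU, ?_⟩
  rw [← integrable_indicator_iff hU] at hi
  refine hi.congr ?_
  filter_upwards with x
  by_cases hx : x ∈ U
  · simp [hx]
  · simp [hx]

lemma N2_ind (hU : MeasurableSet U) (f : E3 → ℝ) : N2 (U.indicator f) = ∫ y in U, f y ^ 2 := by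
  unfold N2
  rw [← integral_indicator hU]
  congr 1
  ext x
  by_cases hx : x ∈ U
  · simp [hx]
  · simp [hx]

lemma int_ind (hU : MeasurableSet U) (f g : E3 → ℝ) :
    ∫ x, U.indicator f x * g x = ∫ y in U, f y * g y := by
  rw [← integral_indicator hU]
  congr 1
  ext x
  by_cases hx : x ∈ U
  · simp [hx]
  · simp [hx]

end ind

/-- the cut function, extended by zero -/
noncomputable def cF (U : Set E3) (η w : E3 → ℝ) : E3 → ℝ := fun x => η x * U.indicator w x

/-- its gradient -/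
noncomputable def cG (U : Set E3) (η w : E3 → ℝ) (h : Fin 3 → E3 → ℝ) (i : Fin 3) : E3 → ℝ :=
  fun x => η x * U.indicator (h i) x + fderiv ℝ η x (ee i) * U.indicator w x

section main

variable {Ω D : Set E3}

lemma U_open (hΩ : IsOpen Ω) : IsOpen (Ω \ closure D) := hΩ.sdiff isClosed_closure

lemma test_cut {K : Set E3} {η : E3 → ℝ} {M : ℝ}
    (hη : Cut (closure D) K η M) {φ : E3 → ℝ} (hφ : RTest Ω φ) :
    (fun x => η x * φ x) = cF (Ω \ closure D) η φ ∧
    ∀ i, (fun x => fderiv ℝ (fun x => η x * φ x) x (ee i)) = cG (Ω \ closure D) η φ (rgrad φ) i := by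
  have hφ0 : ∀ x, x ∉ Ω → φ x = 0 := fun x hx => image_eq_zero_of_notMem_tsupport fun h => hx (hφ.sub h)
  have hφ1 : ∀ x, x ∉ Ω → fderiv ℝ φ x = 0 := by
    intro x hx
    have : x ∉ tsupport φ := fun h => hx (hφ.sub h)
    exact image_eq_zero_of_notMem_tsupport fun h => this (tsupport_fderiv_subset ℝ h)
  have hη0 : ∀ x ∈ closure D, η x = 0 := fun x hx => hη.zero.self_of_nhdsSet x hx
  have hη1 : ∀ x ∈ closure D, fderiv ℝ η x = 0 := fun x hx => fderiv_zero_of_ev hη.zero hx
  constructor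
  · ext x
    unfold cF
    by_cases hx : x ∈ Ω \ closure D
    · rw [indicator_of_mem hx]
    · rw [indicator_of_notMem hx, mul_zero]
      by_cases hx1 : x ∈ Ω
      · have : x ∈ closure D := by
          by_contra h
          exact hx ⟨hx1, h⟩
        rw [hη0 x this, zero_mul]
      · rw [hφ0 x hx1, mul_zero]
  · intro i
    ext x
    have hfd : fderiv ℝ (fun x => η x * φ x) x (ee i) =
        η x * fderiv ℝ φ x (ee i) + fderiv ℝ η x (ee i) * φ x := by
      rw [fderiv_fun_mul (hη.smooth.differentiable (by norm_num) x)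
        (hφ.smooth.differentiable (by norm_num) x)]
      simp; ring
    rw [hfd]
    unfold cG rgrad
    by_cases hx : x ∈ Ω \ closure D
    · rw [indicator_of_mem hx, indicator_of_mem hx]
    · rw [indicator_of_notMem hx, indicator_of_notMem hx, mul_zero, mul_zero, add_zero]
      by_cases hx1 : x ∈ Ω
      · have : x ∈ closure D := by
          by_contra h
          exact hx ⟨hx1, h⟩
        rw [hη0 x this, hη1 x this]
        simp
      · rw [hφ0 x hx1, hφ1 x hx1]
        simp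

lemma cF_L2 {U : Set E3} (hU : MeasurableSet U) {A K : Set E3} {η : E3 → ℝ} {M : ℝ}
    (hη : Cut A K η M) {w : E3 → ℝ} (hm : Measurable w) (hi : IntegrableOn (fun y => w y ^ 2) U) :
    L2 (cF U η w) ∧ N2 (cF U η w) ≤ ∫ y in U, w y ^ 2 := by
  have h1 := L2_ind hU hm hi
  refine ⟨h1.bdd_mul hη.smooth.continuous.measurable 1 fun x => ?_, ?_⟩
  · rw [abs_of_nonneg (hη.nn x)]
    exact hη.le x
  · rw [← N2_ind hU]
    refine N2_mono h1 ?_
    filter_upwards with x
    unfold cF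
    rw [abs_mul, abs_of_nonneg (hη.nn x)]
    exact mul_le_of_le_one_left (abs_nonneg _) (hη.le x)

lemma cG_L2 {U : Set E3} (hU : MeasurableSet U) {A K : Set E3} {η : E3 → ℝ} {M : ℝ}
    (hη : Cut A K η M) {w : E3 → ℝ} (hm : Measurable w) (hi : IntegrableOn (fun y => w y ^ 2) U)
    {h : Fin 3 → E3 → ℝ} (i : Fin 3) (hm' : Measurable (h i))
    (hi' : IntegrableOn (fun y => h i y ^ 2) U) :
    L2 (cG U η w h i) ∧
      N2 (cG U η w h i) ≤ 2 * (∫ y in U, h i y ^ 2) + 2 * (M ^ 2 * ∫ y in U, w y ^ 2) := by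
  have h1 := L2_ind hU hm hi
  have h2 := L2_ind hU hm' hi'
  have a1 : L2 (fun x => η x * U.indicator (h i) x) :=
    h2.bdd_mul hη.smooth.continuous.measurable 1 fun x => by
      rw [abs_of_nonneg (hη.nn x)]
      exact hη.le x
  have a2 : L2 (fun x => fderiv ℝ η x (ee i) * U.indicator w x) :=
    h1.bdd_mul (fderiv_cc_continuous hη.smooth _).measurable M fun x => hη.dle i x
  refine ⟨a1.add a2, ?_⟩
  refine (N2_add_le a1 a2).trans ?_
  have b1 : N2 (fun x => η x * U.indicator (h i) x) ≤ ∫ y in U, h i y ^ 2 := by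
    rw [← N2_ind hU]
    refine N2_mono h2 ?_
    filter_upwards with x
    rw [abs_mul, abs_of_nonneg (hη.nn x)]
    exact mul_le_of_le_one_left (abs_nonneg _) (hη.le x)
  have b2 : N2 (fun x => fderiv ℝ η x (ee i) * U.indicator w x) ≤ M ^ 2 * ∫ y in U, w y ^ 2 := by
    rw [← N2_ind hU, ← N2_const_mul]
    refine N2_mono (h1.const_mul M) ?_
    filter_upwards with x
    rw [abs_mul, abs_mul, abs_of_nonneg hη.Mpos]
    exact mul_le_mul_of_nonneg_right (hη.dle i x) (abs_nonneg _)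
  linarith

lemma cF_sub (U : Set E3) (η w w' : E3 → ℝ) :
    (fun x => cF U η w x - cF U η w' x) = cF U η (fun x => w x - w' x) := by
  ext x
  unfold cF
  by_cases hx : x ∈ U
  · rw [indicator_of_mem hx, indicator_of_mem hx, indicator_of_mem hx]; ring
  · rw [indicator_of_notMem hx, indicator_of_notMem hx, indicator_of_notMem hx]; ring

lemma cG_sub (U : Set E3) (η w w' : E3 → ℝ) (h h' : Fin 3 → E3 → ℝ) (i : Fin 3) :
    (fun x => cG U η w h i x - cG U η w' h' i x) =
      cG U η (fun x => w x - w' x) (fun i x => h i x - h' i x) i := by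
  ext x
  unfold cG
  by_cases hx : x ∈ U
  · simp only [indicator_of_mem hx]; ring
  · simp only [indicator_of_notMem hx]; ring

/-- `η 1_U w` is in `H¹(ℝ³)` -/
theorem cut_H1 (hΩ : IsOpen Ω) {K : Set E3} {η : E3 → ℝ} {M : ℝ}
    (hη : Cut (closure D) K η M) {w : E3 → ℝ} {h : Fin 3 → E3 → ℝ}
    (hw : RH (Ω \ closure D) w h) (hv : RVan Ω D w h) :
    H1 bb (cF (Ω \ closure D) η w) (cG (Ω \ closure D) η w h) := by
  have hU : MeasurableSet (Ω \ closure D) := (U_open hΩ).measurableSet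
  refine ⟨(cF_L2 hU hη hw.meas hw.sq).1, fun i =>
    (cG_L2 hU hη hw.meas hw.sq i (hw.meas_grad i) (hw.sq_grad i)).1, fun i => ?_⟩
  obtain ⟨φ, hφ, hl, hlg⟩ := hv
  rw [bb_apply]
  have hLφ : ∀ n, L2 (φ n) := fun n => L2_of_cc (hφ n).smooth.continuous (hφ n).cpt
  have hLφ' : ∀ n i, L2 (rgrad (φ n) i) := fun n i =>
    L2_of_cc (fderiv_cc_continuous (hφ n).smooth _) (fderiv_cc_support (hφ n).cpt _)
  have hid : ∀ n, IntegrableOn (fun y => (φ n y - w y) ^ 2) (Ω \ closure D) := by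
    intro n
    have h1 : L2 ((Ω \ closure D).indicator (φ n)) :=
      L2_ind hU (hLφ n).1 (hLφ n).2.integrableOn
    have h2 := L2_ind hU hw.meas hw.sq
    have h3 := (h1.sub h2).2
    rw [← integrable_indicator_iff hU]
    refine h3.congr ?_
    filter_upwards with x
    by_cases hx : x ∈ Ω \ closure D
    · simp only [indicator_of_mem hx]
    · simp only [indicator_of_notMem hx]; norm_num
  have hid' : ∀ n, IntegrableOn (fun y => (rgrad (φ n) i y - h i y) ^ 2) (Ω \ closure D) := by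
    intro n
    have h1 : L2 ((Ω \ closure D).indicator (rgrad (φ n) i)) :=
      L2_ind hU (hLφ' n i).1 (hLφ' n i).2.integrableOn
    have h2 := L2_ind hU (hw.meas_grad i) (hw.sq_grad i)
    have h3 := (h1.sub h2).2
    rw [← integrable_indicator_iff hU]
    refine h3.congr ?_
    filter_upwards with x
    by_cases hx : x ∈ Ω \ closure D
    · simp only [indicator_of_mem hx]
    · simp only [indicator_of_notMem hx]; norm_num
  have e1 : ∀ n, WD (ee i) (cF (Ω \ closure D) η (φ n)) (cG (Ω \ closure D) η (φ n) (rgrad (φ n)) i) := by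
    intro n
    obtain ⟨a1, a2⟩ := test_cut hη (hφ n)
    rw [← a1, ← a2 i]
    exact WD.of_smooth (hη.smooth.mul (hφ n).smooth) ((hφ n).cpt.mul_left) _
  refine WD.limit e1 ?_ ?_
  · intro ψ hψ hc
    refine tendsto_pair_of_N2 (fun n => (cF_L2 hU hη (hLφ n).1 (hLφ n).2.integrableOn).1)
      (cF_L2 hU hη hw.meas hw.sq).1 ?_ (L2_of_cc hψ hc)
    simp_rw [cF_sub]
    refine squeeze_zero (fun n => N2_nonneg _) (fun n => ?_) hl
    exact (cF_L2 hU hη ((hLφ n).1.sub hw.meas) (hid n)).2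
  · intro ψ hψ hc
    refine tendsto_pair_of_N2 (fun n => (cG_L2 hU hη (hLφ n).1 (hLφ n).2.integrableOn i
      (hLφ' n i).1 (hLφ' n i).2.integrableOn).1)
      (cG_L2 hU hη hw.meas hw.sq i (hw.meas_grad i) (hw.sq_grad i)).1 ?_ (L2_of_cc hψ hc)
    simp_rw [cG_sub]
    have hz : Tendsto (fun n => 2 * (∫ y in Ω \ closure D, (rgrad (φ n) i y - h i y) ^ 2) +
        2 * (M ^ 2 * ∫ y in Ω \ closure D, (φ n y - w y) ^ 2)) atTop (𝓝 0) := by
      have := ((hlg i).const_mul 2).add ((hl.const_mul (M ^ 2)).const_mul 2)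
      simpa using this
    refine squeeze_zero (fun n => N2_nonneg _) (fun n => ?_) hz
    exact (cG_L2 hU hη ((hLφ n).1.sub hw.meas) (hid n) i ((hLφ' n i).1.sub (hw.meas_grad i))
      (hid' n)).2

end main

end Pool.Agent.P8H23.PM
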