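import Pool.Agent.P8H23.PM.PackW1

/-!
# Weak limits (written by helper43)
-/

set_option autoImplicit false

open MeasureTheory Filter Topology Set
open scoped ContDiff

namespace Pool.Agent.P8H23.PM

open Pool.Agent.Helper985.VR

/-- pairs (function, gradient) -/
abbrev HH : Type := PiLp 2 (fun _ : Option (Fin 3) => Lp ℝ 2 (volume : Measure E3))

/-- the point of the Hilbert space -/
noncomputable def Pt (u : Option (Fin 3) → E3 → ℝ) (hu : ∀ o, L2 (u o)) : HH :=
  WithLp.toLp 2 fun o => (hu o).memLp.toLp (u o)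

lemma inner_Pt {u v : Option (Fin 3) → E3 → ℝ} (hu : ∀ o, L2 (u o)) (hv : ∀ o, L2 (v o)) :
    inner ℝ (Pt u hu) (Pt v hv) = ∑ o, ∫ x, v o x * u o x := by
  rw [PiLp.inner_apply]
  refine Finset.sum_congr rfl fun o _ => ?_
  rw [MeasureTheory.L2.inner_def]
  refine integral_congr_ae ?_
  filter_upwards [(hu o).memLp.coeFn_toLp, (hv o).memLp.coeFn_toLp] with x h1 h2
  have e1 : (Pt u hu) o = (hu o).memLp.toLp (u o) := rfl
  have e2 : (Pt v hv) o = (hv o).memLp.toLp (v o) := rfl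
  rw [e1, e2, h1, h2]
  simp

lemma norm_Pt {u : Option (Fin 3) → E3 → ℝ} (hu : ∀ o, L2 (u o)) :
    ‖Pt u hu‖ ^ 2 = ∑ o, N2 (u o) := by
  rw [← real_inner_self_eq_norm_sq, inner_Pt]
  refine Finset.sum_congr rfl fun o _ => ?_
  unfold N2
  congr 1
  ext x
  ring

lemma Pt_ext {u v : Option (Fin 3) → E3 → ℝ} (hu : ∀ o, L2 (u o)) (hv : ∀ o, L2 (v o))
    (h : ∀ o, u o =ᵐ[volume] v o) : Pt u hu = Pt v hv := by
  unfold Pt
  congr 1
  ext1 o
  exact (MemLp.toLp_eq_toLp_iff _ _).2 (h o)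

lemma Pt_add {u v : Option (Fin 3) → E3 → ℝ} (hu : ∀ o, L2 (u o)) (hv : ∀ o, L2 (v o)) :
    Pt u hu + Pt v hv = Pt (fun o x => u o x + v o x) (fun o => (hu o).add (hv o)) := by
  unfold Pt
  rw [← WithLp.toLp_add]
  congr 1

lemma Pt_sub {u v : Option (Fin 3) → E3 → ℝ} (hu : ∀ o, L2 (u o)) (hv : ∀ o, L2 (v o)) :
    Pt u hu - Pt v hv = Pt (fun o x => u o x - v o x) (fun o => (hu o).sub (hv o)) := by
  unfold Pt
  rw [← WithLp.toLp_sub]
  congr 1

lemma Pt_smul {u : Option (Fin 3) → E3 → ℝ} (hu : ∀ o, L2 (u o)) (c : ℝ) :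
    c • Pt u hu = Pt (fun o x => c * u o x) (fun o => (hu o).const_mul c) := by
  unfold Pt
  rw [← WithLp.toLp_smul]
  congr 1

lemma exists_Pt (x : HH) : ∃ u, ∃ hu : ∀ o, L2 (u o), x = Pt u hu := by
  refine ⟨fun o => (x o : E3 → ℝ), fun o => L2.of_memLp (Lp.stronglyMeasurable _).measurable
    (Lp.memLp _), ?_⟩
  unfold Pt
  apply PiLp.ext
  intro o
  exact (Lp.toLp_coeFn (x o) (Lp.memLp _)).symm

/-- the components of a pair, on `U` -/
noncomputable def cmp (U : Set E3) (w : E3 → ℝ) (h : Fin 3 → E3 → ℝ) (o : Option (Fin 3)) :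
    E3 → ℝ := U.indicator (Option.elim o w h)

lemma cmp_L2 {U : Set E3} (hU : MeasurableSet U) {w : E3 → ℝ} {h : Fin 3 → E3 → ℝ}
    (hm : Measurable w) (hi : IntegrableOn (fun y => w y ^ 2) U) (hm' : ∀ i, Measurable (h i))
    (hi' : ∀ i, IntegrableOn (fun y => h i y ^ 2) U) (o : Option (Fin 3)) : L2 (cmp U w h o) := by
  cases o with
  | none => exact L2_ind hU hm hi
  | some i => exact L2_ind hU (hm' i) (hi' i)

lemma cmp_add (U : Set E3) (w w' : E3 → ℝ) (h h' : Fin 3 → E3 → ℝ) (o : Option (Fin 3)) (x : E3) :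
    cmp U w h o x + cmp U w' h' o x = cmp U (fun x => w x + w' x) (fun i x => h i x + h' i x) o x := by
  unfold cmp
  by_cases hx : x ∈ U
  · simp only [indicator_of_mem hx]
    cases o <;> rfl
  · simp only [indicator_of_notMem hx, add_zero]

lemma cmp_sub (U : Set E3) (w w' : E3 → ℝ) (h h' : Fin 3 → E3 → ℝ) (o : Option (Fin 3)) (x : E3) :
    cmp U w h o x - cmp U w' h' o x = cmp U (fun x => w x - w' x) (fun i x => h i x - h' i x) o x := by
  unfold cmp
  by_cases hx : x ∈ U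
  · simp only [indicator_of_mem hx]
    cases o <;> rfl
  · simp only [indicator_of_notMem hx, sub_zero]

lemma cmp_smul (U : Set E3) (c : ℝ) (w : E3 → ℝ) (h : Fin 3 → E3 → ℝ) (o : Option (Fin 3)) (x : E3) :
    c * cmp U w h o x = cmp U (fun x => c * w x) (fun i x => c * h i x) o x := by
  unfold cmp
  by_cases hx : x ∈ U
  · simp only [indicator_of_mem hx]
    cases o <;> rfl
  · simp only [indicator_of_notMem hx, mul_zero]

lemma RTest.add {U : Set E3} {φ ψ : E3 → ℝ} (hφ : RTest U φ) (hψ : RTest U ψ) :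
    RTest U (fun x => φ x + ψ x) :=
  ⟨hφ.smooth.add hψ.smooth, hφ.cpt.add hψ.cpt,
    (tsupport_add φ ψ).trans (union_subset hφ.sub hψ.sub)⟩

lemma RTest.smul {U : Set E3} {φ : E3 → ℝ} (hφ : RTest U φ) (c : ℝ) :
    RTest U (fun x => c * φ x) :=
  ⟨contDiff_const.mul hφ.smooth, hφ.cpt.mul_left, (tsupport_mul_subset_right).trans hφ.sub⟩

lemma RTest.zero {U : Set E3} : RTest U (fun _ => 0) :=
  ⟨contDiff_const, HasCompactSupport.zero, by
    have : tsupport (fun _ : E3 => (0 : ℝ)) = ∅ := by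
      rw [tsupport_eq_empty_iff]; rfl
    rw [this]
    exact empty_subset _⟩

lemma RTest.L2 {U : Set E3} {φ : E3 → ℝ} (hφ : RTest U φ) : L2 φ :=
  L2_of_cc hφ.smooth.continuous hφ.cpt

lemma RTest.L2' {U : Set E3} {φ : E3 → ℝ} (hφ : RTest U φ) (i : Fin 3) : Pool.Agent.Helper985.VR.L2 (rgrad φ i) :=
  L2_of_cc (fderiv_cc_continuous hφ.smooth _) (fderiv_cc_support hφ.cpt _)

lemma RTest.cmp {Ω U : Set E3} (hU : MeasurableSet U) {φ : E3 → ℝ} (hφ : RTest Ω φ)
    (o : Option (Fin 3)) : Pool.Agent.Helper985.VR.L2 (cmp U φ (rgrad φ) o) :=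
  cmp_L2 hU hφ.L2.1 hφ.L2.2.integrableOn (fun i => (hφ.L2' i).1)
    (fun i => (hφ.L2' i).2.integrableOn) o

/-- the subspace of the test functions -/
noncomputable def SS (Ω U : Set E3) (hU : MeasurableSet U) : Submodule ℝ HH where
  carrier := {x | ∃ φ, ∃ hφ : RTest Ω φ, x = Pt (cmp U φ (rgrad φ)) (hφ.cmp hU)}
  zero_mem' := by
    refine ⟨fun _ => 0, RTest.zero, ?_⟩
    have h1 : ‖Pt (cmp U (fun _ => 0) (rgrad fun _ => 0)) ((RTest.zero (U := Ω)).cmp hU)‖ ^ 2 = 0 := by
      rw [norm_Pt]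
      refine Finset.sum_eq_zero fun o _ => ?_
      have : cmp U (fun _ => 0) (rgrad fun _ => 0) o = fun _ => 0 := by
        ext x
        unfold cmp rgrad
        by_cases hx : x ∈ U
        · rw [indicator_of_mem hx]
          cases o with
          | none => rfl
          | some i => simp
        · rw [indicator_of_notMem hx]
      rw [this]
      simp [N2]
    have h2 := pow_eq_zero_iff (two_ne_zero) |>.1 h1
    exact (norm_eq_zero.1 h2).symm
  add_mem' := by
    rintro x y ⟨φ, hφ, rfl⟩ ⟨ψ, hψ, rfl⟩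
    refine ⟨_, hφ.add hψ, ?_⟩
    rw [Pt_add]
    apply Pt_ext
    intro o
    filter_upwards with x
    rw [cmp_add]
    congr 1
    ext i y
    unfold rgrad
    rw [fderiv_fun_add (hφ.smooth.differentiable (by norm_num) y)
      (hψ.smooth.differentiable (by norm_num) y)]
    rfl
  smul_mem' := by
    rintro c x ⟨φ, hφ, rfl⟩
    refine ⟨_, hφ.smul c, ?_⟩
    rw [Pt_smul]
    apply Pt_ext
    intro o
    filter_upwards with x
    rw [cmp_smul]
    congr 1
    ext i y
    unfold rgrad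
    rw [fderiv_const_mul (hφ.smooth.differentiable (by norm_num) y)]
    rfl

lemma sum_opt (f : Option (Fin 3) → ℝ) : ∑ o, f o = f none + ∑ i, f (some i) :=
  Fintype.sum_option f

lemma mem_closure_of_van {Ω D : Set E3} (hU : MeasurableSet (Ω \ closure D))
    {w : E3 → ℝ} {h : Fin 3 → E3 → ℝ} (hw : RH (Ω \ closure D) w h) (hv : RVan Ω D w h) :
    Pt (cmp (Ω \ closure D) w h) (cmp_L2 hU hw.meas hw.sq hw.meas_grad hw.sq_grad) ∈
      (SS Ω (Ω \ closure D) hU).topologicalClosure := by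
  obtain ⟨φ, hφ, hl, hlg⟩ := hv
  rw [← SetLike.mem_coe, Submodule.topologicalClosure_coe]
  refine mem_closure_of_tendsto (f := fun n => Pt (cmp (Ω \ closure D) (φ n) (rgrad (φ n)))
    ((hφ n).cmp hU)) (b := atTop) ?_ (Eventually.of_forall fun n => ⟨φ n, hφ n, rfl⟩)
  rw [tendsto_iff_norm_sub_tendsto_zero]
  have h1 : Tendsto (fun n => ‖Pt (cmp (Ω \ closure D) (φ n) (rgrad (φ n))) ((hφ n).cmp hU) -
      Pt (cmp (Ω \ closure D) w h) (cmp_L2 hU hw.meas hw.sq hw.meas_grad hw.sq_grad)‖ ^ 2) atTop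
      (𝓝 0) := by
    have h2 : ∀ n, ‖Pt (cmp (Ω \ closure D) (φ n) (rgrad (φ n))) ((hφ n).cmp hU) -
      Pt (cmp (Ω \ closure D) w h) (cmp_L2 hU hw.meas hw.sq hw.meas_grad hw.sq_grad)‖ ^ 2 =
      (∫ y in Ω \ closure D, (φ n y - w y) ^ 2) +
        ∑ i, ∫ y in Ω \ closure D, (rgrad (φ n) i y - h i y) ^ 2 := by
      intro n
      rw [Pt_sub, norm_Pt, sum_opt]
      simp_rw [cmp_sub]
      congr 1
      · exact N2_ind hU _
      · exact Finset.sum_congr rfl fun i _ => N2_ind hU _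
    simp_rw [h2]
    have := hl.add (tendsto_finsetSum Finset.univ fun i _ => hlg i)
    simpa using this
  have h3 := (Real.continuous_sqrt.tendsto 0).comp h1
  simpa [Function.comp_def, Real.sqrt_sq (norm_nonneg _)] using h3

/-- weak limits vanish on the boundary -/
theorem van_weak {Ω D : Set E3} (hU : MeasurableSet (Ω \ closure D))
    {w : ℕ → E3 → ℝ} {h : ℕ → Fin 3 → E3 → ℝ}
    (hw : ∀ n, RH (Ω \ closure D) (w n) (h n)) (hv : ∀ n, RVan Ω D (w n) (h n))
    {f : Option (Fin 3) → E3 → ℝ} (hf : ∀ o, L2 (f o))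
    (hlim : ∀ o, ∀ g : E3 → ℝ, L2 g → Tendsto
      (fun n => ∫ x, cmp (Ω \ closure D) (w n) (h n) o x * g x) atTop (𝓝 (∫ x, f o x * g x))) :
    RVan Ω D (f none) (fun i => f (some i)) := by
  have hP : ∀ o, L2 (cmp (Ω \ closure D) (f none) (fun i => f (some i)) o) :=
    cmp_L2 hU (hf none).1 (hf none).2.integrableOn (fun i => (hf _).1)
      (fun i => (hf _).2.integrableOn)
  have hmem : Pt (cmp (Ω \ closure D) (f none) (fun i => f (some i))) hP ∈
      (SS Ω (Ω \ closure D) hU).topologicalClosure := by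
    rw [← Submodule.orthogonal_orthogonal_eq_closure, Submodule.mem_orthogonal]
    intro g hg
    obtain ⟨u, hu, rfl⟩ := exists_Pt g
    rw [inner_Pt]
    have h1 : ∀ n, ∑ o, ∫ x, cmp (Ω \ closure D) (w n) (h n) o x * u o x = 0 := by
      intro n
      have h2 := mem_closure_of_van hU (hw n) (hv n)
      rw [← Submodule.orthogonal_orthogonal_eq_closure, Submodule.mem_orthogonal] at h2
      have h3 := h2 _ hg
      rw [inner_Pt] at h3
      exact h3
    have h2 : Tendsto (fun n => ∑ o, ∫ x, cmp (Ω \ closure D) (w n) (h n) o x * u o x) atTop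
        (𝓝 (∑ o, ∫ x, cmp (Ω \ closure D) (f none) (fun i => f (some i)) o x * u o x)) := by
      refine tendsto_finsetSum _ fun o _ => ?_
      have hi : L2 ((Ω \ closure D).indicator (u o)) := L2_ind hU (hu o).1 (hu o).2.integrableOn
      have h3 := hlim o _ hi
      have e1 : ∀ n, ∫ x, cmp (Ω \ closure D) (w n) (h n) o x * (Ω \ closure D).indicator (u o) x =
          ∫ x, cmp (Ω \ closure D) (w n) (h n) o x * u o x := by
        intro n
        congr 1
        ext x
        unfold cmp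
        by_cases hx : x ∈ Ω \ closure D
        · rw [indicator_of_mem hx, indicator_of_mem hx]
        · rw [indicator_of_notMem hx, zero_mul, zero_mul]
      have e2 : ∫ x, f o x * (Ω \ closure D).indicator (u o) x =
          ∫ x, cmp (Ω \ closure D) (f none) (fun i => f (some i)) o x * u o x := by
        congr 1
        ext x
        unfold cmp
        by_cases hx : x ∈ Ω \ closure D
        · rw [indicator_of_mem hx, indicator_of_mem hx]
          cases o <;> rfl
        · rw [indicator_of_notMem hx, indicator_of_notMem hx, mul_zero, zero_mul]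
      simp_rw [e1] at h3
      rw [e2] at h3
      exact h3
    simp_rw [h1] at h2
    exact (tendsto_nhds_unique h2 tendsto_const_nhds)
  rw [← SetLike.mem_coe, Submodule.topologicalClosure_coe, mem_closure_iff_seq_limit] at hmem
  obtain ⟨x, hx, hlim⟩ := hmem
  choose φ hφ hφx using hx
  have h1 : Tendsto (fun n => ‖x n - Pt (cmp (Ω \ closure D) (f none) (fun i => f (some i))) hP‖ ^ 2)
      atTop (𝓝 0) := by
    have := ((tendsto_iff_norm_sub_tendsto_zero.1 hlim).pow 2)
    simpa using this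
  have h2 : ∀ n, ‖x n - Pt (cmp (Ω \ closure D) (f none) (fun i => f (some i))) hP‖ ^ 2 =
      (∫ y in Ω \ closure D, (φ n y - f none y) ^ 2) +
        ∑ i, ∫ y in Ω \ closure D, (rgrad (φ n) i y - f (some i) y) ^ 2 := by
    intro n
    rw [hφx n, Pt_sub, norm_Pt, sum_opt]
    simp_rw [cmp_sub]
    congr 1
    · exact N2_ind hU _
    · exact Finset.sum_congr rfl fun i _ => N2_ind hU _
  simp_rw [h2] at h1
  have hnn0 : ∀ n, 0 ≤ ∫ y in Ω \ closure D, (φ n y - f none y) ^ 2 := fun n =>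
    integral_nonneg fun _ => sq_nonneg _
  have hnn1 : ∀ n i, 0 ≤ ∫ y in Ω \ closure D, (rgrad (φ n) i y - f (some i) y) ^ 2 := fun n i =>
    integral_nonneg fun _ => sq_nonneg _
  refine ⟨φ, hφ, ?_, fun i => ?_⟩
  · refine squeeze_zero hnn0 (fun n => ?_) h1
    have : 0 ≤ ∑ i, ∫ y in Ω \ closure D, (rgrad (φ n) i y - f (some i) y) ^ 2 :=
      Finset.sum_nonneg fun i _ => hnn1 n i
    linarith
  · refine squeeze_zero (fun n => hnn1 n i) (fun n => ?_) h1
    have : ∫ y in Ω \ closure D, (rgrad (φ n) i y - f (some i) y) ^ 2 ≤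
      ∑ i, ∫ y in Ω \ closure D, (rgrad (φ n) i y - f (some i) y) ^ 2 :=
      Finset.single_le_sum (f := fun i => ∫ y in Ω \ closure D,
        (rgrad (φ n) i y - f (some i) y) ^ 2) (fun i _ => hnn1 n i) (Finset.mem_univ i)
    have := hnn0 n
    linarith

end Pool.Agent.P8H23.PM
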