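import Pool.Agent.P8H23.PM.PackW2

/-!
# Convergence off the obstacle (written by helper43)
-/

set_option autoImplicit false

open MeasureTheory Filter Topology Set
open scoped ContDiff

namespace Pool.Agent.P8H23.PM

open Pool.Agent.Helper985.VR

/-- the standing hypotheses -/
structure Std (Ω D : Set E3) (k : ℝ) (w : ℕ → E3 → ℝ) (h : ℕ → Fin 3 → E3 → ℝ) : Prop where
  hΩ : IsOpen Ω
  hΩb : Bornology.IsBounded Ω
  hDΩ : closure D ⊆ Ω
  hne : RNotEig Ω D k
  hw : ∀ n, RH (Ω \ closure D) (w n) (h n)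
  hv : ∀ n, RVan Ω D (w n) (h n)
  b0 : ∀ n, ∫ y in Ω \ closure D, w n y ^ 2 ≤ 1
  b1 : ∀ n i, ∫ y in Ω \ closure D, h n i y ^ 2 ≤ 1
  heq : ∀ φ, RTest Ω φ →
    Tendsto (fun n => rform (Ω \ closure D) k (w n) (h n) φ (rgrad φ)) atTop (𝓝 0)

variable {Ω D : Set E3} {k : ℝ} {w : ℕ → E3 → ℝ} {h : ℕ → Fin 3 → E3 → ℝ}

lemma Std.sub (S : Std Ω D k w h) {ns : ℕ → ℕ} (hns : Tendsto ns atTop atTop) :
    Std Ω D k (fun n => w (ns n)) (fun n => h (ns n)) :=
  ⟨S.hΩ, S.hΩb, S.hDΩ, S.hne, fun _ => S.hw _, fun _ => S.hv _, fun _ => S.b0 _, fun _ i => S.b1 _ i,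
    fun φ hφ => (S.heq φ hφ).comp hns⟩

lemma rform_eq {U : Set E3} (hU : MeasurableSet U) {v : E3 → ℝ} {g : Fin 3 → E3 → ℝ}
    (hv : L2 (U.indicator v)) (hg : ∀ i, L2 (U.indicator (g i))) {Ω : Set E3} {φ : E3 → ℝ}
    (hφ : RTest Ω φ) :
    rform U k v g φ (rgrad φ) =
      (∑ i, ∫ x, U.indicator (g i) x * rgrad φ i x) - k ^ 2 * ∫ x, U.indicator v x * φ x := by
  unfold rform
  rw [← integral_indicator hU, ← integral_const_mul, ← integral_finsetSum, ← integral_sub]
  · congr 1
    ext x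
    by_cases hx : x ∈ U
    · simp only [indicator_of_mem hx]
    · simp only [indicator_of_notMem hx]
      simp
  · exact integrable_finsetSum _ fun i _ => (hg i).mul (hφ.L2' i)
  · exact (hv.mul hφ.L2).const_mul _
  · exact fun i _ => (hg i).mul (hφ.L2' i)

/-- any weak limit is zero -/
theorem weak_zero (S : Std Ω D k w h) {f : Option (Fin 3) → E3 → ℝ} (hf : ∀ o, L2 (f o))
    (hlim : ∀ o, ∀ g : E3 → ℝ, L2 g → Tendsto
      (fun n => ∫ x, cmp (Ω \ closure D) (w n) (h n) o x * g x) atTop (𝓝 (∫ x, f o x * g x))) :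
    ∀ᵐ y ∂(volume.restrict (Ω \ closure D)), f none y = 0 := by
  have hU : MeasurableSet (Ω \ closure D) := (U_open S.hΩ).measurableSet
  -- restriction of the test functions
  have hlim' : ∀ o, ∀ g : E3 → ℝ, L2 g → Tendsto
      (fun n => ∫ x, cmp (Ω \ closure D) (w n) (h n) o x * g x) atTop
        (𝓝 (∫ x, (Ω \ closure D).indicator (f o) x * g x)) := by
    intro o g hg
    have h3 := hlim o _ (L2_ind hU hg.1 hg.2.integrableOn)
    have e1 : ∀ n, ∫ x, cmp (Ω \ closure D) (w n) (h n) o x * (Ω \ closure D).indicator g x =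
        ∫ x, cmp (Ω \ closure D) (w n) (h n) o x * g x := by
      intro n
      congr 1
      ext x
      unfold cmp
      by_cases hx : x ∈ Ω \ closure D
      · rw [indicator_of_mem hx, indicator_of_mem hx]
      · rw [indicator_of_notMem hx, zero_mul, zero_mul]
    have e2 : ∫ x, f o x * (Ω \ closure D).indicator g x =
        ∫ x, (Ω \ closure D).indicator (f o) x * g x := by
      congr 1
      ext x
      by_cases hx : x ∈ Ω \ closure D
      · rw [indicator_of_mem hx, indicator_of_mem hx]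
      · rw [indicator_of_notMem hx, indicator_of_notMem hx, mul_zero, zero_mul]
    simp_rw [e1] at h3
    rw [e2] at h3
    exact h3
  refine S.hne (f none) (fun i => f (some i)) ?_ (van_weak hU S.hw S.hv hf hlim) ?_
  · refine ⟨(hf none).1, fun i => (hf _).1, (hf none).2.integrableOn,
      fun i => (hf _).2.integrableOn, fun i φ hφ => ?_⟩
    have h1 := hlim' none _ (hφ.L2' i)
    have h2 := (hlim' (some i) _ hφ.L2).neg
    have e1 : ∀ n, ∫ x, cmp (Ω \ closure D) (w n) (h n) none x * rgrad φ i x =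
        - ∫ x, cmp (Ω \ closure D) (w n) (h n) (some i) x * φ x := by
      intro n
      have := (S.hw n).weak i φ hφ
      rw [← int_ind hU, ← int_ind hU] at this
      exact this
    simp_rw [e1] at h1
    have h3 := tendsto_nhds_unique h1 h2
    rw [int_ind hU, int_ind hU] at h3
    exact h3
  · intro φ hφ
    have e1 : ∀ n, rform (Ω \ closure D) k (w n) (h n) φ (rgrad φ) =
        (∑ i, ∫ x, cmp (Ω \ closure D) (w n) (h n) (some i) x * rgrad φ i x) -
          k ^ 2 * ∫ x, cmp (Ω \ closure D) (w n) (h n) none x * φ x := fun n =>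
      rform_eq hU (L2_ind hU (S.hw n).meas (S.hw n).sq)
        (fun i => L2_ind hU ((S.hw n).meas_grad i) ((S.hw n).sq_grad i)) hφ
    have h1 := S.heq φ hφ
    simp_rw [e1] at h1
    have h2 : Tendsto (fun n => (∑ i, ∫ x, cmp (Ω \ closure D) (w n) (h n) (some i) x *
          rgrad φ i x) - k ^ 2 * ∫ x, cmp (Ω \ closure D) (w n) (h n) none x * φ x) atTop
        (𝓝 ((∑ i, ∫ x, (Ω \ closure D).indicator (f (some i)) x * rgrad φ i x) -
          k ^ 2 * ∫ x, (Ω \ closure D).indicator (f none) x * φ x)) :=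
      (tendsto_finsetSum _ fun i _ => hlim' (some i) _ (hφ.L2' i)).sub
        ((hlim' none _ hφ.L2).const_mul _)
    have h3 := tendsto_nhds_unique h2 h1
    rw [← h3]
    exact rform_eq hU (L2_ind hU (hf _).1 (hf _).2.integrableOn)
        (fun i => L2_ind hU (hf _).1 (hf _).2.integrableOn) hφ

lemma Std.Kn_le (S : Std Ω D k w h) {K : Set E3} {η : E3 → ℝ} {M : ℝ}
    (hη : Cut (closure D) K η M) (n : ℕ) :
    Kn (cG (Ω \ closure D) η (w n) (h n)) ≤ 3 * (2 + 2 * M ^ 2) := by
  have hU : MeasurableSet (Ω \ closure D) := (U_open S.hΩ).measurableSet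
  unfold Kn
  calc ∑ i, N2 (cG (Ω \ closure D) η (w n) (h n) i) ≤ ∑ _i : Fin 3, (2 + 2 * M ^ 2) := by
        refine Finset.sum_le_sum fun i _ => ?_
        refine (cG_L2 hU hη (S.hw n).meas (S.hw n).sq i ((S.hw n).meas_grad i)
          ((S.hw n).sq_grad i)).2.trans ?_
        have h1 := S.b0 n
        have h2 := S.b1 n i
        have h3 : M ^ 2 * ∫ y in Ω \ closure D, w n y ^ 2 ≤ M ^ 2 * 1 :=
          mul_le_mul_of_nonneg_left h1 (sq_nonneg M)
        linarith
    _ = _ := by rw [Finset.sum_const, Finset.card_univ, Fintype.card_fin, nsmul_eq_mul]; norm_num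

/-- convergence of the cut functions -/
theorem tendsto_cut (S : Std Ω D k w h) {K : Set E3} {η : E3 → ℝ} {M : ℝ}
    (hη : Cut (closure D) K η M) :
    Tendsto (fun n => N2 (cF (Ω \ closure D) η (w n))) atTop (𝓝 0) := by
  have hU : MeasurableSet (Ω \ closure D) := (U_open S.hΩ).measurableSet
  refine tendsto_of_subseq_tendsto fun ns hns => ?_
  have S1 := S.sub hns
  obtain ⟨σ, hσ, h1⟩ := exists_weak_subseq_family (α := E3) (Finset.univ : Finset (Option (Fin 3)))
    (u := fun o n => cmp (Ω \ closure D) (w (ns n)) (h (ns n)) o)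
    (fun o n => cmp_L2 hU (S1.hw n).meas (S1.hw n).sq (S1.hw n).meas_grad (S1.hw n).sq_grad o) 1
    (fun o n => by
      cases o with
      | none => exact (N2_ind hU _).trans_le (S1.b0 n)
      | some i => exact (N2_ind hU _).trans_le (S1.b1 n i))
  choose f hfL hf using fun o => h1 o (Finset.mem_univ o)
  have S2 := S1.sub hσ.tendsto_atTop
  have hz := weak_zero S2 hfL hf
  have hH : ∀ n, H1 bb (cF (Ω \ closure D) η (w (ns (σ n))))
      (cG (Ω \ closure D) η (w (ns (σ n))) (h (ns (σ n)))) := fun n =>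
    cut_H1 S.hΩ hη (S2.hw n) (S2.hv n)
  set C : ℝ := max 1 (3 * (2 + 2 * M ^ 2)) with hC
  have hN : ∀ n, N2 (cF (Ω \ closure D) η (w (ns (σ n)))) ≤ C := fun n =>
    ((cF_L2 hU hη (S2.hw n).meas (S2.hw n).sq).2.trans (S2.b0 n)).trans (le_max_left _ _)
  have hK : ∀ n, Kn (cG (Ω \ closure D) η (w (ns (σ n))) (h (ns (σ n)))) ≤ C := fun n =>
    (S2.Kn_le hη n).trans (le_max_right _ _)
  obtain ⟨τ, hτ, F, G, hWC⟩ := H1.weak_subseq hH C hN hK
  have hF0 : F =ᵐ[volume] 0 := by
    apply N2_eq_zero hWC.1.1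
    have h2 := hWC.2.1 F hWC.1.1
    have hL : L2 (fun x => η x * F x) :=
      hWC.1.1.bdd_mul hη.smooth.continuous.measurable 1 fun x => by
        rw [abs_of_nonneg (hη.nn x)]
        exact hη.le x
    have h3 := (hf none _ (L2_ind hU hL.1 hL.2.integrableOn)).comp hτ.tendsto_atTop
    have e1 : ∀ n, ∫ x, cF (Ω \ closure D) η (w (ns (σ (τ n)))) x * F x =
        ∫ x, cmp (Ω \ closure D) (w (ns (σ (τ n)))) (h (ns (σ (τ n)))) none x *
          (Ω \ closure D).indicator (fun x => η x * F x) x := by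
      intro n
      congr 1
      ext x
      unfold cF cmp
      by_cases hx : x ∈ Ω \ closure D
      · simp only [indicator_of_mem hx, Option.elim]
        ring
      · simp only [indicator_of_notMem hx]
        ring
    have e2 : ∫ x, f none x * (Ω \ closure D).indicator (fun x => η x * F x) x = 0 := by
      have h4 : ∀ᵐ x, f none x * (Ω \ closure D).indicator (fun x => η x * F x) x = 0 := by
        rw [ae_restrict_iff' hU] at hz
        filter_upwards [hz] with x hx
        by_cases hx2 : x ∈ Ω \ closure D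
        · rw [hx hx2, zero_mul]
        · rw [indicator_of_notMem hx2, mul_zero]
      rw [integral_congr_ae h4]
      simp
    rw [e2] at h3
    simp_rw [e1] at h2
    have h5 := tendsto_nhds_unique h2 h3
    unfold N2
    rw [← h5]
    congr 1
    ext x
    ring
  have hR := WCv.rellich hWC (fun n => hH (τ n)) C (fun n => hN _) (fun n => hK _)
    (B := Ω) S.hΩ.measurableSet S.hΩb.measure_lt_top.ne
  refine ⟨fun n => σ (τ n), hR.congr fun n => ?_⟩
  have e3 : ∀ᵐ x ∂(volume.restrict Ω), (cF (Ω \ closure D) η (w (ns (σ (τ n)))) x - F x) ^ 2 =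
      cF (Ω \ closure D) η (w (ns (σ (τ n)))) x ^ 2 := by
    filter_upwards [ae_restrict_of_ae hF0] with x hx
    rw [hx, Pi.zero_apply, sub_zero]
  rw [integral_congr_ae e3]
  unfold N2
  refine setIntegral_eq_integral_of_forall_compl_eq_zero fun x hx => ?_
  unfold cF
  rw [indicator_of_notMem (fun h => hx h.1)]
  ring

/-- convergence off the obstacle -/
theorem tendsto_off (S : Std Ω D k w h) {K : Set E3} (hK : IsClosed K)
    (hKD : Disjoint (closure D) K) :
    Tendsto (fun n => ∫ y in K ∩ (Ω \ closure D), w n y ^ 2) atTop (𝓝 0) := by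
  have hU : MeasurableSet (Ω \ closure D) := (U_open S.hΩ).measurableSet
  have hDc : IsCompact (closure D) :=
    Metric.isCompact_of_isClosed_isBounded isClosed_closure (S.hΩb.subset S.hDΩ)
  obtain ⟨η, M, hη⟩ := exists_cut hDc hK hKD
  refine squeeze_zero (fun n => integral_nonneg fun _ => sq_nonneg _) (fun n => ?_)
    (tendsto_cut S hη)
  have hL := (cF_L2 hU hη (S.hw n).meas (S.hw n).sq).1
  have e1 : ∫ y in K ∩ (Ω \ closure D), w n y ^ 2 =
      ∫ y in K ∩ (Ω \ closure D), cF (Ω \ closure D) η (w n) y ^ 2 := by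
    refine setIntegral_congr_fun (hK.measurableSet.inter hU) fun x hx => ?_
    show w n x ^ 2 = (η x * (Ω \ closure D).indicator (w n) x) ^ 2
    rw [hη.one.self_of_nhdsSet x hx.1, one_mul, indicator_of_mem hx.2]
  rw [e1]
  exact setIntegral_le_integral hL.2 (by filter_upwards with x using sq_nonneg _)

end Pool.Agent.P8H23.PM
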