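import Pool.Agent.P8H23.PM.Defs

/-!
# The probe method for the Helmholtz equation: the complex-valued definitions of the statement
-/

set_option autoImplicit false

open MeasureTheory Filter Topology Set
open scoped ContDiff ComplexConjugate ENNReal

namespace Pool.Agent.P8H23.PM

/-- `φ` is a test function in the open set `U`: smooth, with compact support in `U` -/
structure IsTest (U : Set E3) (φ : E3 → ℂ) : Prop where
  smooth : ContDiff ℝ ∞ φ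
  cpt : HasCompactSupport φ
  sub : tsupport φ ⊆ U

/-- the classical partial derivatives `∂_i φ` -/
noncomputable def grad (φ : E3 → ℂ) (i : Fin 3) (y : E3) : ℂ := fderiv ℝ φ y (ee i)

/-- `v ∈ H¹(U)` with weak gradient `g` (Borel representatives) -/
structure InH1 (U : Set E3) (v : E3 → ℂ) (g : Fin 3 → E3 → ℂ) : Prop where
  meas : Measurable v
  meas_grad : ∀ i, Measurable (g i)
  sq : IntegrableOn (fun y => ‖v y‖ ^ 2) U
  sq_grad : ∀ i, IntegrableOn (fun y => ‖g i y‖ ^ 2) U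
  weak : ∀ i φ, IsTest U φ → ∫ y in U, v y * grad φ i y = - ∫ y in U, g i y * φ y

/-- the sesquilinear form `∫_U ∇v·∇ū − k² v ū` of the Helmholtz equation -/
noncomputable def form (U : Set E3) (k : ℝ) (v : E3 → ℂ) (g : Fin 3 → E3 → ℂ) (u : E3 → ℂ)
    (h : Fin 3 → E3 → ℂ) : ℂ :=
  ∫ y in U, ((∑ i, g i y * conj (h i y)) - (k : ℂ) ^ 2 * (v y * conj (u y)))

/-- `Δ v + k² v = 0` in `U`, weakly -/
def Solves (U : Set E3) (k : ℝ) (v : E3 → ℂ) (g : Fin 3 → E3 → ℂ) : Prop :=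
  ∀ φ, IsTest U φ → form U k v g φ (grad φ) = 0

/-- `w ∈ H¹(Ω ∖ D̄)` (with gradient `h`) vanishes on `∂Ω`: it is the limit in `H¹(Ω ∖ D̄)` of
restrictions of smooth functions with compact support in `Ω` -/
def VanishesOuter (Ω D : Set E3) (w : E3 → ℂ) (h : Fin 3 → E3 → ℂ) : Prop :=
  ∃ φ : ℕ → E3 → ℂ, (∀ n, IsTest Ω (φ n)) ∧
    Tendsto (fun n => ∫ y in Ω \ closure D, ‖φ n y - w y‖ ^ 2) atTop (𝓝 0) ∧
    ∀ i, Tendsto (fun n => ∫ y in Ω \ closure D, ‖grad (φ n) i y - h i y‖ ^ 2) atTop (𝓝 0)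

/-- `Δ u + k² u = 0` in `Ω ∖ D̄` and `∂_ν u = 0` on `∂D`, weakly: `∫_{Ω ∖ D̄} ∇u·∇φ̄ − k² u φ̄ = 0` for
all test functions `φ` of `Ω` (which need not vanish on `∂D`) -/
def SolvesNeumann (Ω D : Set E3) (k : ℝ) (u : E3 → ℂ) (gu : Fin 3 → E3 → ℂ) : Prop :=
  ∀ φ, IsTest Ω φ → form (Ω \ closure D) k u gu φ (grad φ) = 0

/-- `k²` is not an eigenvalue of `−Δ` in `Ω ∖ D̄` with Dirichlet condition on `∂Ω` and Neumann
condition on `∂D` -/
def NotEigenvalue (Ω D : Set E3) (k : ℝ) : Prop :=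
  ∀ (w : E3 → ℂ) (h : Fin 3 → E3 → ℂ), InH1 (Ω \ closure D) w h → VanishesOuter Ω D w h →
    SolvesNeumann Ω D k w h → ∀ᵐ y ∂(volume.restrict (Ω \ closure D)), w y = 0

/-- `G` is a solution of the Helmholtz equation in `ℝ³ ∖ {0}` with `∫_V |∇G|² = ∞` for every finite
cone `V` with vertex `0` -/
structure SingularSolution (k : ℝ) (G : E3 → ℂ) : Prop where
  smooth : ContDiffOn ℝ ∞ G {0}ᶜ
  helmholtz : Solves {0}ᶜ k G (grad G)
  cone : ∀ (a : E3) (ρ α : ℝ), ‖a‖ = 1 → 0 < ρ → 0 < α → α < 1 →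
    ∫⁻ y in finiteCone 0 a ρ α, ∑ i, ‖grad G i y‖ₑ ^ 2 = ⊤

/-- needle sequences: `v n ∈ H¹(Ω)` solves the Helmholtz equation and
`v n → G(· − x)` in `H¹_loc(Ω ∖ σ)` -/
structure NeedleSequence (Ω : Set E3) (k : ℝ) (G : E3 → ℂ) (x : E3) (σ : ℝ → E3)
    (v : ℕ → E3 → ℂ) (g : ℕ → Fin 3 → E3 → ℂ) : Prop where
  inH1 : ∀ n, InH1 Ω (v n) (g n)
  solves : ∀ n, Solves Ω k (v n) (g n)
  conv : ∀ K, IsCompact K → K ⊆ Ω \ (σ '' Icc 0 1) →
    Tendsto (fun n => ∫ y in K, ‖v n y - G (y - x)‖ ^ 2) atTop (𝓝 0)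
  conv_grad : ∀ K, IsCompact K → K ⊆ Ω \ (σ '' Icc 0 1) → ∀ i,
    Tendsto (fun n => ∫ y in K, ‖g n i y - grad G i (y - x)‖ ^ 2) atTop (𝓝 0)

/-- `u ∈ H¹(Ω ∖ D̄)` is the weak solution of `Δu + k²u = 0` in `Ω ∖ D̄`, `∂_ν u = 0` on `∂D`, `u = v` on
`∂Ω` -/
structure Reflected (Ω D : Set E3) (k : ℝ) (v : E3 → ℂ) (g : Fin 3 → E3 → ℂ) (u : E3 → ℂ)
    (gu : Fin 3 → E3 → ℂ) : Prop where
  inH1 : InH1 (Ω \ closure D) u gu
  boundary : VanishesOuter Ω D (fun y => u y - v y) (fun i y => gu i y - g i y)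
  solves : SolvesNeumann Ω D k u gu

/-- `∫_{∂Ω} (∂_ν v − Λ_D (v|∂Ω)) v̄ dS`, where `u` is the reflected solution of `v`; both terms are
duality pairings, given by Green's formula:
`∫_{∂Ω} ∂_ν v v̄ = ∫_Ω |∇v|² − k² |v|²` and `∫_{∂Ω} ∂_ν u v̄ = ∫_{Ω ∖ D̄} ∇u·∇v̄ − k² u v̄` -/
noncomputable def indicatorValue (Ω D : Set E3) (k : ℝ) (v : E3 → ℂ) (g : Fin 3 → E3 → ℂ)
    (u : E3 → ℂ) (gu : Fin 3 → E3 → ℂ) : ℂ :=
  form Ω k v g v g - form (Ω \ closure D) k u gu v g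

end Pool.Agent.P8H23.PM
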