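import Pool.Agent.P8H23.PM.Fatou

set_option autoImplicit false

open MeasureTheory Filter Topology Set
open scoped ContDiff ENNReal Manifold
open Pool.Agent.Helper985.VR

namespace Pool.Agent.P8H23.PM

/-- the Caccioppoli identity for the cut-off `χ` -/
def Cacc (U : Set E3) (k : ℝ) (χ : E3 → ℝ) : Prop :=
  ∀ (f : E3 → ℝ) (g : Fin 3 → E3 → ℝ), RH U f g → RSolves U k f g →
    ∫ y, ∑ i, (χ y * g i y + rgrad χ i y * f y) ^ 2 =
      (∫ y, (∑ i, rgrad χ i y ^ 2) * f y ^ 2) + k ^ 2 * ∫ y, (χ y * f y) ^ 2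

/-- solutions have controlled energy on thin sets -/
theorem thin_energy {Ω : Set E3} (hΩ : MeasurableSet Ω) {k : ℝ} {χ : E3 → ℝ} (hχ : RTest Ω χ)
    (hc : Cacc Ω k χ) {Cb : ℝ} (hCb : ∀ h : E3, ∑ i, bas.repr h i ^ 2 ≤ Cb * ‖h‖ ^ 2) {h : E3}
    (hh : k ^ 2 * (Cb * ‖h‖ ^ 2) ≤ 1) (hdis : ∀ y, χ y ≠ 0 → χ (y + h) = 0)
    {f : E3 → ℝ} {g : Fin 3 → E3 → ℝ} (hf : RH Ω f g) (hs : RSolves Ω k f g) :
    ∫ y, ∑ i, (χ y * g i y + rgrad χ i y * f y) ^ 2 ≤
      2 * ∫ y, (∑ i, rgrad χ i y ^ 2) * f y ^ 2 := by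
  have hF : H1 (⇑bas) (fun y => χ y * f y) (fun i y => χ y * g i y + rgrad χ i y * f y) := by
    rw [bas_coe]; exact hf.cut hΩ hχ
  have h1 := hF.trans_le h
  have L := hF.1
  have h2 : N2 (fun y => χ (y + h) * f (y + h) - χ y * f y) = 2 * N2 (fun y => χ y * f y) := by
    rw [N2_sub (L.translate h) L]
    have e1 : N2 (fun y => χ (y + h) * f (y + h)) = N2 (fun y => χ y * f y) :=
      N2_translate (fun y => χ y * f y) h
    have e2 : ∫ y, χ (y + h) * f (y + h) * (χ y * f y) = 0 := by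
      have : ∀ y, χ (y + h) * f (y + h) * (χ y * f y) = 0 := by
        intro y
        by_cases hy : χ y = 0
        · rw [hy]; ring
        · rw [hdis y hy]; ring
      simp_rw [this]; simp
    rw [e1, e2]; ring
  rw [h2] at h1
  have hc' := hc f g hf hs
  have e3 : ∫ y, ∑ i, (χ y * g i y + rgrad χ i y * f y) ^ 2 =
      Kn (fun i y => χ y * g i y + rgrad χ i y * f y) := int_sum_sq hF.2.1
  have hK : 0 ≤ Kn (fun i y => χ y * g i y + rgrad χ i y * f y) := Kn_nonneg _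
  rw [e3] at hc' ⊢
  have h3 : 2 * N2 (fun y => χ y * f y) ≤
      (Cb * ‖h‖ ^ 2) * Kn (fun i y => χ y * g i y + rgrad χ i y * f y) :=
    h1.trans (mul_le_mul_of_nonneg_right (hCb h) hK)
  have h4 : k ^ 2 * ∫ y, (χ y * f y) ^ 2 ≤
      (1/2) * Kn (fun i y => χ y * g i y + rgrad χ i y * f y) := by
    have h5 : k ^ 2 * (2 * N2 (fun y => χ y * f y)) ≤ k ^ 2 * ((Cb * ‖h‖ ^ 2) *
        Kn (fun i y => χ y * g i y + rgrad χ i y * f y)) :=
      mul_le_mul_of_nonneg_left h3 (sq_nonneg _)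
    have h6 : k ^ 2 * ((Cb * ‖h‖ ^ 2) * Kn (fun i y => χ y * g i y + rgrad χ i y * f y)) ≤
        1 * Kn (fun i y => χ y * g i y + rgrad χ i y * f y) := by
      rw [← mul_assoc]
      exact mul_le_mul_of_nonneg_right hh hK
    unfold N2 at h5
    linarith
  linarith

/-- The tail of the needle: a solution with bounded `L²` norms on `D̄` and away from the needle has
bounded energy near the tip of the needle. -/
theorem lemmaT {Ω D : Set E3} (hΩ : IsOpen Ω) (hD : IsOpen D) (hDΩ : closure D ⊆ Ω) {k : ℝ}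
    (hc : ∀ χ, RTest Ω χ → Cacc Ω k χ) {x : E3} {σ : ℝ → E3} (hinj : InjOn σ (Icc 0 1))
    (hcont : ContinuousOn σ (Icc 0 1)) (hx : σ 1 = x) (hxΩ : x ∈ Ω)
    (hin : ∀ s ∈ Ioo (0:ℝ) 1, σ s ∈ Ω) (h0 : σ 0 ∉ Ω)
    (hS0 : volume {y : E3 | ∃ p ∈ σ '' Icc 0 1, ∃ q ∈ σ '' Icc 0 1, y = p - q} = 0)
    (hne : (σ '' Icc 0 1 ∩ D).Nonempty) :
    ∃ r > 0, ∃ B : ℝ, 0 ≤ B ∧ ∃ R, IsCompact R ∧ R ⊆ Ω \ (σ '' Icc 0 1) ∧ Metric.ball x r ⊆ Ω ∧
      ∀ (f : E3 → ℝ) (g : Fin 3 → E3 → ℝ), RH Ω f g → RSolves Ω k f g →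
        ∀ i, ∫ y in Metric.ball x r, g i y ^ 2 ≤
          B * ((∫ y in closure D, f y ^ 2) + ∫ y in R, f y ^ 2) := by
  obtain ⟨p, ⟨t, ht, htp⟩, hpD⟩ := hne
  have htD : σ t ∈ D := by rw [htp]; exact hpD
  have ht0 : t ≠ 0 := by
    rintro rfl
    exact h0 (hDΩ (subset_closure htD))
  have ht0' : 0 < t := lt_of_le_of_ne ht.1 (Ne.symm ht0)
  set τ : Set E3 := σ '' Icc t 1 with hτ
  set κ : Set E3 := σ '' Icc 0 t with hκ
  have hτc : IsCompact τ := isCompact_Icc.image_of_continuousOn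
    (hcont.mono (Icc_subset_Icc_left ht.1))
  have hκc : IsCompact κ := isCompact_Icc.image_of_continuousOn
    (hcont.mono (Icc_subset_Icc_right ht.2))
  have hSκτ : σ '' Icc 0 1 = κ ∪ τ := by
    rw [hκ, hτ, ← image_union, Icc_union_Icc_eq_Icc ht.1 ht.2]
  have hτΩ : τ ⊆ Ω := by
    rintro _ ⟨s, hs, rfl⟩
    rcases hs.2.eq_or_lt with h1 | h1
    · rw [h1, hx]; exact hxΩ
    · exact hin s ⟨ht0'.trans_le hs.1, h1⟩
  -- the part of the needle outside `D`
  set Q : Set E3 := κ \ D with hQ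
  have hQc : IsCompact Q := hκc.diff hD
  have hQτ : Disjoint Q τ := by
    rw [Set.disjoint_left]
    rintro q ⟨⟨s, hs, rfl⟩, hqD⟩ ⟨s', hs', hss⟩
    have : s' = s := hinj ⟨ht.1.trans hs'.1, hs'.2⟩ ⟨hs.1, hs.2.trans ht.2⟩ hss
    subst this
    have : s' = t := le_antisymm hs.2 hs'.1
    subst this
    exact hqD htD
  obtain ⟨δ1, hδ1, hd1⟩ := hQτ.exists_thickenings hQc hτc.isClosed
  -- the shift
  obtain ⟨Cb, hCb, hrep⟩ := exists_repr_bound bas
  obtain ⟨η, hη, hηk⟩ : ∃ η > 0, k ^ 2 * (Cb * η ^ 2) ≤ 1 := by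
    refine ⟨min 1 (1 / (k ^ 2 * Cb + 1)), by positivity, ?_⟩
    set m := min 1 (1 / (k ^ 2 * Cb + 1)) with hm
    have h1 : m ≤ 1 := min_le_left _ _
    have h2 : m ≤ 1 / (k ^ 2 * Cb + 1) := min_le_right _ _
    have h0 : 0 < m := by positivity
    have h3 : m ^ 2 ≤ m := by nlinarith
    have h4 : m * (k ^ 2 * Cb + 1) ≤ 1 := by rwa [le_div_iff₀ (by positivity)] at h2
    have h5 : k ^ 2 * Cb * m ^ 2 ≤ k ^ 2 * Cb * m := mul_le_mul_of_nonneg_left h3 (by positivity)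
    nlinarith
  have hball : Shifts (Set.univ : Set E3) := ⟨fun _ _ _ _ _ => mem_univ _, fun ε hε => by
    rw [univ_inter]; exact Metric.measure_ball_pos volume 0 hε⟩
  obtain ⟨h, -, hhη, hhS⟩ := hball.exists_small hS0 hη
  have hhk : k ^ 2 * (Cb * ‖h‖ ^ 2) ≤ 1 := by
    refine le_trans ?_ hηk
    gcongr
  have hτ' : IsCompact ((fun p : E3 => p - h) '' τ) := hτc.image (continuous_sub_right h)
  have hτS : τ ⊆ σ '' Icc 0 1 := by rw [hSκτ]; exact subset_union_right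
  have hdisj : Disjoint τ ((fun p : E3 => p - h) '' τ) := by
    rw [Set.disjoint_left]
    rintro q hq ⟨p, hp, hpq⟩
    exact hhS ⟨p, hτS hp, q, hτS hq, by rw [← hpq]; simp⟩
  obtain ⟨δ2, hδ2, hd2⟩ := hdisj.exists_thickenings hτc hτ'.isClosed
  -- the cut-off
  set δ := min δ1 δ2 with hδ
  have hδ0 : 0 < δ := lt_min hδ1 hδ2
  obtain ⟨χ, hχ, hχ1, hχ01⟩ := exists_cutoff (K := τ) (U := Metric.thickening δ τ ∩ Ω) hτc
    (Metric.isOpen_thickening.inter hΩ) (subset_inter (Metric.self_subset_thickening hδ0 _) hτΩ)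
  have hχΩ : RTest Ω χ := ⟨hχ.smooth, hχ.cpt, hχ.sub.trans inter_subset_right⟩
  obtain ⟨W, hW, hτW, hW1⟩ : ∃ W, IsOpen W ∧ τ ⊆ W ∧ ∀ y ∈ W, χ y = 1 := by
    rw [eventually_nhdsSet_iff_exists] at hχ1
    exact hχ1
  have hgW : ∀ y ∈ W, ∀ i, rgrad χ i y = 0 := by
    intro y hy i
    have h : χ =ᶠ[𝓝 y] fun _ => 1 := by
      filter_upwards [hW.mem_nhds hy] with z hz using hW1 z hz
    unfold rgrad
    rw [h.fderiv_eq]
    simp
  set R0 : Set E3 := tsupport χ \ W with hR0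
  have hR0c : IsCompact R0 := hχ.cpt.isCompact.diff hW
  have hR0g : ∀ y, y ∉ R0 → ∀ i, rgrad χ i y = 0 := by
    intro y hy i
    by_cases h1 : y ∈ W
    · exact hgW y h1 i
    · exact rgrad_eq_zero (fun h2 => hy ⟨h2, h1⟩) i
  set R : Set E3 := R0 \ D with hR
  have hRc : IsCompact R := hR0c.diff hD
  have hRS : R ⊆ Ω \ (σ '' Icc 0 1) := by
    rintro y ⟨⟨hy1, hyW⟩, hyD⟩
    refine ⟨(hχ.sub hy1).2, ?_⟩
    rw [hSκτ]
    rintro (hyκ | hyτ)
    · refine (Set.disjoint_left.1 hd1) (Metric.self_subset_thickening hδ1 _ ⟨hyκ, hyD⟩) ?_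
      exact Metric.thickening_mono (min_le_left _ _) _ (hχ.sub hy1).1
    · exact hyW (hτW hyτ)
  have hdis : ∀ y, χ y ≠ 0 → χ (y + h) = 0 := by
    intro y hy
    by_contra hyh
    have h1 : y ∈ Metric.thickening δ2 τ := Metric.thickening_mono (min_le_right _ _) _
      (hχ.sub (subset_tsupport _ hy)).1
    have h2 : y + h ∈ Metric.thickening δ2 τ := Metric.thickening_mono (min_le_right _ _) _
      (hχ.sub (subset_tsupport _ hyh)).1
    refine (Set.disjoint_left.1 hd2) h1 ?_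
    rw [Metric.mem_thickening_iff] at h2 ⊢
    obtain ⟨z, hz, hzd⟩ := h2
    refine ⟨z - h, ⟨z, hz, rfl⟩, ?_⟩
    rw [dist_eq_norm] at hzd ⊢
    rwa [show y - (z - h) = y + h - z by abel]
  -- the bound of the gradient of the cut-off
  obtain ⟨B, hB⟩ : ∃ B : ℝ, ∀ y, ∑ i, rgrad χ i y ^ 2 ≤ B := by
    have hcts : Continuous fun y => ∑ i, rgrad χ i y ^ 2 :=
      continuous_finsetSum _ fun i _ => (rgrad_cont hχ.smooth i).pow 2
    have hcs : HasCompactSupport fun y => ∑ i, rgrad χ i y ^ 2 := by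
      refine HasCompactSupport.of_support_subset_isCompact (K := R0) hR0c ?_
      intro y hy
      by_contra hyR
      apply hy
      simp [hR0g y hyR]
    obtain ⟨B, hB⟩ := hcs.exists_bound_of_continuous hcts
    exact ⟨B, fun y => (le_abs_self _).trans (by simpa [Real.norm_eq_abs] using hB y)⟩
  have hB0 : 0 ≤ B := (Finset.sum_nonneg fun i _ => sq_nonneg _).trans (hB 0)
  obtain ⟨r, hr, hrW⟩ : ∃ r > 0, Metric.ball x r ⊆ W ∩ Ω := by
    have hxτ : x ∈ τ := ⟨1, ⟨ht.2, le_rfl⟩, hx⟩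
    exact Metric.isOpen_iff.1 (hW.inter hΩ) x ⟨hτW hxτ, hxΩ⟩
  refine ⟨r, hr, 2 * B, by positivity, R, hRc, hRS, hrW.trans inter_subset_right, ?_⟩
  intro f g hf hs i
  have h1 := thin_energy hΩ.measurableSet hχΩ (hc χ hχΩ) hrep hhk hdis hf hs
  have hcut := hf.cut hΩ.measurableSet hχΩ
  have hclm : MeasurableSet (closure D) := isClosed_closure.measurableSet
  have ifΩ : IntegrableOn (fun y => f y ^ 2) Ω := hf.sq
  have hR0Ω : R0 ⊆ Ω := fun y hy => (hχ.sub hy.1).2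
  have h2 : ∫ y, (∑ i, rgrad χ i y ^ 2) * f y ^ 2 ≤
      B * ((∫ y in closure D, f y ^ 2) + ∫ y in R, f y ^ 2) := by
    rw [← setIntegral_eq_integral_of_forall_compl_eq_zero (s := R0) (fun y hy => by
      simp [hR0g y hy])]
    have h3 : ∫ y in R0, (∑ i, rgrad χ i y ^ 2) * f y ^ 2 ≤ ∫ y in R0, B * f y ^ 2 := by
      refine integral_mono_of_nonneg ?_ ((ifΩ.mono_set hR0Ω).const_mul B) ?_
      · filter_upwards with y
        exact mul_nonneg (Finset.sum_nonneg fun i _ => sq_nonneg _) (sq_nonneg _)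
      · filter_upwards with y
        exact mul_le_mul_of_nonneg_right (hB y) (sq_nonneg _)
    rw [integral_const_mul] at h3
    refine h3.trans (mul_le_mul_of_nonneg_left ?_ hB0)
    have h4 : ∫ y in R0, f y ^ 2 ≤ ∫ y in closure D ∪ R, f y ^ 2 := by
      refine setInt_sq_mono ?_ (hclm.union hRc.isClosed.measurableSet)
        (ifΩ.mono_set (union_subset hDΩ (hRS.trans sdiff_subset)))
      intro y hy
      by_cases hyD : y ∈ D
      · exact Or.inl (subset_closure hyD)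
      · exact Or.inr ⟨hy, hyD⟩
    exact h4.trans (setInt_union_le hclm hRc.isClosed.measurableSet (ifΩ.mono_set hDΩ)
      (ifΩ.mono_set (hRS.trans sdiff_subset)))
  have h5 : ∫ y in Metric.ball x r, g i y ^ 2 ≤
      ∫ y, ∑ i, (χ y * g i y + rgrad χ i y * f y) ^ 2 := by
    have isum : Integrable fun y => ∑ i, (χ y * g i y + rgrad χ i y * f y) ^ 2 :=
      integrable_finsetSum _ fun i _ => (hcut.2.1 i).2
    have h6 : ∫ y in Metric.ball x r, g i y ^ 2 ≤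
        ∫ y in Metric.ball x r, ∑ i, (χ y * g i y + rgrad χ i y * f y) ^ 2 := by
      refine setIntegral_mono_on ((hf.sq_grad i).mono_set (hrW.trans inter_subset_right))
        isum.integrableOn Metric.isOpen_ball.measurableSet ?_
      intro y hy
      have hyW := (hrW hy).1
      refine le_trans ?_ (Finset.single_le_sum (f := fun i => (χ y * g i y + rgrad χ i y * f y) ^ 2)
        (fun i _ => sq_nonneg _) (Finset.mem_univ i))
      show g i y ^ 2 ≤ (χ y * g i y + rgrad χ i y * f y) ^ 2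
      rw [hW1 y hyW, hgW y hyW]
      exact le_of_eq (by ring)
    refine h6.trans (setIntegral_le_integral isum ?_)
    filter_upwards with y
    exact Finset.sum_nonneg fun i _ => sq_nonneg _
  calc _ ≤ _ := h5
    _ ≤ _ := h1
    _ ≤ 2 * (B * ((∫ y in closure D, f y ^ 2) + ∫ y in R, f y ^ 2)) := by gcongr
    _ = _ := by ring

end Pool.Agent.P8H23.PM
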